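import Pool.Agent.EMC.All.Defs

open Finset

namespace Pool.Agent.EMC

theorem dn_nonneg (w : ℕ) (Z : Finset ℕ) (A : Finset (Finset ℕ)) : 0 ≤ dn w Z A := by
  unfold dn
  positivity

theorem dn_le_one (w : ℕ) (Z : Finset ℕ) (A : Finset (Finset ℕ)) : dn w Z A ≤ 1 := by
  classical
  unfold dn
  apply div_le_one_of_le₀ _ (Nat.cast_nonneg _)
  have h := Finset.card_filter_le (Z.powersetCard w) (fun B => B ∈ A)
  rw [Finset.card_powersetCard] at h
  exact_mod_cast h

open Classical in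
theorem o03_count (w : ℕ) (Z : Finset ℕ) (A : Finset (Finset ℕ)) :
    ∑ B ∈ Z.powersetCard w, (((Z \ B).powersetCard w).filter (fun C => C ∈ A)).card =
      ((Z.powersetCard w).filter (fun C => C ∈ A)).card * (Z.card - w).choose w := by
  have h1 : ∑ B ∈ Z.powersetCard w, (((Z \ B).powersetCard w).filter (fun C => C ∈ A)).card =
      ∑ B ∈ Z.powersetCard w, ∑ _C ∈ ((Z \ B).powersetCard w).filter (fun C => C ∈ A), 1 := by
    apply Finset.sum_congr rfl
    intro B _
    rw [Finset.sum_const, smul_eq_mul, mul_one]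
  rw [h1]
  rw [Finset.sum_comm' (t' := (Z.powersetCard w).filter (fun C => C ∈ A))
    (s' := fun C => (Z \ C).powersetCard w)]
  · rw [Finset.sum_congr rfl (g := fun _ => (Z.card - w).choose w), Finset.sum_const,
      smul_eq_mul]
    intro C hC
    rw [Finset.mem_filter, Finset.mem_powersetCard] at hC
    rw [Finset.sum_const, smul_eq_mul, mul_one, Finset.card_powersetCard,
      Finset.card_sdiff_of_subset hC.1.1, hC.1.2]
  · intro B C
    simp only [Finset.mem_filter, Finset.mem_powersetCard, Finset.subset_sdiff]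
    constructor
    · rintro ⟨⟨h1, h2⟩, ⟨⟨h3, h4⟩, h5⟩, h6⟩
      exact ⟨⟨⟨h1, h4.symm⟩, h2⟩, ⟨h3, h5⟩, h6⟩
    · rintro ⟨⟨⟨h1, h4⟩, h2⟩, ⟨h3, h5⟩, h6⟩
      exact ⟨⟨h1, h2⟩, ⟨⟨h3, h4.symm⟩, h5⟩, h6⟩

/-- The average over `B` of the density of `A` in `Z \ B` is the density in `Z`. -/
theorem dn_avg {w : ℕ} {Z : Finset ℕ} (h : 2 * w ≤ Z.card) (A : Finset (Finset ℕ)) :
    (∑ B ∈ Z.powersetCard w, dn w (Z \ B) A) / (Z.card.choose w : ℝ) = dn w Z A := by
  classical
  have hc : (0 : ℝ) < ((Z.card - w).choose w : ℝ) := by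
    exact_mod_cast Nat.choose_pos (by omega)
  have h1 : ∑ B ∈ Z.powersetCard w, dn w (Z \ B) A =
      ((∑ B ∈ Z.powersetCard w,
        (((Z \ B).powersetCard w).filter (fun C => C ∈ A)).card : ℕ) : ℝ) /
        ((Z.card - w).choose w : ℝ) := by
    rw [Nat.cast_sum, Finset.sum_div]
    apply Finset.sum_congr rfl
    intro B hB
    rw [Finset.mem_powersetCard] at hB
    unfold dn
    rw [Finset.card_sdiff_of_subset hB.1, hB.2]
  rw [h1, o03_count, Nat.cast_mul, mul_div_assoc, div_self hc.ne', mul_one]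
  unfold dn
  rfl

end Pool.Agent.EMC
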