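import Pool.Agent.EMC.All.K05
import Pool.Agent.EMC.All.O03

open Finset

namespace Pool.Agent.EMC

open Classical in
/-- The number of members of `A` as a sum. -/
theorem k06_sum (w : ℕ) (Z : Finset ℕ) (A : Finset (Finset ℕ)) :
    ∑ B ∈ Z.powersetCard w, (if B ∈ A then (1 : ℝ) else 0) =
      (((Z.powersetCard w).filter (fun B => B ∈ A)).card : ℝ) := by
  rw [Finset.sum_boole]

/-- The variance of the density of `A` in `Z \ B`. -/
theorem dn_var {w : ℕ} {Z : Finset ℕ} (hw : 1 ≤ w) (h : 2 * w ≤ Z.card)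
    (A : Finset (Finset ℕ)) :
    (∑ B ∈ Z.powersetCard w, (dn w (Z \ B) A - dn w Z A) ^ 2) / (Z.card.choose w : ℝ) ≤
      ((w : ℝ) / ((Z.card : ℝ) - w)) ^ 2 * dn w Z A := by
  classical
  set a := dn w Z A with ha
  set P := Z.powersetCard w with hP
  have hN : (0 : ℝ) < (Z.card.choose w : ℝ) := by
    exact_mod_cast Nat.choose_pos (by omega)
  have hPc : (P.card : ℝ) = (Z.card.choose w : ℝ) := by
    rw [hP, Finset.card_powersetCard]
  set f : Finset ℕ → ℝ := fun B => (if B ∈ A then (1 : ℝ) else 0) - a with hf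
  have hind : ∑ B ∈ P, (if B ∈ A then (1 : ℝ) else 0) = (Z.card.choose w : ℝ) * a := by
    rw [ha, hP, k06_sum]
    unfold dn
    field_simp
  have h0 : ∑ B ∈ P, f B = 0 := by
    rw [hf, Finset.sum_sub_distrib, hind, Finset.sum_const, nsmul_eq_mul, hPc]
    ring
  have hsq : ∑ B ∈ P, f B ^ 2 ≤ (Z.card.choose w : ℝ) * a := by
    have h1 : ∀ B ∈ P, f B ^ 2 = (1 - 2 * a) * (if B ∈ A then (1 : ℝ) else 0) + a ^ 2 := by
      intro B _
      simp only [hf]
      split_ifs <;> ring
    rw [Finset.sum_congr rfl h1, Finset.sum_add_distrib, ← Finset.mul_sum, hind,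
      Finset.sum_const, nsmul_eq_mul, hPc]
    have : 0 ≤ (Z.card.choose w : ℝ) * a ^ 2 := by positivity
    nlinarith
  have hKn : ∀ B ∈ P, dn w (Z \ B) A - a = Kn w Z f B := by
    intro B hB
    have hB' := Finset.mem_powersetCard.1 hB
    have hc : (Z \ B).card = Z.card - w := by
      rw [Finset.card_sdiff_of_subset hB'.1, hB'.2]
    have hc0 : (0 : ℝ) < ((Z.card - w).choose w : ℝ) := by
      exact_mod_cast Nat.choose_pos (by omega)
    unfold Kn
    rw [hf, Finset.sum_sub_distrib, k06_sum, Finset.sum_const, nsmul_eq_mul,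
      Finset.card_powersetCard, hc]
    unfold dn
    rw [hc]
    field_simp
  rw [div_le_iff₀ hN, Finset.sum_congr rfl fun B hB => by rw [hKn B hB]]
  refine (kn_norm hw h h0).trans ?_
  rw [mul_assoc, mul_comm a]
  exact mul_le_mul_of_nonneg_left hsq (sq_nonneg _)

end Pool.Agent.EMC
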