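import Pool.Agent.EMC.All.O04
import Pool.Agent.EMC.All.K06

open Finset

namespace Pool.Agent.EMC

open Classical in
/-- The bound for one first block. -/
theorem b01_one {w u : ℕ} {Z : Finset ℕ} (hZ : (u + 1) * w ≤ Z.card) {T G : Finset (Finset ℕ)}
    (hTG : Disjoint T G) {th y : ℝ} (hth : 0 < th) (ha : 2 * dn w Z G ≤ th) (hy : 0 < y)
    {B : Finset ℕ} (hB : B ∈ Z.powersetCard w) :
    EO w u (Z \ B) (fun β => if (Fin.cons B β : Fin (u + 1) → Finset ℕ) 0 ∈ T ∧
        y ≤ (cnt G (Fin.cons B β : Fin (u + 1) → Finset ℕ) : ℝ) then (1 : ℝ) else 0) ≤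
      4 / th ^ 2 * (dn w (Z \ B) G - dn w Z G) ^ 2 + (if B ∈ T then u * th / y else 0) := by
  have hB' := Finset.mem_powersetCard.1 hB
  have hcard : (Z \ B).card = Z.card - w := by
    rw [Finset.card_sdiff_of_subset hB'.1, hB'.2]
  have huw : u * w ≤ (Z \ B).card := by
    rw [hcard]
    have h1 : (u + 1) * w = u * w + w := by ring
    omega
  have hsq : (0 : ℝ) ≤ 4 / th ^ 2 * (dn w (Z \ B) G - dn w Z G) ^ 2 := by positivity
  by_cases hT : B ∈ T
  · have hG : B ∉ G := fun h => Finset.disjoint_left.1 hTG hT h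
    rw [if_pos hT]
    have hcnt : ∀ β : Fin u → Finset ℕ,
        (cnt G (Fin.cons B β : Fin (u + 1) → Finset ℕ) : ℝ) = (cnt G β : ℝ) := by
      intro β
      rw [cnt_cons, if_neg hG, zero_add]
    have hle1 : EO w u (Z \ B) (fun β => if (Fin.cons B β : Fin (u + 1) → Finset ℕ) 0 ∈ T ∧
        y ≤ (cnt G (Fin.cons B β : Fin (u + 1) → Finset ℕ) : ℝ) then (1 : ℝ) else 0) ≤ 1 := by
      have h2 := EO_mono (w := w) (t := u) (Z := Z \ B)
        (Φ := fun β => if (Fin.cons B β : Fin (u + 1) → Finset ℕ) 0 ∈ T ∧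
          y ≤ (cnt G (Fin.cons B β : Fin (u + 1) → Finset ℕ) : ℝ) then (1 : ℝ) else 0)
        (Ψ := fun _ => (1 : ℝ)) (fun β _ => by
          show (if _ then (1 : ℝ) else 0) ≤ 1
          split_ifs <;> norm_num)
      rw [EO_const huw] at h2
      exact h2
    by_cases hd : dn w (Z \ B) G ≤ th
    · have h1 : EO w u (Z \ B) (fun β => if (Fin.cons B β : Fin (u + 1) → Finset ℕ) 0 ∈ T ∧
          y ≤ (cnt G (Fin.cons B β : Fin (u + 1) → Finset ℕ) : ℝ) then (1 : ℝ) else 0) ≤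
          EO w u (Z \ B) (fun β => (1 / y) * (cnt G β : ℝ)) := by
        apply EO_mono
        intro β _
        simp only [hcnt]
        have h3 : (0 : ℝ) ≤ (cnt G β : ℝ) := Nat.cast_nonneg _
        split_ifs with h4
        · rw [one_div, inv_mul_eq_div, le_div_iff₀ hy, one_mul]
          exact h4.2
        · positivity
      rw [EO_mul, EO_cnt huw] at h1
      have h5 : 1 / y * ((u : ℝ) * dn w (Z \ B) G) ≤ u * th / y := by
        rw [one_div, inv_mul_eq_div]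
        exact div_le_div_of_nonneg_right (mul_le_mul_of_nonneg_left hd (Nat.cast_nonneg u)) hy.le
      linarith
    · push Not at hd
      have h6 : th / 2 ≤ dn w (Z \ B) G - dn w Z G := by linarith
      have h7 : (1 : ℝ) ≤ 4 / th ^ 2 * (dn w (Z \ B) G - dn w Z G) ^ 2 := by
        have h8 : (th / 2) ^ 2 ≤ (dn w (Z \ B) G - dn w Z G) ^ 2 :=
          pow_le_pow_left₀ (by positivity) h6 2
        calc (1 : ℝ) = 4 / th ^ 2 * (th / 2) ^ 2 := by field_simp; norm_num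
          _ ≤ _ := mul_le_mul_of_nonneg_left h8 (by positivity)
      have h9 : (0 : ℝ) ≤ u * th / y := by positivity
      linarith
  · rw [if_neg hT, add_zero]
    have h1 : EO w u (Z \ B) (fun β => if (Fin.cons B β : Fin (u + 1) → Finset ℕ) 0 ∈ T ∧
        y ≤ (cnt G (Fin.cons B β : Fin (u + 1) → Finset ℕ) : ℝ) then (1 : ℝ) else 0) = 0 := by
      have h2 := EO_congr (w := w) (t := u) (Z := Z \ B)
        (Φ := fun β => if (Fin.cons B β : Fin (u + 1) → Finset ℕ) 0 ∈ T ∧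
          y ≤ (cnt G (Fin.cons B β : Fin (u + 1) → Finset ℕ) : ℝ) then (1 : ℝ) else 0)
        (Ψ := fun _ => (0 : ℝ)) (fun β _ => by
          simp only [Fin.cons_zero, hT, false_and, if_false])
      rw [EO_const huw] at h2
      exact h2
    rw [h1]
    exact hsq

open Classical in
/-- The first block belongs to `T` and at least `y` blocks belong to `G`. -/
theorem bad_first {w u : ℕ} {Z : Finset ℕ} (hw : 1 ≤ w) (hu : 1 ≤ u)
    (hZ : (u + 1) * w ≤ Z.card) {T G : Finset (Finset ℕ)} (hTG : Disjoint T G) {th y : ℝ}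
    (hth : 0 < th) (ha : 2 * dn w Z G ≤ th) (hy : 0 < y) :
    EO w (u + 1) Z (fun β => if β 0 ∈ T ∧ y ≤ (cnt G β : ℝ) then (1 : ℝ) else 0) ≤
      4 * dn w Z G / (u ^ 2 * th ^ 2) + dn w Z T * (u * th / y) := by
  have hZ2 : u * w + w ≤ Z.card := by
    have h1 : (u + 1) * w = u * w + w := by ring
    omega
  have h2w : 2 * w ≤ Z.card := by nlinarith
  have hch : (0 : ℝ) < (Z.card.choose w : ℝ) := by
    exact_mod_cast Nat.choose_pos (by omega)
  rw [EO_succ hZ]
  have h1 : ∑ B ∈ Z.powersetCard w, EO w u (Z \ B) (fun β =>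
      if (Fin.cons B β : Fin (u + 1) → Finset ℕ) 0 ∈ T ∧
        y ≤ (cnt G (Fin.cons B β : Fin (u + 1) → Finset ℕ) : ℝ) then (1 : ℝ) else 0) ≤
      ∑ B ∈ Z.powersetCard w, (4 / th ^ 2 * (dn w (Z \ B) G - dn w Z G) ^ 2 +
        (if B ∈ T then u * th / y else 0)) :=
    Finset.sum_le_sum fun B hB => b01_one hZ hTG hth ha hy hB
  have h2 := div_le_div_of_nonneg_right h1 hch.le
  refine h2.trans ?_
  rw [Finset.sum_add_distrib, ← Finset.mul_sum, ← Finset.sum_filter, Finset.sum_const,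
    nsmul_eq_mul, add_div]
  have h3 := dn_var hw h2w G
  have ha0 := dn_nonneg w Z G
  have hwr : (0 : ℝ) < (w : ℝ) := by exact_mod_cast hw
  have hur : (0 : ℝ) < (u : ℝ) := by exact_mod_cast hu
  have hZr : (u : ℝ) * w + w ≤ (Z.card : ℝ) := by exact_mod_cast hZ2
  have hq : (w : ℝ) / ((Z.card : ℝ) - w) ≤ 1 / u := by
    rw [div_le_div_iff₀ (by nlinarith) hur]
    linarith
  have hq0 : 0 ≤ (w : ℝ) / ((Z.card : ℝ) - w) := div_nonneg hwr.le (by nlinarith)
  have hq2 : ((w : ℝ) / ((Z.card : ℝ) - w)) ^ 2 ≤ (1 / u) ^ 2 := pow_le_pow_left₀ hq0 hq 2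
  have h4 : 4 / th ^ 2 * (∑ B ∈ Z.powersetCard w, (dn w (Z \ B) G - dn w Z G) ^ 2) /
      (Z.card.choose w : ℝ) ≤ 4 * dn w Z G / (u ^ 2 * th ^ 2) := by
    have h5 : (∑ B ∈ Z.powersetCard w, (dn w (Z \ B) G - dn w Z G) ^ 2) /
        (Z.card.choose w : ℝ) ≤ (1 / u) ^ 2 * dn w Z G :=
      h3.trans (mul_le_mul_of_nonneg_right hq2 ha0)
    calc 4 / th ^ 2 * (∑ B ∈ Z.powersetCard w, (dn w (Z \ B) G - dn w Z G) ^ 2) /
        (Z.card.choose w : ℝ) = 4 / th ^ 2 * ((∑ B ∈ Z.powersetCard w,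
          (dn w (Z \ B) G - dn w Z G) ^ 2) / (Z.card.choose w : ℝ)) := by ring
      _ ≤ 4 / th ^ 2 * ((1 / u) ^ 2 * dn w Z G) :=
        mul_le_mul_of_nonneg_left h5 (by positivity)
      _ = 4 * dn w Z G / (u ^ 2 * th ^ 2) := by
        field_simp
  have h6 : (((Z.powersetCard w).filter (fun B => B ∈ T)).card : ℝ) * (u * th / y) /
      (Z.card.choose w : ℝ) = dn w Z T * (u * th / y) := by
    unfold dn
    ring
  linarith [h6]

end Pool.Agent.EMC
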