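import Pool.Agent.EMC.All.B01

open Finset

namespace Pool.Agent.EMC

theorem b02_cnt_perm {t : ℕ} (A : Finset (Finset ℕ)) (π : Equiv.Perm (Fin t))
    (β : Fin t → Finset ℕ) : cnt A (fun i => β (π i)) = cnt A β := by
  classical
  unfold cnt
  refine Finset.card_bij (fun i _ => π i) ?_ ?_ ?_
  · intro i hi
    exact Finset.mem_filter.2 ⟨Finset.mem_univ _, (Finset.mem_filter.1 hi).2⟩
  · intro i _ j _ h
    exact π.injective h
  · intro j hj
    refine ⟨π.symm j, Finset.mem_filter.2 ⟨Finset.mem_univ _, ?_⟩, π.apply_symm_apply j⟩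
    show β (π (π.symm j)) ∈ A
    rw [π.apply_symm_apply]
    exact (Finset.mem_filter.1 hj).2

open Classical in
/-- The expected number of blocks in `T` when at least `y` blocks belong to `G`. -/
theorem bad_event {w u : ℕ} {Z : Finset ℕ} (hw : 1 ≤ w) (hu : 1 ≤ u)
    (hZ : (u + 1) * w ≤ Z.card) {T G : Finset (Finset ℕ)} (hTG : Disjoint T G) {th y : ℝ}
    (hth : 0 < th) (ha : 2 * dn w Z G ≤ th) (hy : 0 < y) :
    EO w (u + 1) Z (fun β => if y ≤ (cnt G β : ℝ) then (cnt T β : ℝ) else 0) ≤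
      (u + 1) * (4 * dn w Z G / (u ^ 2 * th ^ 2) + dn w Z T * (u * th / y)) := by
  have h1 : EO w (u + 1) Z (fun β => if y ≤ (cnt G β : ℝ) then (cnt T β : ℝ) else 0) =
      EO w (u + 1) Z (fun β => ∑ i : Fin (u + 1),
        if β i ∈ T ∧ y ≤ (cnt G β : ℝ) then (1 : ℝ) else 0) := by
    refine EO_congr fun β _ => ?_
    by_cases hyc : y ≤ (cnt G β : ℝ)
    · rw [if_pos hyc]
      have h2 : ∀ i : Fin (u + 1), (if β i ∈ T ∧ y ≤ (cnt G β : ℝ) then (1 : ℝ) else 0) =
          if β i ∈ T then (1 : ℝ) else 0 := fun i => by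
        by_cases hi : β i ∈ T
        · rw [if_pos ⟨hi, hyc⟩, if_pos hi]
        · rw [if_neg (fun h => hi h.1), if_neg hi]
      rw [Finset.sum_congr rfl fun i _ => h2 i, Finset.sum_boole]
      rfl
    · rw [if_neg hyc, Finset.sum_eq_zero fun i _ => if_neg fun h => hyc h.2]
  rw [h1, EO_sum]
  have h3 : ∀ i ∈ (Finset.univ : Finset (Fin (u + 1))), EO w (u + 1) Z (fun β =>
      if β i ∈ T ∧ y ≤ (cnt G β : ℝ) then (1 : ℝ) else 0) ≤
      4 * dn w Z G / (u ^ 2 * th ^ 2) + dn w Z T * (u * th / y) := by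
    intro i _
    have h4 := EO_perm (w := w) (Z := Z) (Equiv.swap 0 i)
      (fun β : Fin (u + 1) → Finset ℕ => if β 0 ∈ T ∧ y ≤ (cnt G β : ℝ) then (1 : ℝ) else 0)
    have h5 := bad_first hw hu hZ hTG hth ha hy
    rw [← h4] at h5
    refine le_trans (le_of_eq ?_) h5
    refine EO_congr fun β _ => ?_
    rw [b02_cnt_perm]
    show _ = if β (Equiv.swap 0 i 0) ∈ T ∧ y ≤ (cnt G β : ℝ) then (1 : ℝ) else 0
    rw [Equiv.swap_apply_left]
  refine (Finset.sum_le_sum h3).trans (le_of_eq ?_)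
  rw [Finset.sum_const, Finset.card_univ, Fintype.card_fin, nsmul_eq_mul]
  push_cast
  ring

end Pool.Agent.EMC
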