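import Mathlib

open Finset

namespace Pool.Agent.EMC

theorem c01_anti {s : ℕ} (n : ℕ → ℕ) (hmono : ∀ i < s, n (i + 1) ≤ n i) (i : ℕ) :
    ∀ d : ℕ, i + d ≤ s → n (i + d) ≤ n i := by
  intro d
  induction d with
  | zero => intro _; exact le_refl _
  | succ d ih =>
    intro hd
    have h1 : n (i + d) ≤ n i := ih (by omega)
    have h2 : n (i + d + 1) ≤ n (i + d) := hmono (i + d) (by omega)
    have h3 : i + (d + 1) = i + d + 1 := by omega
    rw [h3]
    exact le_trans h2 h1

theorem c01_anti' {s : ℕ} (n : ℕ → ℕ) (hmono : ∀ i < s, n (i + 1) ≤ n i) {i j : ℕ}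
    (hij : i ≤ j) (hj : j ≤ s) : n j ≤ n i := by
  have h := c01_anti n hmono i (j - i) (by omega)
  have h2 : i + (j - i) = j := by omega
  rw [h2] at h
  exact h

/-- The block count with a Hall index. -/
theorem count_main {s t h g0 : ℕ} (n : ℕ → ℕ) (hmono : ∀ i < s, n (i + 1) ≤ n i)
    (ht : n 0 ≤ t) (hg : g0 ≤ s) (hts : g0 + s + 1 + h ≤ t) (hfail : ∃ i ≤ s, n i ≤ s - i) :
    ∑ i ∈ range (s + 1), n i + s * n s + h * n s ≤
      s * t + (if n (s - g0) ≤ s then (s + 1 + h) * n s else 0) := by
  obtain ⟨i, his, hni⟩ := hfail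
  obtain ⟨g, hgdef⟩ : ∃ g, g = s - i := ⟨s - i, rfl⟩
  have hsg : s = i + g := by omega
  have hnig : n i ≤ g := by rw [hgdef]; exact hni
  -- the sum
  have hsum : ∑ j ∈ range (s + 1), n j ≤ i * t + g * g + n s := by
    rw [sum_range_succ]
    have h1 : ∑ j ∈ range s, n j = ∑ j ∈ range i, n j + ∑ j ∈ range g, n (i + j) := by
      rw [hsg, sum_range_add]
    have h2 : ∑ j ∈ range i, n j ≤ i * t := by
      calc ∑ j ∈ range i, n j ≤ ∑ _j ∈ range i, t := by
            apply sum_le_sum
            intro j hj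
            have hji : j < i := mem_range.mp hj
            exact le_trans (c01_anti' n hmono (Nat.zero_le j) (by omega)) ht
        _ = i * t := by rw [sum_const, card_range, smul_eq_mul]
    have h3 : ∑ j ∈ range g, n (i + j) ≤ g * g := by
      calc ∑ j ∈ range g, n (i + j) ≤ ∑ _j ∈ range g, g := by
            apply sum_le_sum
            intro j hj
            have hjg : j < g := mem_range.mp hj
            exact le_trans (c01_anti' n hmono (Nat.le_add_right i j) (by omega)) hnig
        _ = g * g := by rw [sum_const, card_range, smul_eq_mul]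
    omega
  have hns : n s ≤ g := le_trans (c01_anti' n hmono his (le_refl s)) hnig
  by_cases hgg : g ≤ g0
  · have hA : (s + 1 + h) * n s ≤ (s + 1 + h) * g := Nat.mul_le_mul_left _ hns
    have hB : g * (g + (s + 1 + h)) ≤ g * t := Nat.mul_le_mul_left _ (by omega)
    have hst : s * t = i * t + g * t := by rw [hsg]; ring
    have hexp : (s + 1 + h) * n s = n s + s * n s + h * n s := by ring
    have hexp2 : g * (g + (s + 1 + h)) = g * g + (s + 1 + h) * g := by ring
    have hif : 0 ≤ (if n (s - g0) ≤ s then (s + 1 + h) * n s else 0) := Nat.zero_le _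
    omega
  · have hns0 : n (s - g0) ≤ s := by
      have h1 : n (s - g0) ≤ n i := c01_anti' n hmono (by omega) (by omega)
      omega
    rw [if_pos hns0]
    have hB : g * g ≤ g * t := Nat.mul_le_mul_left _ (by omega)
    have hst : s * t = i * t + g * t := by rw [hsg]; ring
    have hexp : (s + 1 + h) * n s = n s + s * n s + h * n s := by ring
    omega

end Pool.Agent.EMC
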