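import Pool.Agent.EMC.All.O01

open Finset

namespace Pool.Agent.EMC

/-- Disjoint blocks and nested families without a system of disjoint members: some Hall
inequality fails. -/
theorem hall_fail {s t w : ℕ} {Z : Finset ℕ} (G : ℕ → Finset (Finset ℕ))
    (hnest : ∀ i < s, G (i + 1) ⊆ G i)
    (hdis : ¬ ∃ B : Fin (s + 1) → Finset ℕ, (∀ i : Fin (s + 1), B i ∈ G (i : ℕ)) ∧
      ∀ i j : Fin (s + 1), i ≠ j → Disjoint (B i) (B j))
    {β : Fin t → Finset ℕ} (hβ : β ∈ Om w t Z) :
    ∃ i ≤ s, cnt (G i) β ≤ s - i := by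
  classical
  have hd := (mem_om.1 hβ).2
  by_contra hcon
  push Not at hcon
  apply hdis
  unfold cnt at hcon
  have hall : ∀ S : Finset (Fin (s + 1)), S.card ≤
      (S.biUnion (fun i : Fin (s + 1) => univ.filter (fun a => β a ∈ G (i : ℕ)))).card := by
    intro S
    rcases S.eq_empty_or_nonempty with rfl | hS
    · simp
    · have hmin := S.min'_mem hS
      have hc := hcon (S.min' hS : ℕ) (by have := (S.min' hS).2; omega)
      have hS2 : S ⊆ Finset.Ici (S.min' hS) := fun x hx =>
        Finset.mem_Ici.2 (S.min'_le x hx)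
      have hS3 := Finset.card_le_card hS2
      rw [Fin.card_Ici] at hS3
      have h4 : (univ.filter (fun a => β a ∈ G (S.min' hS : ℕ))).card ≤
          (S.biUnion (fun i : Fin (s + 1) => univ.filter (fun a => β a ∈ G (i : ℕ)))).card :=
        Finset.card_le_card (Finset.subset_biUnion_of_mem
          (fun i : Fin (s + 1) => univ.filter (fun a => β a ∈ G (i : ℕ))) hmin)
      have h5 := (S.min' hS).2
      have h6 : s - (S.min' hS : ℕ) <
          (univ.filter (fun a => β a ∈ G (S.min' hS : ℕ))).card := by
        refine lt_of_lt_of_le hc (le_of_eq ?_)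
        congr
      omega
  obtain ⟨φ, hφ, hφm⟩ := (Finset.all_card_le_biUnion_card_iff_exists_injective _).1 hall
  refine ⟨fun i => β (φ i), fun i => ?_, fun i j hij => ?_⟩
  · have := hφm i
    simp only [Finset.mem_filter, Finset.mem_univ, true_and] at this
    exact this
  · exact hd _ _ (fun h => hij (hφ h))

end Pool.Agent.EMC
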