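import Pool.Agent.EMC.All.O04
import Pool.Agent.EMC.All.C01
import Pool.Agent.EMC.All.C02

open Finset

namespace Pool.Agent.EMC

open Classical in
/-- The blocks in a family and the blocks outside it. -/
theorem c03_compl {w t : ℕ} {Z : Finset ℕ} (A : Finset (Finset ℕ)) {β : Fin t → Finset ℕ}
    (hβ : β ∈ Om w t Z) :
    cnt A β + cnt ((Z.powersetCard w).filter (fun B => B ∉ A)) β = t := by
  have hm := (mem_om.mp hβ).1
  unfold cnt
  have h1 : (univ.filter (fun b => β b ∈ (Z.powersetCard w).filter (fun B => B ∉ A))) =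
      univ.filter (fun b : Fin t => ¬ (β b ∈ A)) := by
    apply filter_congr
    intro b _
    rw [mem_filter, mem_powersetCard]
    exact ⟨fun h => h.2, fun h => ⟨hm b, h⟩⟩
  rw [h1, card_filter_add_card_filter_not, card_univ, Fintype.card_fin]

open Classical in
/-- The block count for one tuple of blocks, over the reals. -/
theorem c03_point {s t h g0 w : ℕ} {Z : Finset ℕ} (hg : g0 ≤ s)
    (hts : g0 + s + 1 + h ≤ t) (G : ℕ → Finset (Finset ℕ))
    (hnest : ∀ i < s, G (i + 1) ⊆ G i)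
    (hdis : ¬ ∃ B : Fin (s + 1) → Finset ℕ, (∀ i : Fin (s + 1), B i ∈ G (i : ℕ)) ∧
      ∀ i j : Fin (s + 1), i ≠ j → Disjoint (B i) (B j))
    {β : Fin t → Finset ℕ} (hβ : β ∈ Om w t Z) :
    (∑ i ∈ range (s + 1), (cnt (G i) β : ℝ)) + ((s : ℝ) + h) * (cnt (G s) β : ℝ) ≤
      (s : ℝ) * t + ((s : ℝ) + 1 + h) * (if
        ((t : ℝ) - s ≤ (cnt ((Z.powersetCard w).filter (fun B => B ∉ G (s - g0))) β : ℝ))
        then (cnt (G s) β : ℝ) else 0) := by
  have hmono : ∀ i < s, cnt (G (i + 1)) β ≤ cnt (G i) β := by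
    intro i hi
    unfold cnt
    apply card_le_card
    intro b hb
    rw [mem_filter] at hb ⊢
    exact ⟨hb.1, hnest i hi hb.2⟩
  have hmain := count_main (s := s) (t := t) (h := h) (g0 := g0) (fun i => cnt (G i) β) hmono
    (cnt_le (G 0) β) hg hts (hall_fail G hnest hdis hβ)
  have hmain' : ((∑ i ∈ range (s + 1), cnt (G i) β + s * cnt (G s) β + h * cnt (G s) β : ℕ) : ℝ) ≤
      ((s * t + (if cnt (G (s - g0)) β ≤ s then (s + 1 + h) * cnt (G s) β else 0) : ℕ) : ℝ) := by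
    exact_mod_cast hmain
  have hc := c03_compl (G (s - g0)) hβ
  have hc' : (cnt (G (s - g0)) β : ℝ) +
      (cnt ((Z.powersetCard w).filter (fun B => B ∉ G (s - g0))) β : ℝ) = t := by
    exact_mod_cast hc
  by_cases hle : cnt (G (s - g0)) β ≤ s
  · rw [if_pos hle] at hmain'
    have hle' : (cnt (G (s - g0)) β : ℝ) ≤ s := by exact_mod_cast hle
    rw [if_pos (by linarith)]
    push_cast at hmain'
    linarith
  · rw [if_neg hle] at hmain'
    have h0 : (0 : ℝ) ≤ ((s : ℝ) + 1 + h) * (if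
        ((t : ℝ) - s ≤ (cnt ((Z.powersetCard w).filter (fun B => B ∉ G (s - g0))) β : ℝ))
        then (cnt (G s) β : ℝ) else 0) := by
      apply mul_nonneg (by positivity)
      split_ifs
      · positivity
      · exact le_refl _
    push_cast at hmain'
    linarith

open Classical in
/-- The averaged block count. -/
theorem block_avg {s t h g0 w : ℕ} {Z : Finset ℕ} (hZ : t * w ≤ Z.card) (hg : g0 ≤ s)
    (hts : g0 + s + 1 + h ≤ t) (G : ℕ → Finset (Finset ℕ))
    (hnest : ∀ i < s, G (i + 1) ⊆ G i)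
    (hdis : ¬ ∃ B : Fin (s + 1) → Finset ℕ, (∀ i : Fin (s + 1), B i ∈ G (i : ℕ)) ∧
      ∀ i j : Fin (s + 1), i ≠ j → Disjoint (B i) (B j)) :
    t * (∑ i ∈ range (s + 1), dn w Z (G i) + s * dn w Z (G s)) + h * t * dn w Z (G s) ≤
      s * t + (s + 1 + h) * EO w t Z (fun β => if
        ((t : ℝ) - s ≤ (cnt ((Z.powersetCard w).filter (fun B => B ∉ G (s - g0))) β : ℝ))
        then (cnt (G s) β : ℝ) else 0) := by
  have hE := EO_mono (w := w) (t := t) (Z := Z) (fun β hβ =>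
    c03_point hg hts G hnest hdis hβ)
  rw [EO_add (w := w) (t := t) (Z := Z) (fun β => ∑ i ∈ range (s + 1), (cnt (G i) β : ℝ))
      (fun β => ((s : ℝ) + h) * (cnt (G s) β : ℝ)),
    EO_sum (w := w) (t := t) (Z := Z) (range (s + 1)) (fun i β => (cnt (G i) β : ℝ)),
    EO_mul (w := w) (t := t) (Z := Z) ((s : ℝ) + h) (fun β => (cnt (G s) β : ℝ)),
    EO_add (w := w) (t := t) (Z := Z) (fun _ => (s : ℝ) * t)
      (fun β => ((s : ℝ) + 1 + h) * (if
        ((t : ℝ) - s ≤ (cnt ((Z.powersetCard w).filter (fun B => B ∉ G (s - g0))) β : ℝ))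
        then (cnt (G s) β : ℝ) else 0)),
    EO_const hZ, EO_mul (w := w) (t := t) (Z := Z) ((s : ℝ) + 1 + h) (fun β => (if
        ((t : ℝ) - s ≤ (cnt ((Z.powersetCard w).filter (fun B => B ∉ G (s - g0))) β : ℝ))
        then (cnt (G s) β : ℝ) else 0)), EO_cnt hZ (G s)] at hE
  have hsum : ∑ i ∈ range (s + 1), EO w t Z (fun β => (cnt (G i) β : ℝ)) =
      t * ∑ i ∈ range (s + 1), dn w Z (G i) := by
    rw [mul_sum]
    exact sum_congr rfl (fun i _ => EO_cnt hZ (G i))
  rw [hsum] at hE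
  have hr : (t : ℝ) * (∑ i ∈ range (s + 1), dn w Z (G i) + s * dn w Z (G s)) +
      h * t * dn w Z (G s) =
      t * ∑ i ∈ range (s + 1), dn w Z (G i) + ((s : ℝ) + h) * (t * dn w Z (G s)) := by ring
  rw [hr]
  exact hE

end Pool.Agent.EMC
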