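import Pool.Agent.EMC.All.B02
import Pool.Agent.EMC.All.C03

open Finset

namespace Pool.Agent.EMC

open Classical in
lemma c04_dn_compl {w : ℕ} {Z : Finset ℕ} (h : w ≤ Z.card) (A : Finset (Finset ℕ)) :
    dn w Z ((Z.powersetCard w).filter (fun B => B ∉ A)) = 1 - dn w Z A := by
  unfold dn
  have hC : (0 : ℝ) < (Z.card.choose w : ℝ) := by exact_mod_cast Nat.choose_pos h
  have h1 : (Z.powersetCard w).filter (fun B => B ∈ (Z.powersetCard w).filter (fun B => B ∉ A)) =
      (Z.powersetCard w).filter (fun B => ¬ B ∈ A) := by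
    ext B
    simp only [Finset.mem_filter]
    tauto
  rw [h1]
  have h2 := Finset.card_filter_add_card_filter_not (s := Z.powersetCard w) (fun B => B ∈ A)
  rw [Finset.card_powersetCard] at h2
  have h3 : (((Z.powersetCard w).filter (fun B => B ∈ A)).card : ℝ) +
      (((Z.powersetCard w).filter (fun B => ¬ B ∈ A)).card : ℝ) = (Z.card.choose w : ℝ) := by
    exact_mod_cast h2
  rw [eq_sub_iff_add_eq, ← add_div, div_eq_one_iff_eq hC.ne']
  linarith

open Classical in
/-- The block inequality, when `G (s - g0)` contains almost everything. -/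
theorem block_ineq {s u h g0 w : ℕ} {Z : Finset ℕ} (hw : 1 ≤ w) (hu : 1 ≤ u)
    (hZ : (u + 1) * w ≤ Z.card) (hg : g0 ≤ s) (hts : g0 + s + 1 + h ≤ u + 1)
    (G : ℕ → Finset (Finset ℕ)) (hnest : ∀ i < s, G (i + 1) ⊆ G i)
    (hdis : ¬ ∃ B : Fin (s + 1) → Finset ℕ, (∀ i : Fin (s + 1), B i ∈ G (i : ℕ)) ∧
      ∀ i j : Fin (s + 1), i ≠ j → Disjoint (B i) (B j))
    {th : ℝ} (hth : 0 < th) (ha : 2 * (1 - dn w Z (G (s - g0))) ≤ th)
    (hbad : ((s : ℝ) + 1 + h) * (4 * (1 - dn w Z (G (s - g0))) / (u ^ 2 * th ^ 2) +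
      dn w Z (G s) * (u * th / ((u : ℝ) + 1 - s))) ≤ h * dn w Z (G s)) :
    ∑ i ∈ range (s + 1), dn w Z (G i) + s * dn w Z (G s) ≤ s := by
  have hwZ : w ≤ Z.card := by
    have : 1 * w ≤ (u + 1) * w := Nat.mul_le_mul_right _ (by omega)
    omega
  have hdn := c04_dn_compl hwZ (G (s - g0))
  have hanti : ∀ d a, a + d ≤ s → G (a + d) ⊆ G a := by
    intro d
    induction d with
    | zero => intro a _; exact Finset.Subset.refl _
    | succ d ih =>
      intro a ha
      exact (hnest (a + d) (by omega)).trans (ih a (by omega))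
  have hTG : Disjoint (G s) ((Z.powersetCard w).filter (fun B => B ∉ G (s - g0))) := by
    rw [Finset.disjoint_left]
    intro B hB hB2
    rw [Finset.mem_filter] at hB2
    apply hB2.2
    have h3 := hanti g0 (s - g0) (by omega)
    rw [show s - g0 + g0 = s by omega] at h3
    exact h3 hB
  have hy : (0 : ℝ) < (u : ℝ) + 1 - s := by
    have : (s : ℝ) + 1 ≤ (u : ℝ) + 1 := by
      have h4 : s + 1 ≤ u + 1 := by omega
      exact_mod_cast h4
    linarith
  have h1 := block_avg hZ hg hts G hnest hdis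
  have h2 := bad_event hw hu hZ hTG hth (by rw [hdn]; exact ha) hy
  rw [hdn] at h2
  push_cast at h1
  have hu0 : (0 : ℝ) < (u : ℝ) + 1 := by positivity
  have hsh : (0 : ℝ) ≤ (s : ℝ) + 1 + h := by positivity
  have h3 : ((s : ℝ) + 1 + h) * (((u : ℝ) + 1) *
      (4 * (1 - dn w Z (G (s - g0))) / (u ^ 2 * th ^ 2) +
      dn w Z (G s) * (u * th / ((u : ℝ) + 1 - s)))) ≤ ((u : ℝ) + 1) * (h * dn w Z (G s)) := by
    calc ((s : ℝ) + 1 + h) * (((u : ℝ) + 1) *
          (4 * (1 - dn w Z (G (s - g0))) / (u ^ 2 * th ^ 2) +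
          dn w Z (G s) * (u * th / ((u : ℝ) + 1 - s))))
        = ((u : ℝ) + 1) * (((s : ℝ) + 1 + h) *
          (4 * (1 - dn w Z (G (s - g0))) / (u ^ 2 * th ^ 2) +
          dn w Z (G s) * (u * th / ((u : ℝ) + 1 - s)))) := by ring
      _ ≤ _ := mul_le_mul_of_nonneg_left hbad hu0.le
  have h4 := mul_le_mul_of_nonneg_left h2 hsh
  have h5 : ((u : ℝ) + 1) * (∑ i ∈ range (s + 1), dn w Z (G i) + s * dn w Z (G s)) ≤
      ((u : ℝ) + 1) * s := by
    linarith
  exact le_of_mul_le_mul_left h5 hu0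

end Pool.Agent.EMC
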