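import Pool.Agent.EMC.All.St

open Finset

namespace Pool.Agent.EMC

theorem thm_Cara : St_Cara := by
  classical
  intro k L V w b hV hw hb
  rw [convexHull_eq_union] at hw
  simp only [Set.mem_iUnion] at hw
  obtain ⟨t, htV, hai, hwt⟩ := hw
  rw [Finset.mem_convexHull'] at hwt
  obtain ⟨lam, hlam0, hlam1, hlamw⟩ := hwt
  have hcard : t.card ≤ L + 1 := by
    have h1 := hai.card_le_finrank_succ
    rw [Fintype.card_coe] at h1
    have h2 : Module.finrank ℝ (vectorSpan ℝ (Set.range (Subtype.val : t → (Fin L → ℝ)))) ≤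
        Module.finrank ℝ (Fin L → ℝ) := Submodule.finrank_le _
    rw [Module.finrank_fin_fun] at h2
    omega
  set n : (Fin L → ℝ) → ℕ := fun z => ⌊((k : ℝ) + L + 1) * lam z⌋₊ with hn
  have hKpos : (0 : ℝ) < (k : ℝ) + L + 1 := by positivity
  have hnle : ∀ z ∈ t, (n z : ℝ) ≤ ((k : ℝ) + L + 1) * lam z := by
    intro z hz
    exact Nat.floor_le (mul_nonneg hKpos.le (hlam0 z hz))
  have hngt : ∀ z ∈ t, ((k : ℝ) + L + 1) * lam z - 1 ≤ (n z : ℝ) := by
    intro z _
    have := Nat.lt_floor_add_one (((k : ℝ) + L + 1) * lam z)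
    show _ ≤ ((⌊((k : ℝ) + L + 1) * lam z⌋₊ : ℕ) : ℝ)
    linarith
  have hsum : k ≤ ∑ z ∈ t, n z := by
    have h1 : ((k : ℝ) + L + 1) - t.card ≤ ((∑ z ∈ t, n z : ℕ) : ℝ) := by
      push_cast
      calc ((k : ℝ) + L + 1) - t.card = ∑ z ∈ t, (((k : ℝ) + L + 1) * lam z - 1) := by
            rw [Finset.sum_sub_distrib, ← Finset.mul_sum, hlam1]
            simp
        _ ≤ ∑ z ∈ t, (n z : ℝ) := Finset.sum_le_sum hngt
    have h2 : (t.card : ℝ) ≤ (L : ℝ) + 1 := by exact_mod_cast hcard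
    have h3 : (k : ℝ) ≤ ((∑ z ∈ t, n z : ℕ) : ℝ) := by linarith
    exact_mod_cast h3
  have hcs : Fintype.card (Fin k) ≤ Fintype.card (Σ z : t, Fin (n z)) := by
    rw [Fintype.card_fin, Fintype.card_sigma]
    simp only [Fintype.card_fin]
    rw [Finset.sum_coe_sort t n]
    exact hsum
  obtain ⟨e⟩ := Function.Embedding.nonempty_of_card_le hcs
  refine ⟨fun j => ((e j).1 : Fin L → ℝ), fun j => ?_, fun l => ?_⟩
  · exact_mod_cast htV (e j).1.2
  · have hnn : ∀ p : (Σ z : t, Fin (n z)), 0 ≤ (p.1 : Fin L → ℝ) l := by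
      intro p
      exact hV _ (by exact_mod_cast htV p.1.2) l
    calc ∑ j, ((e j).1 : Fin L → ℝ) l
        = ∑ p ∈ (Finset.univ : Finset (Fin k)).map e, (p.1 : Fin L → ℝ) l := by
          rw [Finset.sum_map]
      _ ≤ ∑ p : (Σ z : t, Fin (n z)), (p.1 : Fin L → ℝ) l :=
          Finset.sum_le_sum_of_subset_of_nonneg (Finset.subset_univ _) (fun p _ _ => hnn p)
      _ = ∑ z : t, (n z : ℝ) * (z : Fin L → ℝ) l := by
          rw [Fintype.sum_sigma]
          refine Finset.sum_congr rfl (fun z _ => ?_)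
          show ∑ _y : Fin (n z), (z : Fin L → ℝ) l = (n z : ℝ) * (z : Fin L → ℝ) l
          rw [Finset.sum_const, Finset.card_univ, Fintype.card_fin, nsmul_eq_mul]
      _ = ∑ z ∈ t, (n z : ℝ) * z l := Finset.sum_coe_sort t (fun z => (n z : ℝ) * z l)
      _ ≤ ∑ z ∈ t, (((k : ℝ) + L + 1) * lam z) * z l := by
          refine Finset.sum_le_sum (fun z hz => ?_)
          exact mul_le_mul_of_nonneg_right (hnle z hz) (hV z (by exact_mod_cast htV hz) l)
      _ = ((k : ℝ) + L + 1) * w l := by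
          rw [← hlamw, Finset.sum_apply, Finset.mul_sum]
          refine Finset.sum_congr rfl (fun z _ => ?_)
          rw [Pi.smul_apply, smul_eq_mul]
          ring
      _ ≤ b l := hb l

end Pool.Agent.EMC
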