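import Pool.Agent.EMC.All.St

/-!
(COL): few collisions.
-/

open Finset

namespace Pool.Agent.EMC

open Classical in
lemma col_pair {R : ℕ} {Y : Finset ℕ} (hY : Y.Nonempty) {i j : Fin R} (hij : i ≠ j) :
    ES R Y (fun v => if v i = v j then 1 else 0) = 1 / (Y.card : ℝ) := by
  have hc : (Y.card : ℝ) ≠ 0 := by exact_mod_cast hY.card_pos.ne'
  have h1 : ES R Y (fun v => if v i = v j then 1 else 0) =
      ES R Y (fun v => ∑ y ∈ Y, (if v i = y then (1 : ℝ) else 0) * (if v j = y then 1 else 0)) := by
    apply ES_congr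
    intro v hv
    have h2 : ∀ y ∈ Y, (if v i = y then (1 : ℝ) else 0) * (if v j = y then 1 else 0) =
        if v j = y then (if v i = v j then 1 else 0) else 0 := by
      intro y _
      by_cases h3 : v j = y
      · subst h3
        simp
      · simp [h3]
    rw [Finset.sum_congr rfl h2, Finset.sum_ite_eq, if_pos (hv j)]
  rw [h1, ES_sum]
  have h4 : ∀ y ∈ Y, ES R Y (fun v => (if v i = y then (1 : ℝ) else 0) *
      (if v j = y then 1 else 0)) = 1 / (Y.card : ℝ) ^ 2 := by
    intro y hy
    have h5 := ES_indep (R := R) hY i (fun x => if x = y then (1 : ℝ) else 0)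
      (fun v => if v j = y then 1 else 0) (fun v x => by
        simp only [Function.update_of_ne hij.symm])
    rw [h5, ES_coord hY j (fun x => if x = y then (1 : ℝ) else 0)]
    rw [Finset.sum_ite_eq', if_pos hy]
    field_simp
  rw [Finset.sum_congr rfl h4, Finset.sum_const, nsmul_eq_mul]
  field_simp

open Classical in
lemma col_count {R : ℕ} (v : Fin R → ℕ) : (R : ℝ) - (univ.image v).card ≤
    ∑ j : Fin R, ∑ i ∈ Finset.Iio j, (if v i = v j then (1 : ℝ) else 0) := by
  set A : Finset (Fin R) := univ.filter (fun j => ∀ i, i < j → v i ≠ v j) with hA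
  have h1 : A.card ≤ (univ.image v).card := by
    apply Finset.card_le_card_of_injOn v
    · intro j _
      exact Finset.mem_coe.2 (Finset.mem_image_of_mem v (mem_univ j))
    · intro a ha b hb hab
      rw [Finset.mem_coe, hA, Finset.mem_filter] at ha hb
      rcases lt_trichotomy a b with h | h | h
      · exact absurd hab (hb.2 a h)
      · exact h
      · exact absurd hab.symm (ha.2 b h)
  have h2 : (R : ℝ) - A.card = ∑ j : Fin R, (if j ∈ A then (0 : ℝ) else 1) := by
    have h3 : ∀ j : Fin R, (if j ∈ A then (0 : ℝ) else 1) = 1 - if j ∈ A then 1 else 0 := by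
      intro j
      split_ifs <;> norm_num
    rw [Finset.sum_congr rfl (fun j _ => h3 j), Finset.sum_sub_distrib, Finset.sum_boole]
    simp
  have h4 : ∑ j : Fin R, (if j ∈ A then (0 : ℝ) else 1) ≤
      ∑ j : Fin R, ∑ i ∈ Finset.Iio j, (if v i = v j then (1 : ℝ) else 0) := by
    apply Finset.sum_le_sum
    intro j _
    by_cases hj : j ∈ A
    · rw [if_pos hj]
      exact Finset.sum_nonneg (fun i _ => by split_ifs <;> norm_num)
    · rw [if_neg hj]
      rw [hA, Finset.mem_filter] at hj
      push Not at hj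
      obtain ⟨i, hi, hvi⟩ := hj (mem_univ j)
      have h5 := Finset.single_le_sum (f := fun i => if v i = v j then (1 : ℝ) else 0)
        (fun i _ => by split_ifs <;> norm_num) (Finset.mem_Iio.2 hi)
      simpa [hvi] using h5
  have h6 : (A.card : ℝ) ≤ ((univ.image v).card : ℝ) := by exact_mod_cast h1
  linarith

theorem thm_COL : St_COL := by
  classical
  intro r e Y hY
  have hc : (0 : ℝ) < Y.card := by exact_mod_cast hY.card_pos
  set R := r + e with hR
  set f : (Fin R → ℕ) → ℝ := fun v =>
    ∑ j : Fin R, ∑ i ∈ Finset.Iio j, (if v i = v j then (1 : ℝ) else 0) with hf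
  have h1 : PS R Y (fun v => (univ.image v).card < r) ≤
      PS R Y (fun v => ((e : ℝ) + 1) ≤ f v) := by
    apply PS_mono
    intro v _ hv
    have h2 := col_count v
    have h3 : ((univ.image v).card : ℝ) + 1 ≤ r := by exact_mod_cast hv
    have h4 : (R : ℝ) = r + e := by rw [hR]; push_cast; ring
    rw [h4] at h2
    show ((e : ℝ) + 1) ≤ ∑ j : Fin R, ∑ i ∈ Finset.Iio j, (if v i = v j then (1 : ℝ) else 0)
    linarith
  have h5 : PS R Y (fun v => ((e : ℝ) + 1) ≤ f v) ≤ ES R Y f / ((e : ℝ) + 1) := by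
    apply PS_markov
    · intro v _
      exact Finset.sum_nonneg (fun j _ => Finset.sum_nonneg (fun i _ => by
        split_ifs <;> norm_num))
    · positivity
  have h6 : ES R Y f = (∑ j : Fin R, ((j : ℕ) : ℝ)) / Y.card := by
    rw [hf, ES_sum, Finset.sum_div]
    apply Finset.sum_congr rfl
    intro j _
    rw [ES_sum, Finset.sum_congr rfl (fun i hi => col_pair hY (ne_of_lt (Finset.mem_Iio.1 hi))),
      Finset.sum_const, Fin.card_Iio, nsmul_eq_mul]
    ring
  have h7 : ∑ j : Fin R, ((j : ℕ) : ℝ) ≤ (R : ℝ) ^ 2 / 2 := by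
    rw [Fin.sum_univ_eq_sum_range (fun j => (j : ℝ)) R, ← Nat.cast_sum]
    have h8 := Finset.sum_range_id_mul_two R
    have h9 : (∑ i ∈ range R, i) * 2 ≤ R * R := by
      rw [h8]
      exact Nat.mul_le_mul_left R (Nat.sub_le R 1)
    have h10 : ((∑ i ∈ range R, i : ℕ) : ℝ) * 2 ≤ (R : ℝ) * R := by exact_mod_cast h9
    nlinarith
  calc PS R Y (fun v => (univ.image v).card < r)
      ≤ ES R Y f / ((e : ℝ) + 1) := h1.trans h5
    _ ≤ ((R : ℝ) ^ 2 / 2 / Y.card) / ((e : ℝ) + 1) := by
        rw [h6]
        apply div_le_div_of_nonneg_right _ (by positivity)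
        exact div_le_div_of_nonneg_right h7 hc.le
    _ = (R : ℝ) ^ 2 / (2 * Y.card * (e + 1)) := by
        field_simp

end Pool.Agent.EMC
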