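import Pool.Agent.EMC.All.St

/-! Module CrowdP: the tail estimate. -/

open Finset

namespace Pool.Agent.EMC

theorem crowdp_yc {c : ℝ} (h0 : 0 < c) (h1 : c < 1) : 0 < yc c ∧ yc c < 1 := by
  unfold yc
  refine ⟨mul_pos h0 (Real.exp_pos _), ?_⟩
  have h2 := Real.add_one_lt_exp (x := c - 1) (by linarith)
  have h3 : c < Real.exp (c - 1) := by linarith
  have h4 : Real.exp (c - 1) * Real.exp (1 - c) = 1 := by
    rw [← Real.exp_add]
    simp
  calc c * Real.exp (1 - c) < Real.exp (c - 1) * Real.exp (1 - c) :=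
        mul_lt_mul_of_pos_right h3 (Real.exp_pos _)
    _ = 1 := h4

theorem crowdp_one (R a n k t : ℕ) (c : ℝ) (han : a < n) (h0 : 0 < c) (h1 : c < 1)
    (hR : (R : ℝ) * k ≤ c * ((n : ℝ) - a)) :
    PS R (Ico a n) (fun v => t ≤ below (t * k) v) ≤ yc c ^ t := by
  classical
  have hY : (Ico a n).Nonempty := by rw [nonempty_Ico]; exact han
  have hcard : (((Ico a n).card : ℕ) : ℝ) = (n : ℝ) - a := by
    rw [Nat.card_Ico, Nat.cast_sub han.le]
  have hna : 0 < (n : ℝ) - a := by
    have : (a : ℝ) < n := by exact_mod_cast han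
    linarith
  set u : ℝ := 1 / c with hu
  have hu1 : 1 ≤ u := by
    rw [hu, le_div_iff₀ h0]
    linarith
  have hu0 : 0 < u := by linarith
  have step1 : PS R (Ico a n) (fun v => t ≤ below (t * k) v) ≤
      PS R (Ico a n) (fun v => u ^ t ≤ u ^ below (t * k) v) := by
    apply PS_mono
    intro v _ h
    exact pow_le_pow_right₀ hu1 h
  have step2 := PS_markov (R := R) (Y := Ico a n) (f := fun v => u ^ below (t * k) v)
    (fun v _ => by positivity) (a := u ^ t) (by positivity)
  have step3 : ES R (Ico a n) (fun v => u ^ below (t * k) v) =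
      ∏ _i : Fin R, ((∑ y ∈ Ico a n, (if y < t * k then u else 1)) / (Ico a n).card) := by
    rw [← ES_prod (R := R) (Y := Ico a n) (fun _ y => if y < t * k then u else 1)]
    apply ES_congr
    intro v _
    unfold below
    rw [Finset.prod_ite]
    simp
  have hm : (∑ y ∈ Ico a n, (if y < t * k then u else 1)) =
      ((n : ℝ) - a) + (u - 1) * (((Ico a n).filter (fun y => y < t * k)).card : ℝ) := by
    have e : ∀ y, (if y < t * k then u else (1 : ℝ)) = 1 + (u - 1) * (if y < t * k then 1 else 0) := by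
      intro y
      split_ifs <;> ring
    rw [Finset.sum_congr rfl (fun y _ => e y), Finset.sum_add_distrib, ← Finset.mul_sum,
      Finset.sum_boole, Finset.sum_const, nsmul_eq_mul, mul_one, hcard]
  have hmle : (((Ico a n).filter (fun y => y < t * k)).card : ℝ) ≤ t * k := by
    have : ((Ico a n).filter (fun y => y < t * k)).card ≤ (range (t * k)).card := by
      apply Finset.card_le_card
      intro y hy
      rw [Finset.mem_filter] at hy
      exact Finset.mem_range.2 hy.2
    rw [Finset.card_range] at this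
    exact_mod_cast this
  set q : ℝ := (((Ico a n).filter (fun y => y < t * k)).card : ℝ) with hq
  have hq0 : 0 ≤ q := by rw [hq]; positivity
  have step4 : ES R (Ico a n) (fun v => u ^ below (t * k) v) ≤ Real.exp ((1 - c) * t) := by
    rw [step3, hm, hcard, Finset.prod_const, Finset.card_univ, Fintype.card_fin]
    have e1 : ((n : ℝ) - a + (u - 1) * q) / ((n : ℝ) - a) = (u - 1) * q / ((n : ℝ) - a) + 1 := by
      field_simp
      ring
    rw [e1]
    have e2 : (u - 1) * q / ((n : ℝ) - a) + 1 ≤ Real.exp ((u - 1) * q / ((n : ℝ) - a)) :=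
      Real.add_one_le_exp _
    have e3 : 0 ≤ (u - 1) * q / ((n : ℝ) - a) :=
      div_nonneg (mul_nonneg (by linarith) hq0) hna.le
    calc ((u - 1) * q / ((n : ℝ) - a) + 1) ^ R
        ≤ Real.exp ((u - 1) * q / ((n : ℝ) - a)) ^ R := pow_le_pow_left₀ (by linarith) e2 R
      _ = Real.exp (R * ((u - 1) * q / ((n : ℝ) - a))) := (Real.exp_nat_mul _ R).symm
      _ ≤ Real.exp ((1 - c) * t) := by
          apply Real.exp_le_exp.2
          have e4 : (R : ℝ) * ((u - 1) * q / ((n : ℝ) - a)) = (u - 1) * (R * q) / ((n : ℝ) - a) := by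
            ring
          rw [e4, div_le_iff₀ hna]
          have e5 : (R : ℝ) * q ≤ t * (c * ((n : ℝ) - a)) := by
            calc (R : ℝ) * q ≤ R * (t * k) := mul_le_mul_of_nonneg_left hmle (by positivity)
              _ = t * (R * k) := by ring
              _ ≤ t * (c * ((n : ℝ) - a)) := mul_le_mul_of_nonneg_left hR (by positivity)
          have e6 : (u - 1) * c = 1 - c := by
            rw [hu]
            field_simp
          calc (u - 1) * (R * q) ≤ (u - 1) * (t * (c * ((n : ℝ) - a))) :=
                mul_le_mul_of_nonneg_left e5 (by linarith)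
            _ = ((u - 1) * c) * t * ((n : ℝ) - a) := by ring
            _ = (1 - c) * t * ((n : ℝ) - a) := by rw [e6]
  have step5 : Real.exp ((1 - c) * t) / u ^ t = yc c ^ t := by
    unfold yc
    rw [mul_pow, hu, one_div, inv_pow, div_inv_eq_mul, ← Real.exp_nat_mul,
      mul_comm (t : ℝ) (1 - c)]
    ring
  calc PS R (Ico a n) (fun v => t ≤ below (t * k) v)
      ≤ PS R (Ico a n) (fun v => u ^ t ≤ u ^ below (t * k) v) := step1
    _ ≤ ES R (Ico a n) (fun v => u ^ below (t * k) v) / u ^ t := step2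
    _ ≤ Real.exp ((1 - c) * t) / u ^ t := div_le_div_of_nonneg_right step4 (by positivity)
    _ = yc c ^ t := step5

theorem thm_Crowd : St_Crowd := by
  intro R a n k J c han hk h0 h1 hR
  obtain ⟨hy0, hy1⟩ := crowdp_yc h0 h1
  have step1 : PS R (Ico a n) (fun v => Crowd k J v) ≤
      PS R (Ico a n) (fun v => ∃ j ∈ Finset.Ico J (J + R), j + 1 ≤ below ((j + 1) * k) v) := by
    apply PS_mono
    rintro v _ ⟨j, hj, hb⟩
    have h2 : below ((j + 1) * k) v ≤ R := by
      unfold below
      exact (Finset.card_filter_le _ _).trans (by simp)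
    exact ⟨j, Finset.mem_Ico.2 ⟨hj, by omega⟩, hb⟩
  have step2 := PS_exists_le (R := R) (Y := Ico a n) (Finset.Ico J (J + R))
    (fun j v => j + 1 ≤ below ((j + 1) * k) v)
  have step3 : ∑ j ∈ Finset.Ico J (J + R), PS R (Ico a n) (fun v => j + 1 ≤ below ((j + 1) * k) v) ≤
      ∑ j ∈ Finset.Ico J (J + R), yc c ^ (j + 1) :=
    Finset.sum_le_sum (fun j _ => crowdp_one R a n k (j + 1) c han h0 h1 hR)
  have step4 : ∑ j ∈ Finset.Ico J (J + R), yc c ^ (j + 1) ≤ yc c ^ (J + 1) / (1 - yc c) := by
    rw [Finset.sum_Ico_eq_sum_range, add_tsub_cancel_left]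
    have e : ∀ i ∈ Finset.range R, yc c ^ (J + i + 1) = yc c ^ (J + 1) * yc c ^ i := by
      intro i _
      rw [← pow_add]
      congr 1
      ring
    rw [Finset.sum_congr rfl e, ← Finset.mul_sum, div_eq_mul_inv]
    apply mul_le_mul_of_nonneg_left _ (by positivity)
    rw [geom_sum_eq hy1.ne, ← neg_div_neg_eq, neg_sub, neg_sub, ← one_div]
    apply div_le_div_of_nonneg_right _ (by linarith)
    have : 0 ≤ yc c ^ R := by positivity
    linarith
  linarith

end Pool.Agent.EMC
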