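import Pool.Agent.EMC.Defs

/-!
Definitions for the theorem: for every `eps > 0` there is `k0` such that the Erdős matching bound
holds for all `r`, all `k ≥ k0` and all `n ≥ (1 + eps) (r + 1) k`.
-/

open Finset

namespace Pool.Agent.EMC

/-- Expectation over `R` independent uniform points of `Y`. -/
noncomputable def ES (R : ℕ) (Y : Finset ℕ) (Φ : (Fin R → ℕ) → ℝ) : ℝ :=
  (∑ v ∈ Fintype.piFinset (fun _ : Fin R => Y), Φ v) / (Y.card : ℝ) ^ R

/-- The sum of the weights of the points. -/
noncomputable def sw {R : ℕ} (w : ℕ → ℝ) (v : Fin R → ℕ) : ℝ := ∑ i, w (v i)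

open Classical in
/-- The probability that the sum of the weights is less than `1`. -/
noncomputable def qS (R : ℕ) (Y : Finset ℕ) (w : ℕ → ℝ) : ℝ :=
  ES R Y (fun v => if sw w v < 1 then 1 else 0)

open Classical in
/-- The expectation of the sum of the weights on the event that it is less than `1`. -/
noncomputable def MS (R : ℕ) (Y : Finset ℕ) (w : ℕ → ℝ) : ℝ :=
  ES R Y (fun v => if sw w v < 1 then sw w v else 0)

/-- The number of points less than `t`. -/
noncomputable def below {R : ℕ} (t : ℕ) (v : Fin R → ℕ) : ℕ :=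
  (Finset.univ.filter (fun i => v i < t)).card

/-- The points `v` are bad: for some `j ≥ J` more than `j` of them are less than `(j + 1) k`. -/
def Crowd {R : ℕ} (k J : ℕ) (v : Fin R → ℕ) : Prop :=
  ∃ j : ℕ, J ≤ j ∧ j + 1 ≤ below ((j + 1) * k) v

open Classical in
/-- The ordered `t`-tuples of pairwise disjoint `w`-subsets of `Z`. -/
noncomputable def Om (w t : ℕ) (Z : Finset ℕ) : Finset (Fin t → Finset ℕ) :=
  (Fintype.piFinset (fun _ : Fin t => Z.powersetCard w)).filter
    (fun β => ∀ i j, i ≠ j → Disjoint (β i) (β j))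

/-- Expectation over the ordered `t`-tuples of pairwise disjoint `w`-subsets of `Z`. -/
noncomputable def EO (w t : ℕ) (Z : Finset ℕ) (Φ : (Fin t → Finset ℕ) → ℝ) : ℝ :=
  (∑ β ∈ Om w t Z, Φ β) / ((Om w t Z).card : ℝ)

open Classical in
/-- The density of `A` among the `w`-subsets of `Z`. -/
noncomputable def dn (w : ℕ) (Z : Finset ℕ) (A : Finset (Finset ℕ)) : ℝ :=
  (((Z.powersetCard w).filter (fun B => B ∈ A)).card : ℝ) / (Z.card.choose w : ℝ)

open Classical in
/-- The probability that both members of a random ordered pair of disjoint `w`-subsets of `Z`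
belong to `A`. -/
noncomputable def pr (w : ℕ) (Z : Finset ℕ) (A : Finset (Finset ℕ)) : ℝ :=
  (∑ B ∈ (Z.powersetCard w).filter (fun B => B ∈ A), dn w (Z \ B) A) / (Z.card.choose w : ℝ)

open Classical in
/-- The number of blocks belonging to `A`. -/
noncomputable def cnt {t : ℕ} (A : Finset (Finset ℕ)) (β : Fin t → Finset ℕ) : ℕ :=
  (Finset.univ.filter (fun b => β b ∈ A)).card

/-- The Kneser operator: the average of `f` over the `w`-subsets of `Z \ B`. -/
noncomputable def Kn (w : ℕ) (Z : Finset ℕ) (f : Finset ℕ → ℝ) (B : Finset ℕ) : ℝ :=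
  (∑ T ∈ (Z \ B).powersetCard w, f T) / ((Z.card - w).choose w : ℝ)

end Pool.Agent.EMC
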