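import Pool.Agent.EMC.All.Defs

/-!
Basic facts about the expectation `ES` over independent uniform points.
-/

open Finset

namespace Pool.Agent.EMC

open Classical in
/-- The probability of `E` for `R` independent uniform points of `Y`. -/
noncomputable def PS (R : ℕ) (Y : Finset ℕ) (E : (Fin R → ℕ) → Prop) : ℝ :=
  ES R Y (fun v => if E v then 1 else 0)

variable {R : ℕ} {Y : Finset ℕ}

theorem ES_congr {f g : (Fin R → ℕ) → ℝ} (h : ∀ v, (∀ i, v i ∈ Y) → f v = g v) :
    ES R Y f = ES R Y g := by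
  unfold ES
  rw [Finset.sum_congr rfl (fun v hv => h v (fun i => (Fintype.mem_piFinset.1 hv) i))]

theorem ES_mono {f g : (Fin R → ℕ) → ℝ} (h : ∀ v, (∀ i, v i ∈ Y) → f v ≤ g v) :
    ES R Y f ≤ ES R Y g := by
  unfold ES
  apply div_le_div_of_nonneg_right _ (by positivity)
  exact Finset.sum_le_sum (fun v hv => h v (fun i => (Fintype.mem_piFinset.1 hv) i))

theorem ES_nonneg {f : (Fin R → ℕ) → ℝ} (h : ∀ v, (∀ i, v i ∈ Y) → 0 ≤ f v) : 0 ≤ ES R Y f := by
  unfold ES
  apply div_nonneg _ (by positivity)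
  exact Finset.sum_nonneg (fun v hv => h v (fun i => (Fintype.mem_piFinset.1 hv) i))

theorem ES_add (f g : (Fin R → ℕ) → ℝ) : ES R Y (fun v => f v + g v) = ES R Y f + ES R Y g := by
  unfold ES
  rw [Finset.sum_add_distrib, add_div]

theorem ES_sub (f g : (Fin R → ℕ) → ℝ) : ES R Y (fun v => f v - g v) = ES R Y f - ES R Y g := by
  unfold ES
  rw [Finset.sum_sub_distrib, sub_div]

theorem ES_mul_left (a : ℝ) (f : (Fin R → ℕ) → ℝ) : ES R Y (fun v => a * f v) = a * ES R Y f := by
  unfold ES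
  rw [← Finset.mul_sum, mul_div_assoc]

theorem ES_sum {ι : Type*} (s : Finset ι) (f : ι → (Fin R → ℕ) → ℝ) :
    ES R Y (fun v => ∑ i ∈ s, f i v) = ∑ i ∈ s, ES R Y (f i) := by
  unfold ES
  rw [Finset.sum_comm, Finset.sum_div]

theorem ES_const (hY : Y.Nonempty) (a : ℝ) : ES R Y (fun _ => a) = a := by
  unfold ES
  have hc : (0 : ℝ) < Y.card := by exact_mod_cast hY.card_pos
  rw [Finset.sum_const, Fintype.card_piFinset_const, nsmul_eq_mul]
  push_cast
  field_simp

/-- Products of functions of the single coordinates. -/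
theorem ES_prod (f : Fin R → ℕ → ℝ) :
    ES R Y (fun v => ∏ i, f i (v i)) = ∏ i, ((∑ y ∈ Y, f i y) / Y.card) := by
  unfold ES
  rw [← Finset.prod_univ_sum (fun _ : Fin R => Y) (fun i y => f i y), Finset.prod_div_distrib]
  simp

/-- The expectation of a function of one coordinate. -/
theorem ES_coord (hY : Y.Nonempty) (i : Fin R) (g : ℕ → ℝ) :
    ES R Y (fun v => g (v i)) = (∑ y ∈ Y, g y) / Y.card := by
  classical
  have hc : (Y.card : ℝ) ≠ 0 := by exact_mod_cast hY.card_pos.ne'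
  have h := ES_prod (R := R) (Y := Y) (fun j y => if j = i then g y else 1)
  have h1 : (fun v : Fin R → ℕ => ∏ j, (if j = i then g (v j) else 1)) = fun v => g (v i) := by
    funext v
    rw [Finset.prod_ite_eq' univ i (fun j => g (v j))]
    simp
  rw [h1] at h
  rw [h]
  have h2 : ∀ j : Fin R, (∑ y ∈ Y, (if j = i then g y else 1)) / (Y.card : ℝ) =
      if j = i then (∑ y ∈ Y, g y) / (Y.card : ℝ) else 1 := by
    intro j
    by_cases hj : j = i
    · simp [hj]
    · simp [hj, hc]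
  rw [Finset.prod_congr rfl (fun j _ => h2 j), Finset.prod_ite_eq' univ i]
  simp

/-- The expectation of the sum of the weights. -/
theorem ES_sw (hY : Y.Nonempty) (w : ℕ → ℝ) :
    ES R Y (fun v => sw w v) = R * ((∑ y ∈ Y, w y) / Y.card) := by
  unfold sw
  rw [ES_sum]
  rw [Finset.sum_congr rfl (fun i _ => ES_coord hY i w)]
  simp

/-- A function of the coordinate `i` and a function not depending on the coordinate `i` are
independent. -/
theorem ES_indep (hY : Y.Nonempty) (i : Fin R) (g : ℕ → ℝ) (h : (Fin R → ℕ) → ℝ)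
    (hh : ∀ v y, h (Function.update v i y) = h v) :
    ES R Y (fun v => g (v i) * h v) = (∑ y ∈ Y, g y) / Y.card * ES R Y h := by
  classical
  have hc : (Y.card : ℝ) ≠ 0 := by exact_mod_cast hY.card_pos.ne'
  have key : ∑ v ∈ Fintype.piFinset (fun _ : Fin R => Y), ∑ y ∈ Y, g y * h v =
      ∑ v ∈ Fintype.piFinset (fun _ : Fin R => Y), ∑ y ∈ Y, g (v i) * h v := by
    rw [← Finset.sum_product', ← Finset.sum_product']
    refine Finset.sum_nbij' (fun x => (Function.update x.1 i x.2, x.1 i))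
      (fun x => (Function.update x.1 i x.2, x.1 i)) ?_ ?_ ?_ ?_ ?_
    · rintro ⟨v, y⟩ hx
      rw [Finset.mem_product, Fintype.mem_piFinset] at hx ⊢
      refine ⟨fun j => ?_, hx.1 i⟩
      by_cases hj : j = i
      · subst hj
        simpa using hx.2
      · simpa [Function.update_of_ne hj] using hx.1 j
    · rintro ⟨v, y⟩ hx
      rw [Finset.mem_product, Fintype.mem_piFinset] at hx ⊢
      refine ⟨fun j => ?_, hx.1 i⟩
      by_cases hj : j = i
      · subst hj
        simpa using hx.2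
      · simpa [Function.update_of_ne hj] using hx.1 j
    · rintro ⟨v, y⟩ _
      simp
    · rintro ⟨v, y⟩ _
      simp
    · rintro ⟨v, y⟩ _
      simp [hh]
  have h1 : ∑ v ∈ Fintype.piFinset (fun _ : Fin R => Y), ∑ y ∈ Y, g y * h v =
      (∑ y ∈ Y, g y) * ∑ v ∈ Fintype.piFinset (fun _ : Fin R => Y), h v := by
    rw [Finset.mul_sum]
    exact Finset.sum_congr rfl (fun v _ => (Finset.sum_mul _ _ _).symm)
  have h2 : ∑ v ∈ Fintype.piFinset (fun _ : Fin R => Y), ∑ y ∈ Y, g (v i) * h v =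
      (Y.card : ℝ) * ∑ v ∈ Fintype.piFinset (fun _ : Fin R => Y), g (v i) * h v := by
    rw [Finset.mul_sum]
    exact Finset.sum_congr rfl (fun v _ => by rw [Finset.sum_const, nsmul_eq_mul])
  rw [h1, h2] at key
  unfold ES
  rw [div_mul_div_comm, mul_comm (Y.card : ℝ) (_ ^ R), ← div_div,
    eq_div_iff hc, div_mul_eq_mul_div, mul_comm _ (Y.card : ℝ), ← key]

/-! ### Probabilities -/

theorem PS_mono {E E' : (Fin R → ℕ) → Prop} (h : ∀ v, (∀ i, v i ∈ Y) → E v → E' v) :
    PS R Y E ≤ PS R Y E' := by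
  apply ES_mono
  intro v hv
  by_cases h1 : E v
  · simp [h1, h v hv h1]
  · simp only [h1, if_false]
    split_ifs <;> norm_num

theorem PS_nonneg (E : (Fin R → ℕ) → Prop) : 0 ≤ PS R Y E := by
  apply ES_nonneg
  intro v _
  split_ifs <;> norm_num

theorem PS_true (hY : Y.Nonempty) : PS R Y (fun _ => True) = 1 := by
  unfold PS
  simp [ES_const hY]

theorem PS_le_one (hY : Y.Nonempty) (E : (Fin R → ℕ) → Prop) : PS R Y E ≤ 1 := by
  rw [← PS_true (R := R) hY]
  exact PS_mono (fun _ _ _ => trivial)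

theorem PS_not (hY : Y.Nonempty) (E : (Fin R → ℕ) → Prop) :
    PS R Y (fun v => ¬ E v) = 1 - PS R Y E := by
  classical
  have h : ES R Y (fun v => (1 : ℝ)) = 1 := ES_const hY 1
  have h3 : PS R Y (fun v => ¬ E v) + PS R Y E = 1 := by
    unfold PS
    rw [← ES_add]
    refine (ES_congr (fun v _ => ?_)).trans h
    by_cases h1 : E v <;> simp [h1]
  linarith

theorem PS_or_le (E E' : (Fin R → ℕ) → Prop) :
    PS R Y (fun v => E v ∨ E' v) ≤ PS R Y E + PS R Y E' := by
  unfold PS
  rw [← ES_add]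
  apply ES_mono
  intro v _
  by_cases h1 : E v <;> by_cases h2 : E' v <;> simp [h1, h2]

/-- The union bound. -/
theorem PS_exists_le {ι : Type*} (s : Finset ι) (E : ι → (Fin R → ℕ) → Prop) :
    PS R Y (fun v => ∃ j ∈ s, E j v) ≤ ∑ j ∈ s, PS R Y (E j) := by
  classical
  unfold PS
  rw [← ES_sum]
  apply ES_mono
  intro v _
  by_cases h1 : ∃ j ∈ s, E j v
  · rw [if_pos h1]
    obtain ⟨j, hj, hE⟩ := h1
    have h2 := Finset.single_le_sum (f := fun j => if E j v then (1 : ℝ) else 0)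
      (fun i _ => by split_ifs <;> norm_num) hj
    simpa [hE] using h2
  · rw [if_neg h1]
    exact Finset.sum_nonneg (fun i _ => by split_ifs <;> norm_num)

/-- Markov's inequality. -/
theorem PS_markov {f : (Fin R → ℕ) → ℝ} (h0 : ∀ v, (∀ i, v i ∈ Y) → 0 ≤ f v) {a : ℝ} (ha : 0 < a) :
    PS R Y (fun v => a ≤ f v) ≤ ES R Y f / a := by
  unfold PS
  rw [div_eq_inv_mul, ← ES_mul_left]
  apply ES_mono
  intro v hv
  by_cases h1 : a ≤ f v
  · rw [if_pos h1, ← div_eq_inv_mul, le_div_iff₀ ha]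
    linarith
  · rw [if_neg h1]
    exact mul_nonneg (inv_nonneg.2 ha.le) (h0 v hv)

/-- The probability that some point belongs to `H`. -/
theorem PS_some_mem_le (hY : Y.Nonempty) (H : Finset ℕ) :
    PS R Y (fun v => ∃ i, v i ∈ H) ≤ R * ((Y ∩ H).card / Y.card : ℝ) := by
  classical
  have h := PS_exists_le (R := R) (Y := Y) (univ : Finset (Fin R)) (fun i v => v i ∈ H)
  have h1 : ∀ i : Fin R, PS R Y (fun v => v i ∈ H) = (Y ∩ H).card / Y.card := by
    intro i
    have h2 := ES_coord (R := R) hY i (fun y => if y ∈ H then (1 : ℝ) else 0)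
    rw [Finset.sum_ite_mem] at h2
    have h3 : (∑ _i ∈ Y ∩ H, (1 : ℝ)) = ((Y ∩ H).card : ℝ) := by simp
    rw [h3] at h2
    rw [← h2]
    unfold PS
    apply ES_congr
    intro v _
    by_cases h1 : v i ∈ H <;> simp [h1]
  rw [Finset.sum_congr rfl (fun i _ => h1 i)] at h
  simpa using h

theorem qS_eq_PS (w : ℕ → ℝ) : qS R Y w = PS R Y (fun v => sw w v < 1) := rfl

end Pool.Agent.EMC
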