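import Pool.Agent.EMC.All.St
import Pool.Agent.EMC.Tail

/-!
Section 1 of `EMC_all_r.md`: earliest deadline first.
-/

open Finset

namespace Pool.Agent.EMC

/-- the slot of the pair `(v, i)` -/
private noncomputable def edfRk {k : ℕ} (C : Fin k → Finset ℕ) (v : ℕ) (i : Fin k) : ℕ :=
  ∑ j, (C j ∩ range v).card + (univ.filter (fun j : Fin k => j < i ∧ v ∈ C j)).card

private theorem edf_succ {k : ℕ} (C : Fin k → Finset ℕ) (v : ℕ) :
    ∑ j, (C j ∩ range (v + 1)).card =
      ∑ j, (C j ∩ range v).card + (univ.filter (fun j : Fin k => v ∈ C j)).card := by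
  rw [Finset.card_filter, ← Finset.sum_add_distrib]
  refine Finset.sum_congr rfl fun j _ => ?_
  by_cases h : v ∈ C j
  · rw [if_pos h, Finset.range_add_one, Finset.inter_insert_of_mem h,
      Finset.card_insert_of_notMem]
    simp
  · rw [if_neg h, Finset.range_add_one, Finset.inter_insert_of_notMem h, add_zero]

private theorem edf_lt {k : ℕ} (C : Fin k → Finset ℕ) {v : ℕ} {i : Fin k} (h : v ∈ C i) :
    edfRk C v i + 1 ≤ ∑ j, (C j ∩ range (v + 1)).card := by
  unfold edfRk
  rw [edf_succ, add_assoc]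
  refine Nat.add_le_add_left ?_ _
  have h1 : (univ.filter (fun j : Fin k => j < i ∧ v ∈ C j)) ⊂
      (univ.filter (fun j : Fin k => v ∈ C j)) := by
    rw [Finset.ssubset_iff_of_subset]
    · exact ⟨i, by simp [h], by simp⟩
    · intro j hj
      simp only [Finset.mem_filter, Finset.mem_univ, true_and] at hj ⊢
      exact hj.2
  exact Finset.card_lt_card h1

private theorem edf_mono {k : ℕ} (C : Fin k → Finset ℕ) {a b : ℕ} (h : a ≤ b) :
    ∑ j, (C j ∩ range a).card ≤ ∑ j, (C j ∩ range b).card := by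
  refine Finset.sum_le_sum fun j _ => Finset.card_le_card ?_
  exact Finset.inter_subset_inter_left (Finset.range_mono h)

private theorem edf_lt_of_lt {k : ℕ} (C : Fin k → Finset ℕ) {v w : ℕ} {i j : Fin k}
    (h : v ∈ C i) (hvw : v < w) : edfRk C v i < edfRk C w j := by
  have h1 := edf_lt C h
  have h2 := edf_mono C (show v + 1 ≤ w from hvw)
  unfold edfRk at *
  omega

private theorem edf_lt_of_lt' {k : ℕ} (C : Fin k → Finset ℕ) {v : ℕ} {i j : Fin k}
    (h : v ∈ C i) (hij : i < j) : edfRk C v i < edfRk C v j := by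
  unfold edfRk
  refine Nat.add_lt_add_left ?_ _
  have h1 : (univ.filter (fun l : Fin k => l < i ∧ v ∈ C l)) ⊂
      (univ.filter (fun l : Fin k => l < j ∧ v ∈ C l)) := by
    rw [Finset.ssubset_iff_of_subset]
    · exact ⟨i, by simp [h, hij], by simp⟩
    · intro l hl
      simp only [Finset.mem_filter, Finset.mem_univ, true_and] at hl ⊢
      exact ⟨hl.1.trans hij, hl.2⟩
  exact Finset.card_lt_card h1

private theorem edf_inj {k : ℕ} (C : Fin k → Finset ℕ) {v w : ℕ} {i j : Fin k}
    (hv : v ∈ C i) (hw : w ∈ C j) (h : edfRk C v i = edfRk C w j) : v = w ∧ i = j := by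
  have h1 : v = w := by
    rcases lt_trichotomy v w with h2 | h2 | h2
    · have := edf_lt_of_lt C (j := j) hv h2
      omega
    · exact h2
    · have := edf_lt_of_lt C (j := i) hw h2
      omega
  subst h1
  refine ⟨rfl, ?_⟩
  rcases lt_trichotomy i j with h2 | h2 | h2
  · have := edf_lt_of_lt' C hv h2
    omega
  · exact h2
  · have := edf_lt_of_lt' C hw h2
    omega

theorem thm_Edf : St_Edf := by
  intro k F C hS hC hm
  unfold NoMatch
  rw [not_not]
  have hle : ∀ i, ∀ v ∈ C i, edfRk C v i ≤ v := by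
    intro i v hv
    have h1 := edf_lt C hv
    have h2 := hm (v + 1)
    omega
  have hinj : ∀ i, Set.InjOn (fun v => edfRk C v i) (C i : Set ℕ) := by
    intro i v hv w hw h
    exact (edf_inj C (Finset.mem_coe.mp hv) (Finset.mem_coe.mp hw) h).1
  refine ⟨fun i => (C i).image (fun v => edfRk C v i), fun i => ?_, fun i j hij => ?_⟩
  · refine mem_of_dominated hS (hC i) (Finset.card_image_of_injOn (hinj i)) fun m => ?_
    have h1 : ((C i ∩ range m).image (fun v => edfRk C v i)).card = (C i ∩ range m).card := by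
      refine Finset.card_image_of_injOn fun v hv w hw h => hinj i ?_ ?_ h
      · exact Finset.mem_coe.mpr (Finset.mem_inter.mp (Finset.mem_coe.mp hv)).1
      · exact Finset.mem_coe.mpr (Finset.mem_inter.mp (Finset.mem_coe.mp hw)).1
    rw [← h1]
    refine Finset.card_le_card ?_
    intro x hx
    obtain ⟨v, hv, rfl⟩ := Finset.mem_image.mp hx
    rw [Finset.mem_inter, Finset.mem_range] at hv
    rw [Finset.mem_inter, Finset.mem_range]
    exact ⟨Finset.mem_image_of_mem _ hv.1, lt_of_le_of_lt (hle i v hv.1) hv.2⟩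
  · rw [Finset.disjoint_left]
    intro x hx hx'
    obtain ⟨v, hv, rfl⟩ := Finset.mem_image.mp hx
    obtain ⟨w, hw, h⟩ := Finset.mem_image.mp hx'
    exact hij (edf_inj C hw hv h).2.symm

end Pool.Agent.EMC
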