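import Pool.Agent.EMC.All.Defs
import Pool.Agent.EMC.Frankl

open Finset

namespace Pool.Agent.EMC

lemma f01_split (c : Finset ℕ → ℕ) (K : Finset (Finset ℕ)) :
    K.card = (K.filter (fun A => c A = 0)).card +
      (K.filter (fun A => c A = 1)).card + (K.filter (fun A => 2 ≤ c A)).card := by
  have h1 := Finset.card_filter_add_card_filter_not (s := K) (fun A => c A = 0)
  have h2 := Finset.card_filter_add_card_filter_not (s := K.filter (fun A => ¬ c A = 0))
    (fun A => c A = 1)
  rw [Finset.filter_filter, Finset.filter_filter] at h2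
  have h3 : K.filter (fun A => ¬ c A = 0 ∧ c A = 1) = K.filter (fun A => c A = 1) := by
    apply Finset.filter_congr; intro A _; omega
  have h4 : K.filter (fun A => ¬ c A = 0 ∧ ¬ c A = 1) = K.filter (fun A => 2 ≤ c A) := by
    apply Finset.filter_congr; intro A _; omega
  rw [h3, h4] at h2
  omega

lemma f01_one {s n q : ℕ} {F : Finset (Finset ℕ)} (hF : Unif (q + 2) (Ico 0 n) F) :
    (F.filter (fun A => (A ∩ range (s + 1)).card = 1)).card ≤
      ∑ i ∈ range (s + 1), (frG s n (q + 2) F i).card := by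
  classical
  have hsub : F.filter (fun A => (A ∩ range (s + 1)).card = 1) ⊆
      (range (s + 1)).biUnion (fun i => (frG s n (q + 2) F i).image (insert i)) := by
    intro A hA
    rw [Finset.mem_filter] at hA
    obtain ⟨hA1, hA2⟩ := hA
    obtain ⟨i, hi⟩ := Finset.card_eq_one.1 hA2
    have hi2 : i ∈ A ∩ range (s + 1) := by rw [hi]; exact Finset.mem_singleton_self _
    rw [Finset.mem_inter] at hi2
    rw [Finset.mem_biUnion]
    refine ⟨i, hi2.2, ?_⟩
    rw [Finset.mem_image]
    refine ⟨A.erase i, ?_, Finset.insert_erase hi2.1⟩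
    rw [fr_mem_G, Finset.insert_erase hi2.1]
    refine ⟨⟨?_, ?_⟩, hA1⟩
    · apply fr_inter_eq ((Finset.erase_subset _ _).trans (hF A hA1).1)
      rw [Finset.erase_inter, hi]
      simp
    · rw [Finset.card_erase_of_mem hi2.1, (hF A hA1).2]
  refine (Finset.card_le_card hsub).trans (Finset.card_biUnion_le.trans ?_)
  exact Finset.sum_le_sum fun i _ => Finset.card_image_le

lemma f01_P0 {s n q m : ℕ} (hm : n = s + 1 + m) :
    m.choose (q + 2) ≤ (((Ico 0 n).powersetCard (q + 2)).filter
      (fun A => (A ∩ range (s + 1)).card = 0)).card := by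
  have hZc : (Ico (s + 1) n).card = m := by rw [Nat.card_Ico]; omega
  rw [← hZc, ← Finset.card_powersetCard]
  apply Finset.card_le_card
  intro A hA
  rw [Finset.mem_powersetCard] at hA
  rw [Finset.mem_filter, Finset.mem_powersetCard]
  refine ⟨⟨?_, hA.2⟩, ?_⟩
  · intro x hx
    have := Finset.mem_Ico.1 (hA.1 hx)
    rw [Finset.mem_Ico]; omega
  · simp only [Finset.card_eq_zero]
    rw [Finset.eq_empty_iff_forall_notMem]
    intro x hx
    rw [Finset.mem_inter, Finset.mem_range] at hx
    have := Finset.mem_Ico.1 (hA.1 hx.1)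
    omega

lemma f01_P1 {s n q m : ℕ} (hm : n = s + 1 + m) :
    (s + 1) * m.choose (q + 1) ≤ (((Ico 0 n).powersetCard (q + 2)).filter
      (fun A => (A ∩ range (s + 1)).card = 1)).card := by
  have hZc : (Ico (s + 1) n).card = m := by rw [Nat.card_Ico]; omega
  have h1 : (s + 1) * m.choose (q + 1) =
      (range (s + 1) ×ˢ (Ico (s + 1) n).powersetCard (q + 1)).card := by
    rw [Finset.card_product, Finset.card_range, Finset.card_powersetCard, hZc]
  rw [h1]
  have hinter : ∀ (i : ℕ) (B : Finset ℕ), i ≤ s → B ⊆ Ico (s + 1) n →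
      insert i B ∩ range (s + 1) = {i} := by
    intro i B hi hB
    ext x
    simp only [Finset.mem_inter, Finset.mem_insert, Finset.mem_range, Finset.mem_singleton]
    constructor
    · rintro ⟨h | h, h2⟩
      · exact h
      · have := Finset.mem_Ico.1 (hB h)
        omega
    · rintro rfl
      exact ⟨Or.inl rfl, by omega⟩
  apply Finset.card_le_card_of_injOn (fun x => insert x.1 x.2)
  · rintro ⟨i, B⟩ hx
    simp only [Finset.coe_product, Set.mem_prod, Finset.mem_coe, Finset.mem_range,
      Finset.mem_powersetCard] at hx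
    obtain ⟨hi, hB, hBc⟩ := hx
    rw [Finset.mem_coe, Finset.mem_filter, Finset.mem_powersetCard]
    refine ⟨⟨?_, ?_⟩, ?_⟩
    · intro x hx
      rw [Finset.mem_insert] at hx
      rw [Finset.mem_Ico]
      rcases hx with h | h
      · omega
      · have := Finset.mem_Ico.1 (hB h); omega
    · rw [Finset.card_insert_of_notMem (fr_notMem hB (by omega)), hBc]
    · simp only
      rw [hinter i B (by omega) hB, Finset.card_singleton]
  · rintro ⟨i, B⟩ hx ⟨j, B'⟩ hy hxy
    simp only [Finset.coe_product, Set.mem_prod, Finset.mem_coe, Finset.mem_range,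
      Finset.mem_powersetCard] at hx hy
    obtain ⟨hi, hB, hBc⟩ := hx
    obtain ⟨hj, hB', hBc'⟩ := hy
    have hxy' : insert i B = insert j B' := hxy
    have h1 := hinter i B (by omega) hB
    have h2 := hinter j B' (by omega) hB'
    rw [hxy', h2, Finset.singleton_inj] at h1
    subst h1
    have h3 : B = B' := by
      rw [← Finset.erase_insert (fr_notMem hB (show j ≤ s by omega)), hxy',
        Finset.erase_insert (fr_notMem hB' (show j ≤ s by omega))]
    rw [h3]

open Classical in
/-- The counting part of Frankl's argument. -/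
theorem frankl_count {s n r : ℕ} (hr : 2 ≤ r) (hn : s + r ≤ n) {F : Finset (Finset ℕ)}
    (hF : Unif r (Ico 0 n) F) :
    F.card + (n - s).choose r + s * (n - (s + 1)).choose (r - 1) ≤
      n.choose r + (F.filter (fun A => A ⊆ Ico (s + 1) n)).card +
        ∑ i ∈ range (s + 1), (frG s n r F i).card := by
  obtain ⟨q, rfl⟩ : ∃ q, r = q + 2 := ⟨r - 2, by omega⟩
  obtain ⟨m, hm⟩ : ∃ m, n = s + 1 + m := ⟨n - (s + 1), by omega⟩
  have h0 : (F.filter (fun A => (A ∩ range (s + 1)).card = 0)).card ≤
      (F.filter (fun A => A ⊆ Ico (s + 1) n)).card := by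
    apply Finset.card_le_card
    intro A hA
    rw [Finset.mem_filter] at hA ⊢
    exact ⟨hA.1, fr_inter_eq (hF A hA.1).1 (Finset.card_eq_zero.1 hA.2)⟩
  have h1 := f01_one (s := s) hF
  have h2 := f01_P0 (q := q) hm
  have h3 := f01_P1 (q := q) hm
  have hsF := f01_split (fun A => (A ∩ range (s + 1)).card) F
  have hsP := f01_split (fun A => (A ∩ range (s + 1)).card) ((Ico 0 n).powersetCard (q + 2))
  have hF2 : (F.filter (fun A => 2 ≤ (A ∩ range (s + 1)).card)).card ≤
      (((Ico 0 n).powersetCard (q + 2)).filter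
        (fun A => 2 ≤ (A ∩ range (s + 1)).card)).card := by
    apply Finset.card_le_card
    apply Finset.filter_subset_filter
    intro A hA
    rw [Finset.mem_powersetCard]
    exact hF A hA
  have hPc : ((Ico 0 n).powersetCard (q + 2)).card = n.choose (q + 2) := by
    rw [Finset.card_powersetCard, Nat.card_Ico, Nat.sub_zero]
  have hns : (n - s).choose (q + 2) = m.choose (q + 1) + m.choose (q + 2) := by
    rw [show n - s = m + 1 by omega, Nat.choose_succ_succ]
  have hexp : (s + 1) * m.choose (q + 1) = s * m.choose (q + 1) + m.choose (q + 1) := by ring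
  have e1 : n - (s + 1) = m := by omega
  have e2 : q + 2 - 1 = q + 1 := rfl
  rw [hns, ← hPc, e1, e2]
  omega

open Classical in
/-- The members without points in `{0, …, s}`. -/
theorem frankl_shadow {s n r : ℕ} (hr : 2 ≤ r) {F : Finset (Finset ℕ)}
    (hF : Unif r (Ico 0 n) F) (hS : ShiftedFrom 0 F) (hM : NoMatch (s + 1) F) :
    (F.filter (fun A => A ⊆ Ico (s + 1) n)).card ≤ s * (frG s n r F s).card := by
  set H := F.filter (fun A => A ⊆ Ico (s + 1) n) with hH
  have hHmem : ∀ A ∈ H, A ∈ F ∧ A ⊆ Ico (s + 1) n := by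
    intro A hA
    rw [hH, Finset.mem_filter] at hA
    exact hA
  have hHU : Unif r (Ico (s + 1) n) H := fun A hA => ⟨(hHmem A hA).2, (hF A (hHmem A hA).1).2⟩
  have hHS : ShiftedFrom (s + 1) H := by
    intro A hA i j hi hij hj hiA
    rw [hH, Finset.mem_filter]
    refine ⟨hS A (hHmem A hA).1 i j (Nat.zero_le _) hij hj hiA, ?_⟩
    intro x hx
    rw [Finset.mem_insert] at hx
    rcases hx with h | h
    · have := Finset.mem_Ico.1 ((hHmem A hA).2 hj)
      rw [Finset.mem_Ico]
      omega
    · exact (hHmem A hA).2 (Finset.mem_of_mem_erase h)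
  have hHM : NoMatch (s + 1) H := by
    rintro ⟨A, hA, hd⟩
    exact hM ⟨A, fun i => (hHmem _ (hA i)).1, hd⟩
  have hsh : Finset.shadow H ⊆ frG s n r F s := by
    intro B hB
    rw [Finset.mem_shadow_iff] at hB
    obtain ⟨A, hA, x, hx, rfl⟩ := hB
    obtain ⟨h1, h2⟩ := hHmem A hA
    rw [fr_mem_G]
    refine ⟨⟨(Finset.erase_subset _ _).trans h2, ?_⟩, ?_⟩
    · rw [Finset.card_erase_of_mem hx, (hF A h1).2]
    · exact hS A h1 s x (Nat.zero_le _) (by have := Finset.mem_Ico.1 (h2 hx); omega) hx
        (fr_notMem h2 le_rfl)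
  exact (shadow_lemma (by omega) hHU hHS hHM).trans
    (Nat.mul_le_mul_left _ (Finset.card_le_card hsh))

/-- The links are nested. -/
theorem frankl_nest {s n r : ℕ} {F : Finset (Finset ℕ)} (hS : ShiftedFrom 0 F) :
    ∀ i < s, frG s n r F (i + 1) ⊆ frG s n r F i := by
  intro i hi B hB
  rw [fr_mem_G] at hB ⊢
  refine ⟨hB.1, ?_⟩
  have h1 : i + 1 ∉ B := fr_notMem hB.1.1 (by omega)
  have h2 : i ∉ B := fr_notMem hB.1.1 (by omega)
  have := hS _ hB.2 i (i + 1) (Nat.zero_le _) (by omega) (Finset.mem_insert_self _ _) (by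
    rw [Finset.mem_insert, not_or]
    exact ⟨by omega, h2⟩)
  rwa [Finset.erase_insert h1] at this

/-- The links have no disjoint members. -/
theorem frankl_cross {s n r : ℕ} {F : Finset (Finset ℕ)} (hM : NoMatch (s + 1) F) :
    ¬ ∃ B : Fin (s + 1) → Finset ℕ, (∀ i : Fin (s + 1), B i ∈ frG s n r F (i : ℕ)) ∧
      ∀ i j : Fin (s + 1), i ≠ j → Disjoint (B i) (B j) := by
  rintro ⟨B, hB, hd⟩
  apply hM
  refine ⟨fun i => insert (i : ℕ) (B i), ?_, ?_⟩
  · intro i
    have := hB i
    rw [fr_mem_G] at this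
    exact this.2
  · intro i j hij
    have hi := hB i
    have hj := hB j
    rw [fr_mem_G] at hi hj
    have hij' : (i : ℕ) ≠ (j : ℕ) := fun h => hij (Fin.ext h)
    have h1 : (i : ℕ) ∉ B j := fr_notMem hj.1.1 (by have := i.2; omega)
    have h2 : (j : ℕ) ∉ B i := fr_notMem hi.1.1 (by have := j.2; omega)
    rw [Finset.disjoint_insert_left, Finset.disjoint_insert_right, Finset.mem_insert, not_or]
    exact ⟨⟨hij', h1⟩, h2, hd i j hij⟩

/-- The density of a link. -/
theorem dn_frG {s n r : ℕ} (F : Finset (Finset ℕ)) (i : ℕ) :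
    dn (r - 1) (Ico (s + 1) n) (frG s n r F i) =
      ((frG s n r F i).card : ℝ) / ((n - (s + 1)).choose (r - 1) : ℝ) := by
  unfold dn
  have h1 : ((Ico (s + 1) n).powersetCard (r - 1)).filter (fun B => B ∈ frG s n r F i) =
      frG s n r F i := by
    ext B
    rw [Finset.mem_filter, Finset.mem_powersetCard]
    constructor
    · exact fun h => h.2
    · intro h
      exact ⟨(fr_mem_G.1 h).1, h⟩
  rw [h1, Nat.card_Ico]

end Pool.Agent.EMC
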