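import Pool.Agent.EMC.All.St

/-!
A tuple which is not crowded and contains a member of `F` avoiding the first `D` points has
weight at least `1`.
-/

open Finset

namespace Pool.Agent.EMC

theorem hit_card {R : ℕ} (k J m : ℕ) (C : Finset ℕ) (v : Fin R → ℕ) (_hk : 1 ≤ k)
    (hm : (J + 1) * k ≤ m) (hC : C ⊆ univ.image v) (hcr : ¬ Crowd k J v) (t : ℕ) (ht : m ≤ t) :
    k * (C ∩ range t).card ≤ t := by
  classical
  have h1 : (C ∩ range t).card ≤ below t v := by
    unfold below
    have hsub : C ∩ range t ⊆ (univ.filter (fun i => v i < t)).image v := by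
      intro x hx
      rw [mem_inter, mem_range] at hx
      obtain ⟨i, -, rfl⟩ := mem_image.1 (hC hx.1)
      exact mem_image_of_mem _ (mem_filter.2 ⟨mem_univ _, hx.2⟩)
    exact le_trans (card_le_card hsub) card_image_le
  refine le_trans (Nat.mul_le_mul_left k h1) ?_
  by_contra hlt
  rw [not_le] at hlt
  apply hcr
  have hpos : 0 < below t v := by
    rcases Nat.eq_zero_or_pos (below t v) with h | h
    · rw [h, Nat.mul_zero] at hlt; omega
    · exact h
  obtain ⟨j, hj⟩ : ∃ j, below t v = j + 1 := ⟨below t v - 1, by omega⟩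
  refine ⟨j, ?_, ?_⟩
  · have h2 : (J + 1) * k < k * (j + 1) := by rw [← hj]; omega
    have h3 : (J + 1) * k < (j + 1) * k := by rw [Nat.mul_comm (j + 1) k]; exact h2
    have h4 := Nat.lt_of_mul_lt_mul_right h3
    omega
  · rw [← hj]
    unfold below
    apply card_le_card
    intro i hi
    rw [mem_filter] at hi ⊢
    refine ⟨mem_univ _, ?_⟩
    have h5 : t < (j + 1) * k := by rw [Nat.mul_comm, ← hj]; exact hlt
    show v i < below t v * k
    rw [hj]
    omega

/-- The statement of section 4. -/
theorem thm_Hit : St_Hit := by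
  intro k D J R m F w v hk hm hw hF hUp hD hcr
  classical
  obtain ⟨C, hC, hCv⟩ := hUp
  have hreg : Reg k D m C := by
    refine ⟨fun x hx => ?_, fun t ht => hit_card k J m C v hk hm hCv hcr t ht⟩
    obtain ⟨i, -, rfl⟩ := mem_image.1 (hCv hx)
    exact hD i
  refine le_trans (hF C hC hreg) ?_
  refine le_trans (sum_le_sum_of_subset_of_nonneg hCv (fun x _ _ => hw x)) ?_
  unfold sw
  exact sum_image_le_of_nonneg (fun x _ => hw x)

end Pool.Agent.EMC
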