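import Pool.Agent.EMC.All.St
import Pool.Agent.EMC.Perm

/-! Module Img: members of a uniform family inside the image of a random tuple. -/

open Finset

namespace Pool.Agent.EMC

open Classical in
theorem img_reindex (R : ℕ) (Y : Finset ℕ) (f : ℕ → ℕ) (hf : Set.BijOn f Y Y)
    (g : (Fin R → ℕ) → ℝ) :
    ∑ v ∈ Fintype.piFinset (fun _ : Fin R => Y), g (f ∘ v) =
      ∑ v ∈ Fintype.piFinset (fun _ : Fin R => Y), g v := by
  refine Finset.sum_bij (fun v _ => f ∘ v) ?_ ?_ ?_ ?_
  · intro v hv
    rw [Fintype.mem_piFinset] at hv ⊢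
    intro i
    exact hf.mapsTo (hv i)
  · intro v hv v' hv' h
    rw [Fintype.mem_piFinset] at hv hv'
    funext i
    exact hf.injOn (hv i) (hv' i) (congrFun h i)
  · intro v hv
    rw [Fintype.mem_piFinset] at hv
    have hex : ∀ i, ∃ y ∈ Y, f y = v i := fun i => by
      obtain ⟨y, hy, hyv⟩ := hf.surjOn (hv i)
      exact ⟨y, hy, hyv⟩
    choose u hu huv using hex
    exact ⟨u, Fintype.mem_piFinset.2 hu, funext huv⟩
  · intro v _
    rfl

open Classical in
theorem thm_IMG : St_IMG := by
  intro r R Y F hF hr
  let S : Finset (Fin R → ℕ) :=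
    (Fintype.piFinset (fun _ : Fin R => Y)).filter (fun v => r ≤ (univ.image v).card)
  have hex : ∀ v : {v // v ∈ S}, ∃ B : Finset ℕ, B ⊆ univ.image v.1 ∧ B.card = r := by
    intro v
    exact Finset.exists_subset_card_eq (Finset.mem_filter.1 v.2).2
  choose B hB hBr using hex
  have hBY : ∀ v : {v // v ∈ S}, B v ⊆ Y := by
    intro v x hx
    obtain ⟨i, _, rfl⟩ := Finset.mem_image.1 (hB v hx)
    exact (Fintype.mem_piFinset.1 (Finset.mem_filter.1 v.2).1) i
  set c : ℝ := 1 / (Y.card : ℝ) ^ R with hc
  have hc0 : 0 ≤ c := by positivity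
  have hkey := avg_perm (Y := Y) (ι := {v // v ∈ S}) B hBY (fun _ => c) (fun _ => F)
    (fun v => by rw [hBr]; exact hF) (PS R Y (fun v => Up F (univ.image v))) (by
      intro f hf
      have h1 : PS R Y (fun v => Up F (univ.image v)) =
          ∑ v ∈ Fintype.piFinset (fun _ : Fin R => Y),
            c * (if Up F (univ.image (f ∘ v)) then (1 : ℝ) else 0) := by
        unfold PS ES
        rw [div_eq_inv_mul, ← img_reindex R Y f hf, Finset.mul_sum]
        refine Finset.sum_congr rfl (fun v _ => ?_)
        rw [hc, one_div]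
      rw [h1]
      have h2 : ∑ v : {v // v ∈ S}, c * (if (B v).image f ∈ F then (1 : ℝ) else 0) ≤
          ∑ v : {v // v ∈ S}, c * (if Up F (univ.image (f ∘ v.1)) then (1 : ℝ) else 0) := by
        apply Finset.sum_le_sum
        intro v _
        apply mul_le_mul_of_nonneg_left _ hc0
        by_cases h : (B v).image f ∈ F
        · have hU : Up F (univ.image (f ∘ v.1)) := by
            refine ⟨(B v).image f, h, ?_⟩
            rw [← Finset.image_image]
            exact Finset.image_subset_image (hB v)
          rw [if_pos h, if_pos hU]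
        · rw [if_neg h]
          split_ifs <;> norm_num
      refine h2.trans ?_
      rw [Finset.sum_coe_sort S
        (fun v => c * (if Up F (univ.image (f ∘ v)) then (1 : ℝ) else 0))]
      apply Finset.sum_le_sum_of_subset_of_nonneg (Finset.filter_subset _ _)
      intro v _ _
      apply mul_nonneg hc0
      split_ifs <;> norm_num)
  refine le_trans (le_of_eq ?_) hkey
  have h3 : ∀ v : {v // v ∈ S}, c * ((F.card : ℝ) / (Y.card.choose (B v).card : ℝ)) =
      c * ((F.card : ℝ) / (Y.card.choose r : ℝ)) := by
    intro v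
    rw [hBr]
  rw [Finset.sum_congr rfl (fun v _ => h3 v), Finset.sum_const, Finset.card_univ,
    Fintype.card_coe, nsmul_eq_mul]
  have h4 : PS R Y (fun v => r ≤ (univ.image v).card) = c * S.card := by
    unfold PS ES
    rw [div_eq_inv_mul, hc, one_div]
    have h5 : ((S.card : ℕ) : ℝ) = ∑ v ∈ Fintype.piFinset (fun _ : Fin R => Y),
        (if r ≤ (univ.image v).card then (1 : ℝ) else 0) := by
      simp only [S]
      rw [Finset.card_filter]
      push_cast
      rfl
    rw [h5]
    refine congrArg _ (Finset.sum_congr rfl (fun v _ => ?_))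
    by_cases h : r ≤ (univ.image v).card
    · simp only [h, if_true]
    · simp only [h, if_false]
  rw [h4]
  ring

end Pool.Agent.EMC
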