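import Mathlib

open Finset

namespace Pool.Agent.EMC

/-- The real arithmetic of local exactness. `e = eps / 2`, `th = e ^ 2 / 16`,
`z` = density of the last link, `a` = missing density of the link `s - g0`, `k = s + 1`. -/
theorem local_arith {e k z a th u g0 h : ℝ} (he : 0 < e) (he1 : e ≤ 1 / 2) (hth : th = e ^ 2 / 16)
    (hk : 1000 / e ^ 3 ≤ k) (hz : 0 < z) (ha0 : 0 ≤ a) (ha : g0 * a ≤ k * z)
    (hg0 : e * k / 8 ≤ g0) (hu : (1 + e) * k ≤ u + 1) (hu2 : u ≤ (1 + e) * k)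
    (hh : e * k / 4 ≤ h) :
    (k + h) * (4 * a / (u ^ 2 * th ^ 2) + z * (u * th / (u + 1 - (k - 1)))) ≤ h * z := by
  have he3 : 0 < e ^ 3 := by positivity
  have hke : 1000 ≤ k * e ^ 3 := by rwa [div_le_iff₀ he3] at hk
  have hk0 : 0 < k := by
    by_contra hc
    push Not at hc
    have : k * e ^ 3 ≤ 0 := mul_nonpos_of_nonpos_of_nonneg hc he3.le
    linarith
  have hek : 1 ≤ e * k := by
    have h1 : k * e ^ 3 ≤ e * k := by
      have h2 : e ^ 2 ≤ 1 := by nlinarith
      calc k * e ^ 3 = (e * k) * e ^ 2 := by ring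
        _ ≤ (e * k) * 1 := mul_le_mul_of_nonneg_left h2 (by positivity)
        _ = e * k := by ring
    linarith
  have hku : k ≤ u := by nlinarith
  have hu0 : 0 < u := lt_of_lt_of_le hk0 hku
  -- the bound for `a`
  have ha1 : e * a ≤ 8 * z := by
    have h1 : e * k / 8 * a ≤ k * z := le_trans (mul_le_mul_of_nonneg_right hg0 ha0) ha
    have h2 : k * (e * a) ≤ k * (8 * z) := by nlinarith
    exact le_of_mul_le_mul_left h2 hk0
  -- first term
  have hth0 : 0 < th := by rw [hth]; positivity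
  have hT1 : 4 * a / (u ^ 2 * th ^ 2) ≤ e * z / 100 := by
    rw [div_le_iff₀ (by positivity)]
    have h1 : k ^ 2 ≤ u ^ 2 := by nlinarith
    have h2 : (1000 : ℝ) ^ 2 ≤ (k * e ^ 3) ^ 2 := by nlinarith
    have h3 : e * z / 100 * (k ^ 2 * th ^ 2) ≤ e * z / 100 * (u ^ 2 * th ^ 2) := by
      have h4 : k ^ 2 * th ^ 2 ≤ u ^ 2 * th ^ 2 := mul_le_mul_of_nonneg_right h1 (by positivity)
      exact mul_le_mul_of_nonneg_left h4 (by positivity)
    refine le_trans ?_ h3
    have h5 : e * (4 * a) ≤ e * (e * z / 100 * (k ^ 2 * th ^ 2)) := by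
      have h6 : e * (e * z / 100 * (k ^ 2 * th ^ 2)) = z * (k * e ^ 3) ^ 2 / 25600 := by
        rw [hth]; ring
      rw [h6]
      have h7 : z * 1000 ^ 2 ≤ z * (k * e ^ 3) ^ 2 := mul_le_mul_of_nonneg_left h2 hz.le
      nlinarith
    exact le_of_mul_le_mul_left h5 he
  -- second term
  have hden : e * k ≤ u + 1 - (k - 1) := by nlinarith
  have hden0 : 0 < u + 1 - (k - 1) := lt_of_lt_of_le (by positivity) hden
  have hT2 : u * th / (u + 1 - (k - 1)) ≤ e / 10 := by
    rw [div_le_iff₀ hden0]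
    have h1 : u * th ≤ (1 + e) * k * th := mul_le_mul_of_nonneg_right hu2 hth0.le
    have h2 : (1 + e) * k * th ≤ e / 10 * (e * k) := by
      rw [hth]
      have h3 : (1 + e) * k * (e ^ 2 / 16) = (1 + e) / 16 * (e ^ 2 * k) := by ring
      have h4 : e / 10 * (e * k) = 1 / 10 * (e ^ 2 * k) := by ring
      rw [h3, h4]
      exact mul_le_mul_of_nonneg_right (by linarith) (by positivity)
    have h5 : e / 10 * (e * k) ≤ e / 10 * (u + 1 - (k - 1)) :=
      mul_le_mul_of_nonneg_left hden (by positivity)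
    linarith
  have hX : 4 * a / (u ^ 2 * th ^ 2) + z * (u * th / (u + 1 - (k - 1))) ≤ 11 / 100 * (e * z) := by
    have h1 : z * (u * th / (u + 1 - (k - 1))) ≤ z * (e / 10) :=
      mul_le_mul_of_nonneg_left hT2 hz.le
    linarith
  have hh0 : 0 ≤ h := le_trans (by positivity) hh
  calc (k + h) * (4 * a / (u ^ 2 * th ^ 2) + z * (u * th / (u + 1 - (k - 1))))
      ≤ (k + h) * (11 / 100 * (e * z)) := mul_le_mul_of_nonneg_left hX (by linarith)
    _ = (11 / 100 * (e * k) + 11 / 100 * e * h) * z := by ring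
    _ ≤ h * z := by
      refine mul_le_mul_of_nonneg_right ?_ hz.le
      have h1 : e * h ≤ 1 / 2 * h := mul_le_mul_of_nonneg_right he1 hh0
      linarith

/-- The bound `a ≤ th / 2`. -/
theorem local_arith2 {e k a th g0 v : ℝ} (he : 0 < e) (he1 : e ≤ 1 / 2) (hth : th = e ^ 2 / 16)
    (hk : 1000 / e ^ 3 ≤ k) (ha0 : 0 ≤ a) (ha : g0 * a ≤ 1 + 2 * k * v) (hg0 : e * k / 8 ≤ g0)
    (hv0 : 0 ≤ v) (hv : v ≤ e ^ 3 / 2048) : 2 * a ≤ th := by
  have _ := hv0
  have _ := he1
  have he3 : 0 < e ^ 3 := by positivity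
  have hke : 1000 ≤ k * e ^ 3 := by rwa [div_le_iff₀ he3] at hk
  have hk0 : 0 < k := by
    by_contra hc
    push Not at hc
    have : k * e ^ 3 ≤ 0 := mul_nonpos_of_nonpos_of_nonneg hc he3.le
    linarith
  have h1 : e * k / 8 * a ≤ 1 + 2 * k * v := le_trans (mul_le_mul_of_nonneg_right hg0 ha0) ha
  have h2 : 2 * k * v ≤ 2 * k * (e ^ 3 / 2048) := mul_le_mul_of_nonneg_left hv (by positivity)
  have h3 : e * k * a ≤ 8 / 1000 * (k * e ^ 3) + 16 / 2048 * (k * e ^ 3) := by linarith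
  have h4 : e * k * (2 * a) ≤ e * k * th := by
    rw [hth]
    have h5 : e * k * (e ^ 2 / 16) = k * e ^ 3 / 16 := by ring
    rw [h5]
    linarith
  exact le_of_mul_le_mul_left h4 (by positivity)

end Pool.Agent.EMC
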