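import Pool.Agent.EMC.All.C04
import Pool.Agent.EMC.All.F01
import Pool.Agent.EMC.All.L01

open Finset

namespace Pool.Agent.EMC

lemma l02_num {e K R N : ℝ} (he : 0 < e) (he1 : e ≤ 1 / 2) (hK : 1000 / e ^ 3 ≤ K)
    (hR : 2 ≤ R) (hN : (1 + 2 * e) * (R + 1) * K ≤ N) :
    8 ≤ e * K ∧ ((1 + e) * K + 1) * (R - 1) ≤ N - K ∧ 8000 ≤ K := by
  have h3 : 0 < e ^ 3 := by positivity
  have h1 : 1000 ≤ K * e ^ 3 := by
    rw [div_le_iff₀ h3] at hK
    exact hK
  have hKpos : 0 < K := by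
    by_contra hc
    push Not at hc
    nlinarith
  have h8 : 8000 ≤ K := by
    have : e ^ 3 ≤ 1 / 8 := by
      have := pow_le_pow_left₀ he.le he1 3
      norm_num at this ⊢
      exact this
    nlinarith
  have h2 : 8 ≤ e * K := by
    have : e ^ 2 ≤ 1 / 4 := by
      have := pow_le_pow_left₀ he.le he1 2
      norm_num at this ⊢
      exact this
    have h5 : K * e ^ 3 = (e * K) * e ^ 2 := by ring
    rw [h5] at h1
    have h6 : 0 < e * K := by positivity
    nlinarith
  refine ⟨h2, ?_, h8⟩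
  nlinarith [mul_nonneg (sub_nonneg.2 hR) (sub_nonneg.2 h2), mul_pos he hKpos]

open Classical in
lemma l02_dn_mono {w : ℕ} {Z : Finset ℕ} {A B : Finset (Finset ℕ)} (h : A ⊆ B) :
    dn w Z A ≤ dn w Z B := by
  unfold dn
  apply div_le_div_of_nonneg_right _ (Nat.cast_nonneg _)
  exact_mod_cast Finset.card_le_card (fun C hC => by
    rw [Finset.mem_filter] at hC ⊢
    exact ⟨hC.1, h hC.2⟩)

lemma l02_anti {s : ℕ} (G : ℕ → Finset (Finset ℕ)) (hnest : ∀ i < s, G (i + 1) ⊆ G i) :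
    ∀ d a, a + d ≤ s → G (a + d) ⊆ G a := by
  intro d
  induction d with
  | zero => intro a _; exact Finset.Subset.refl _
  | succ d ih =>
    intro a ha
    exact (hnest (a + d) (by omega)).trans (ih a (by omega))

open Classical in
/-- LOCAL EXACTNESS. -/
theorem local_exact_all {eps : ℝ} (h0 : 0 < eps) (h1 : eps ≤ 1) {k r n : ℕ} (hr : 2 ≤ r)
    (hk : 1000 / (eps / 2) ^ 3 ≤ (k : ℝ)) (hn : (1 + eps) * (r + 1) * k ≤ n)
    (hn2 : n ≤ 2 * k * r) {F : Finset (Finset ℕ)} (hF : Unif r (Ico 0 n) F)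
    (hS : ShiftedFrom 0 F) (hM : NoMatch k F)
    (hv : ((F.filter (fun A => A ⊆ Ico k n)).card : ℝ) ≤
      (eps / 2) ^ 3 / 2048 * ((n - k).choose r : ℝ)) :
    F.card + (n - (k - 1)).choose r ≤ n.choose r := by
  set e : ℝ := eps / 2 with he
  have he0 : 0 < e := by rw [he]; linarith
  have he1 : e ≤ 1 / 2 := by rw [he]; linarith
  have heps : eps = 2 * e := by rw [he]; ring
  rw [heps] at hn
  have hRr : (2 : ℝ) ≤ (r : ℝ) := by exact_mod_cast hr
  obtain ⟨h8, hnum, hK8⟩ := l02_num he0 he1 hk hRr hn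
  have hk1 : 1 ≤ k := by
    have : (1 : ℝ) ≤ (k : ℝ) := by linarith
    exact_mod_cast this
  obtain ⟨s, rfl⟩ : ∃ s, k = s + 1 := ⟨k - 1, by omega⟩
  rw [show s + 1 - 1 = s by omega]
  have hKs : ((s + 1 : ℕ) : ℝ) = (s : ℝ) + 1 := by push_cast; ring
  set K : ℝ := ((s + 1 : ℕ) : ℝ) with hK
  have hKpos : 0 < K := by linarith
  -- the parameters
  set g0 := ⌊e * K / 4⌋₊ with hg0
  set h := ⌈e * K / 4⌉₊ with hh
  obtain ⟨u, hu⟩ : ∃ u, u + 1 = ⌈(1 + e) * K⌉₊ := by
    have : 0 < ⌈(1 + e) * K⌉₊ := Nat.ceil_pos.2 (by positivity)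
    exact ⟨⌈(1 + e) * K⌉₊ - 1, by omega⟩
  have hg0a : (g0 : ℝ) ≤ e * K / 4 := Nat.floor_le (by positivity)
  have hg0b : e * K / 8 ≤ (g0 : ℝ) := by
    have := Nat.lt_floor_add_one (e * K / 4)
    rw [← hg0] at this
    linarith
  have hha : e * K / 4 ≤ (h : ℝ) := Nat.le_ceil _
  have hhb : (h : ℝ) < e * K / 4 + 1 := Nat.ceil_lt_add_one (by positivity)
  have hua : (1 + e) * K ≤ (u : ℝ) + 1 := by
    have := Nat.le_ceil ((1 + e) * K)
    rw [← hu] at this
    push_cast at this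
    exact this
  have hub : (u : ℝ) ≤ (1 + e) * K := by
    have := Nat.ceil_lt_add_one (show 0 ≤ (1 + e) * K by positivity)
    rw [← hu] at this
    push_cast at this
    linarith
  have hg0s : g0 ≤ s := by
    have : (g0 : ℝ) ≤ (s : ℝ) := by nlinarith
    exact_mod_cast this
  have hts : g0 + s + 1 + h ≤ u + 1 := by
    have : (g0 : ℝ) + s + 1 + h ≤ (u : ℝ) + 1 := by nlinarith
    exact_mod_cast this
  have hu1 : 1 ≤ u := by
    have : (1 : ℝ) ≤ (u : ℝ) := by nlinarith
    exact_mod_cast this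
  have hw : 1 ≤ r - 1 := by omega
  have hwR : ((r - 1 : ℕ) : ℝ) = (r : ℝ) - 1 := by
    rw [Nat.cast_sub (by omega)]; simp
  have hkn : s + 1 ≤ n := by
    have h20 : K ≤ (n : ℝ) := by
      have h21 : 0 ≤ ((1 + e) * K + 1) * ((r : ℝ) - 1) := by
        apply mul_nonneg
        · positivity
        · linarith
      linarith
    rw [hK] at h20
    exact_mod_cast h20
  have hmR : ((n - (s + 1) : ℕ) : ℝ) = (n : ℝ) - K := by
    rw [Nat.cast_sub hkn]
  have hZc : (Ico (s + 1) n).card = n - (s + 1) := Nat.card_Ico _ _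
  have hZ : (u + 1) * (r - 1) ≤ (Ico (s + 1) n).card := by
    rw [hZc]
    have : ((u : ℝ) + 1) * ((r - 1 : ℕ) : ℝ) ≤ ((n - (s + 1) : ℕ) : ℝ) := by
      rw [hwR, hmR]
      refine le_trans ?_ hnum
      apply mul_le_mul_of_nonneg_right _ (by linarith)
      linarith
    exact_mod_cast this
  have hrm : r - 1 ≤ n - (s + 1) := by
    rw [hZc] at hZ
    have h22 : 1 * (r - 1) ≤ (u + 1) * (r - 1) := Nat.mul_le_mul_right _ (by omega)
    omega
  have hC0 : 0 < (n - (s + 1)).choose (r - 1) := Nat.choose_pos hrm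
  have hsr : s + r ≤ n := by omega
  set C : ℝ := ((n - (s + 1)).choose (r - 1) : ℝ) with hC
  have hCpos : 0 < C := by rw [hC]; exact_mod_cast hC0
  set Z := Ico (s + 1) n with hZdef
  set G := frG s n r F with hG
  have hnest : ∀ i < s, G (i + 1) ⊆ G i := frankl_nest hS
  have hcross := frankl_cross (n := n) (r := r) hM
  by_contra hcon
  push Not at hcon
  have hcount := frankl_count hr hsr hF
  have hshad := frankl_shadow hr hF hS hM
  set Fo : ℕ := (F.filter (fun A => A ⊆ Ico (s + 1) n)).card with hFo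
  have hlt : s * (n - (s + 1)).choose (r - 1) < Fo + ∑ i ∈ range (s + 1), (G i).card := by
    rw [hG]
    omega
  have hdn : ∀ i, dn (r - 1) Z (G i) = ((G i).card : ℝ) / C := fun i => dn_frG F i
  have hltR : (s : ℝ) < (Fo : ℝ) / C + ∑ i ∈ range (s + 1), dn (r - 1) Z (G i) := by
    have h2 : (s : ℝ) * C < (Fo : ℝ) + ∑ i ∈ range (s + 1), ((G i).card : ℝ) := by
      rw [hC]; exact_mod_cast hlt
    have h3 : (Fo : ℝ) / C + ∑ i ∈ range (s + 1), dn (r - 1) Z (G i) =
        ((Fo : ℝ) + ∑ i ∈ range (s + 1), ((G i).card : ℝ)) / C := by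
      rw [add_div, Finset.sum_div]
      congr 1
      exact Finset.sum_congr rfl fun i _ => hdn i
    rw [h3, lt_div_iff₀ hCpos]
    exact h2
  set z := dn (r - 1) Z (G s) with hz
  have hFoz : (Fo : ℝ) / C ≤ s * z := by
    rw [hz, hdn s, ← mul_div_assoc]
    apply div_le_div_of_nonneg_right _ hCpos.le
    exact_mod_cast hshad
  have hz1 : z ≤ 1 := dn_le_one _ _ _
  have hz0 : 0 ≤ z := dn_nonneg _ _ _
  have hsum1 : ∑ i ∈ range (s + 1), dn (r - 1) Z (G i) =
      ∑ i ∈ range s, dn (r - 1) Z (G i) + z := Finset.sum_range_succ _ _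
  have hsum2 : ∑ i ∈ range s, dn (r - 1) Z (G i) ≤ s := by
    calc ∑ i ∈ range s, dn (r - 1) Z (G i) ≤ ∑ i ∈ range s, (1 : ℝ) :=
          Finset.sum_le_sum fun i _ => dn_le_one _ _ _
      _ = s := by simp
  have hzpos : 0 < z := by
    rcases hz0.lt_or_eq with h | h
    · exact h
    · exfalso
      rw [hsum1] at hltR
      rw [← h] at hFoz hltR
      linarith
  set a := 1 - dn (r - 1) Z (G (s - g0)) with ha
  have ha0 : 0 ≤ a := by rw [ha]; linarith [dn_le_one (r - 1) Z (G (s - g0))]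
  have hga : (g0 : ℝ) * a ≤ (s : ℝ) - ∑ i ∈ range s, dn (r - 1) Z (G i) := by
    have h5 : (s : ℝ) - ∑ i ∈ range s, dn (r - 1) Z (G i) =
        ∑ i ∈ range s, (1 - dn (r - 1) Z (G i)) := by
      rw [Finset.sum_sub_distrib, Finset.sum_const, Finset.card_range, nsmul_eq_mul, mul_one]
    rw [h5]
    have h6 : ∑ i ∈ Ico (s - g0) s, (1 - dn (r - 1) Z (G i)) ≤
        ∑ i ∈ range s, (1 - dn (r - 1) Z (G i)) := by
      apply Finset.sum_le_sum_of_subset_of_nonneg
      · intro i hi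
        rw [Finset.mem_Ico] at hi
        exact Finset.mem_range.2 hi.2
      · intro i _ _
        linarith [dn_le_one (r - 1) Z (G i)]
    refine le_trans ?_ h6
    have h7 : ∑ i ∈ Ico (s - g0) s, a = (g0 : ℝ) * a := by
      rw [Finset.sum_const, Nat.card_Ico, nsmul_eq_mul, show s - (s - g0) = g0 by omega]
    rw [← h7]
    apply Finset.sum_le_sum
    intro i hi
    rw [Finset.mem_Ico] at hi
    rw [ha]
    have h8 : G i ⊆ G (s - g0) := by
      have := l02_anti G hnest (i - (s - g0)) (s - g0) (by omega)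
      rwa [show s - g0 + (i - (s - g0)) = i by omega] at this
    linarith [l02_dn_mono (w := r - 1) (Z := Z) h8]
  have hga1 : (g0 : ℝ) * a ≤ (Fo : ℝ) / C + z := by
    rw [hsum1] at hltR
    linarith
  have hga2 : (g0 : ℝ) * a ≤ K * z := by
    rw [hKs]
    linarith [hga1, hFoz]
  -- the density of the members outside
  set v : ℝ := (Fo : ℝ) / ((n - (s + 1)).choose r : ℝ) with hvdef
  have hrm2 : r ≤ n - (s + 1) := by
    rw [hZc] at hZ
    have h2 : 2 * (r - 1) ≤ (u + 1) * (r - 1) := Nat.mul_le_mul_right _ (by omega)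
    omega
  have hCr : 0 < ((n - (s + 1)).choose r : ℝ) := by
    exact_mod_cast Nat.choose_pos hrm2
  have hv0 : 0 ≤ v := by rw [hvdef]; exact div_nonneg (Nat.cast_nonneg _) hCr.le
  have hv1 : v ≤ e ^ 3 / 2048 := by
    rw [hvdef, div_le_iff₀ hCr]
    exact hv
  have hFoC : (Fo : ℝ) / C ≤ 2 * K * v := by
    have hch : (n - (s + 1)).choose r * r =
        (n - (s + 1)).choose (r - 1) * (n - (s + 1) - (r - 1)) := by
      have := Nat.choose_succ_right_eq (n - (s + 1)) (r - 1)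
      rwa [show r - 1 + 1 = r by omega] at this
    have hch' : ((n - (s + 1)).choose r : ℝ) * r ≤ C * n := by
      have h9 : (n - (s + 1)).choose r * r ≤ (n - (s + 1)).choose (r - 1) * n := by
        rw [hch]
        exact Nat.mul_le_mul_left _ (by omega)
      rw [hC]
      exact_mod_cast h9
    have hn2' : (n : ℝ) ≤ 2 * K * r := by
      rw [hK]; exact_mod_cast hn2
    have hFv : (Fo : ℝ) = v * ((n - (s + 1)).choose r : ℝ) := by
      rw [hvdef, div_mul_cancel₀ _ hCr.ne']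
    rw [div_le_iff₀ hCpos, hFv]
    have hrpos : (0 : ℝ) < r := by linarith
    have h10 : ((n - (s + 1)).choose r : ℝ) ≤ 2 * K * C := by
      have h11 : ((n - (s + 1)).choose r : ℝ) * r ≤ (2 * K * C) * r := by
        refine hch'.trans ?_
        calc C * (n : ℝ) ≤ C * (2 * K * r) := mul_le_mul_of_nonneg_left hn2' hCpos.le
          _ = (2 * K * C) * r := by ring
      exact le_of_mul_le_mul_right h11 hrpos
    calc v * ((n - (s + 1)).choose r : ℝ) ≤ v * (2 * K * C) :=
          mul_le_mul_of_nonneg_left h10 hv0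
      _ = 2 * K * v * C := by ring
  have hga3 : (g0 : ℝ) * a ≤ 1 + 2 * K * v := by linarith
  have hth0 : (0 : ℝ) < e ^ 2 / 16 := by positivity
  have har2 := local_arith2 he0 he1 rfl hk ha0 hga3 hg0b hv0 hv1
  have har1 := local_arith he0 he1 rfl hk hzpos ha0 hga2 hg0b hua hub hha
  have hKm : K - 1 = (s : ℝ) := by rw [hKs]; ring
  have hfin := block_ineq (Z := Z) (h := h) hw hu1 hZ hg0s hts G hnest hcross hth0 har2 (by
    rw [← hz, ← ha, ← hKs]
    rw [hKm] at har1
    exact har1)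
  linarith
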