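import Pool.Agent.EMC.All.St

open Finset

namespace Pool.Agent.EMC

theorem thm_41 (hH : St_Hit) (hC : St_COL) (hI : St_IMG) (hT : St_Crowd) : St_41 := by
  classical
  intro k r n D m J e c F w hk hr hrn hc0 hc1 hRk hJm hF hw hreg hcard
  set Y : Finset ℕ := Ico 0 n with hY
  have hn : 0 < n := by omega
  have hYc : Y.card = n := by simp [hY]
  have hYne : Y.Nonempty := by
    rw [← Finset.card_pos, hYc]
    exact hn
  have hnR : (0 : ℝ) < n := by exact_mod_cast hn
  have hch : (0 : ℝ) < (n.choose r : ℝ) := by exact_mod_cast Nat.choose_pos hrn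
  -- the upper bound
  have h1 : PS (r + e) Y (fun v => Up F (univ.image v)) ≤
      (1 - qS (r + e) Y w) + ((r + e : ℕ) : ℝ) * D / n + yc c ^ (J + 1) / (1 - yc c) := by
    have h2 : PS (r + e) Y (fun v => Up F (univ.image v)) ≤
        PS (r + e) Y (fun v => (¬ sw w v < 1) ∨ ((∃ i, v i ∈ range D) ∨ Crowd k J v)) := by
      apply PS_mono
      intro v _ hup
      by_contra hcon
      push Not at hcon
      obtain ⟨h3, h4, h5⟩ := hcon
      have h6 := hH k D J (r + e) m F w v hk hJm hw hreg hup
        (fun i => by
          have h7 := h4 i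
          rw [Finset.mem_range] at h7
          omega) h5
      linarith
    have h3 := PS_or_le (R := r + e) (Y := Y) (fun v => ¬ sw w v < 1)
      (fun v => (∃ i, v i ∈ range D) ∨ Crowd k J v)
    have h4 := PS_or_le (R := r + e) (Y := Y) (fun v => ∃ i, v i ∈ range D)
      (fun v => Crowd k J v)
    have h5 := PS_some_mem_le (R := r + e) hYne (range D)
    have h6 := hT (r + e) 0 n k J c hn hk hc0 hc1 (by
      rw [Nat.cast_zero, sub_zero]
      exact hRk)
    have h7 := PS_not (R := r + e) hYne (fun v => sw w v < 1)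
    rw [← qS_eq_PS] at h7
    have h8 : ((r + e : ℕ) : ℝ) * ((Y ∩ range D).card / Y.card : ℝ) ≤
        ((r + e : ℕ) : ℝ) * D / n := by
      rw [hYc, mul_div_assoc]
      have h9 : ((Y ∩ range D).card : ℝ) ≤ D := by
        have h10 : (Y ∩ range D).card ≤ (range D).card :=
          Finset.card_le_card Finset.inter_subset_right
        rw [Finset.card_range] at h10
        exact_mod_cast h10
      gcongr
    linarith
  -- the lower bound
  have h2 : PS (r + e) Y (fun v => r ≤ (univ.image v).card) =
      1 - PS (r + e) Y (fun v => (univ.image v).card < r) := by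
    rw [← PS_not hYne]
    simp only [not_lt]
  have h3 := hC r e Y hYne
  have h4 := hI r (r + e) Y F hF (by rw [hYc]; exact hrn)
  rw [hYc] at h3 h4
  rw [h2] at h4
  have h5 : 0 ≤ PS (r + e) Y (fun v => (univ.image v).card < r) := PS_nonneg _
  have hd : (F.card : ℝ) / (n.choose r : ℝ) ≤ 1 := by
    rw [div_le_one hch]
    have h6 : F.card ≤ (Y.powersetCard r).card := by
      apply Finset.card_le_card
      intro A hA
      rw [Finset.mem_powersetCard]
      exact hF A hA
    rw [Finset.card_powersetCard, hYc] at h6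
    exact_mod_cast h6
  have hd0 : 0 ≤ (F.card : ℝ) / (n.choose r : ℝ) := by positivity
  have hd2 : 1 - ((n - (k - 1)).choose r : ℝ) / (n.choose r : ℝ) ≤
      (F.card : ℝ) / (n.choose r : ℝ) := by
    rw [sub_le_iff_le_add, ← add_div, one_le_div hch]
    have h6 : (n.choose r : ℝ) < F.card + (n - (k - 1)).choose r := by exact_mod_cast hcard
    exact h6.le
  set d := (F.card : ℝ) / (n.choose r : ℝ)
  set P := PS (r + e) Y (fun v => (univ.image v).card < r)
  have h7 : d - P ≤ (1 - P) * d := by nlinarith
  linarith

end Pool.Agent.EMC
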