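import Pool.Agent.EMC.All.St

/-!
(4.3): the light points have small total weight.
-/

open Finset

namespace Pool.Agent.EMC

theorem thm_43 : St_43 := by
  classical
  intro R Y w mu tau hR hY hw hq ht0 ht1 hmu hM
  have hc : (0 : ℝ) < Y.card := by exact_mod_cast hY.card_pos
  set q := qS R Y w with hqdef
  set M := MS R Y w with hMdef
  -- the probability that the sum is less than `tau`
  have hsw : ∀ v : Fin R → ℕ, 0 ≤ sw w v := fun v => Finset.sum_nonneg fun i _ => hw _
  have hPtau : q / 2 ≤ PS R Y (fun v => sw w v < tau) := by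
    have h1 : q ≤ PS R Y (fun v => sw w v < tau ∨
        tau ≤ (if sw w v < 1 then sw w v else 0)) := by
      rw [hqdef, qS_eq_PS]
      refine PS_mono fun v _ hv => ?_
      by_cases h : sw w v < tau
      · exact Or.inl h
      · right
        rw [if_pos hv]
        exact not_lt.1 h
    have h2 := PS_or_le (R := R) (Y := Y) (fun v => sw w v < tau)
      (fun v => tau ≤ (if sw w v < 1 then sw w v else 0))
    have h3 : PS R Y (fun v => tau ≤ (if sw w v < 1 then sw w v else 0)) ≤ M / tau := by
      refine PS_markov (f := fun v => if sw w v < 1 then sw w v else 0) (fun v _ => ?_) ht0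
      beta_reduce
      split_ifs
      · exact hsw v
      · exact le_rfl
    have h4 : M / tau ≤ q / 2 := by
      rw [div_le_iff₀ ht0]
      have : mu * q ≤ tau / 2 * q := by
        apply mul_le_mul_of_nonneg_right _ hq.le
        linarith
      linarith
    linarith
  -- one coordinate
  have hone : ∀ i : Fin R, (∑ y ∈ Y, (if w y ≤ 1 - tau then w y else 0)) / Y.card * (q / 2) ≤
      ES R Y (fun v => if sw w v < 1 then w (v i) else 0) := by
    intro i
    have hh : ∀ (v : Fin R → ℕ) (y : ℕ),
        (if ∑ j ∈ univ.erase i, w (Function.update v i y j) < tau then (1 : ℝ) else 0) =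
          (if ∑ j ∈ univ.erase i, w (v j) < tau then (1 : ℝ) else 0) := by
      intro v y
      rw [Finset.sum_congr rfl fun j hj => by
        rw [Function.update_of_ne (Finset.ne_of_mem_erase hj)]]
    have h1 := ES_indep (R := R) hY i (fun y => if w y ≤ 1 - tau then w y else 0)
      (fun v => if ∑ j ∈ univ.erase i, w (v j) < tau then (1 : ℝ) else 0) hh
    have hsum : ∀ v : Fin R → ℕ, w (v i) + ∑ j ∈ univ.erase i, w (v j) = sw w v := by
      intro v
      unfold sw
      exact Finset.add_sum_erase _ (fun j => w (v j)) (Finset.mem_univ i)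
    have h2 : ES R Y (fun v => (if w (v i) ≤ 1 - tau then w (v i) else 0) *
        (if ∑ j ∈ univ.erase i, w (v j) < tau then (1 : ℝ) else 0)) ≤
        ES R Y (fun v => if sw w v < 1 then w (v i) else 0) := by
      refine ES_mono fun v _ => ?_
      have h3 := hsum v
      have h4 := hw (v i)
      by_cases g1 : w (v i) ≤ 1 - tau
      · by_cases g2 : ∑ j ∈ univ.erase i, w (v j) < tau
        · rw [if_pos g1, if_pos g2, if_pos (by linarith), mul_one]
        · rw [if_neg g2, mul_zero]
          split_ifs
          · exact h4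
          · exact le_rfl
      · rw [if_neg g1, zero_mul]
        split_ifs
        · exact h4
        · exact le_rfl
    have h5 : PS R Y (fun v => sw w v < tau) ≤
        ES R Y (fun v => if ∑ j ∈ univ.erase i, w (v j) < tau then (1 : ℝ) else 0) := by
      unfold PS
      refine ES_mono fun v _ => ?_
      have h3 := hsum v
      have h4 := hw (v i)
      by_cases g : sw w v < tau
      · rw [if_pos g, if_pos (by linarith)]
      · rw [if_neg g]
        split_ifs <;> norm_num
    have h6 : 0 ≤ (∑ y ∈ Y, (if w y ≤ 1 - tau then w y else 0)) / (Y.card : ℝ) := by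
      apply div_nonneg _ hc.le
      refine Finset.sum_nonneg fun y _ => ?_
      split_ifs
      · exact hw y
      · exact le_rfl
    calc (∑ y ∈ Y, (if w y ≤ 1 - tau then w y else 0)) / (Y.card : ℝ) * (q / 2)
        ≤ (∑ y ∈ Y, (if w y ≤ 1 - tau then w y else 0)) / (Y.card : ℝ) *
          ES R Y (fun v => if ∑ j ∈ univ.erase i, w (v j) < tau then (1 : ℝ) else 0) :=
          mul_le_mul_of_nonneg_left (hPtau.trans h5) h6
      _ = _ := h1.symm
      _ ≤ _ := h2
  -- sum over the coordinates
  have hMsum : M = ∑ i : Fin R, ES R Y (fun v => if sw w v < 1 then w (v i) else 0) := by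
    rw [← ES_sum, hMdef]
    unfold MS
    refine ES_congr fun v _ => ?_
    by_cases h : sw w v < 1
    · simp only [if_pos h]
      rfl
    · simp only [if_neg h]
      simp
  have hfin : (R : ℝ) * ((∑ y ∈ Y, (if w y ≤ 1 - tau then w y else 0)) / Y.card * (q / 2)) ≤
      M := by
    rw [hMsum]
    have h1 := Finset.sum_le_sum fun (i : Fin R) (_ : i ∈ univ) => hone i
    rw [Finset.sum_const, Finset.card_univ, Fintype.card_fin, nsmul_eq_mul] at h1
    exact h1
  rw [Finset.sum_filter]
  have h7 : (R : ℝ) / Y.card * (∑ y ∈ Y, (if w y ≤ 1 - tau then w y else 0)) * (q / 2) ≤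
      2 * mu * (q / 2) := by
    calc (R : ℝ) / Y.card * (∑ y ∈ Y, (if w y ≤ 1 - tau then w y else 0)) * (q / 2)
        = (R : ℝ) * ((∑ y ∈ Y, (if w y ≤ 1 - tau then w y else 0)) / Y.card * (q / 2)) := by ring
      _ ≤ M := hfin
      _ ≤ mu * q := hM
      _ = 2 * mu * (q / 2) := by ring
  exact le_of_mul_le_mul_right h7 (by linarith)

end Pool.Agent.EMC
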