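import Pool.Agent.EMC.All.St

/-! (4.4): the number of heavy points beyond `k`. -/

open Finset

namespace Pool.Agent.EMC

theorem thm_44 : St_44 := by
  intro k n D B tau w hDk htau0 htau1 hw hanti hB hk
  have hpos : 0 < 1 - tau := by linarith
  by_cases he : (#{v ∈ Ico k n | 1 - tau < w v}) = 0
  · rw [he]
    push_cast
    linarith
  have hne : ({v ∈ Ico k n | 1 - tau < w v}).Nonempty :=
    Finset.card_pos.mp (Nat.pos_of_ne_zero he)
  obtain ⟨u, hu, hmax⟩ := Finset.exists_max_image _ (fun v : ℕ => v) hne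
  rw [Finset.mem_filter, Finset.mem_Ico] at hu
  obtain ⟨⟨hku, hun⟩, hwu⟩ := hu
  have hsub : ({v ∈ Ico k n | 1 - tau < w v}) ⊆ Ico k (u + 1) := by
    intro v hv
    have h1 := hmax v hv
    rw [Finset.mem_filter, Finset.mem_Ico] at hv
    rw [Finset.mem_Ico]
    exact ⟨hv.1.1, Nat.lt_succ_of_le h1⟩
  have hcard : (#{v ∈ Ico k n | 1 - tau < w v}) ≤ u + 1 - k := by
    have := Finset.card_le_card hsub
    rwa [Nat.card_Ico] at this
  have hcard2 : (#{v ∈ Ico k n | 1 - tau < w v}) + k ≤ u + 1 := by omega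
  have hsum : (1 - tau) * ((u : ℝ) + 1 - D) ≤ B := by
    have h1 : ∑ v ∈ Ico D (u + 1), (1 - tau) ≤ ∑ v ∈ Ico D (u + 1), w v := by
      refine Finset.sum_le_sum fun v hv => ?_
      rw [Finset.mem_Ico] at hv
      have := hanti v u hv.1 (by omega)
      linarith
    have h2 : ∑ v ∈ Ico D (u + 1), w v ≤ ∑ v ∈ range (u + 1), w v := by
      apply Finset.sum_le_sum_of_subset_of_nonneg
      · intro v hv
        rw [Finset.mem_Ico] at hv
        rw [Finset.mem_range]
        exact hv.2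
      · intro v _ _
        exact hw v
    rw [Finset.sum_const, Nat.card_Ico, nsmul_eq_mul] at h1
    have h3 : ((u + 1 - D : ℕ) : ℝ) = (u : ℝ) + 1 - D := by
      rw [Nat.cast_sub (by omega)]
      push_cast
      ring
    rw [h3] at h1
    have := hB (u + 1)
    linarith
  have h4 : (u : ℝ) + 1 - D ≤ B / (1 - tau) := by
    rw [le_div_iff₀ hpos]
    linarith
  have h5 : ((#{v ∈ Ico k n | 1 - tau < w v} : ℕ) : ℝ) + k ≤ (u : ℝ) + 1 := by
    exact_mod_cast hcard2
  linarith

end Pool.Agent.EMC
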