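import Pool.Agent.EMC.All.St

/-!
(4.5): the members of `F` contained in `{k, …, n-1}` are few if the light weight is small.
-/

open Finset

namespace Pool.Agent.EMC

theorem thm_45 (hH : St_Hit) (hC : St_COL) (hI : St_IMG) (hT : St_Crowd) : St_45 := by
  classical
  intro k r n D m J e c tau F w hk hr hn hD hc0 hc1 hRc hJ hU hw hFw
  set R := r + e with hR
  set Y := Ico k n with hY
  set G := Fo k n F with hG
  have hYc : Y.card = n - k := by rw [hY, Nat.card_Ico]
  have hYne : Y.Nonempty := by
    rw [← Finset.card_pos, hYc]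
    omega
  have hYr : (Y.card : ℝ) = (n : ℝ) - k := by
    rw [hYc, Nat.cast_sub (by omega)]
  have hYpos : (0 : ℝ) < (n : ℝ) - k := by
    rw [← hYr]
    exact_mod_cast Finset.card_pos.2 hYne
  have hGU : Unif r Y G := by
    intro A hA
    rw [hG] at hA
    unfold Fo at hA
    rw [Finset.mem_filter] at hA
    exact ⟨hA.2, (hU A hA.1).2⟩
  have hGF : ∀ A ∈ G, A ∈ F := by
    intro A hA
    rw [hG] at hA
    unfold Fo at hA
    exact (Finset.mem_filter.1 hA).1
  have hGc : G.card ≤ Y.card.choose r := by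
    have h1 : G ⊆ Y.powersetCard r := by
      intro A hA
      rw [Finset.mem_powersetCard]
      exact hGU A hA
    have h2 := Finset.card_le_card h1
    rwa [Finset.card_powersetCard] at h2
  have hch : (0 : ℝ) < (Y.card.choose r : ℝ) := by
    exact_mod_cast Nat.choose_pos (by rw [hYc]; omega)
  set v' : ℝ := (G.card : ℝ) / (Y.card.choose r : ℝ) with hv'
  have hv0 : 0 ≤ v' := by positivity
  have hv1 : v' ≤ 1 := by
    rw [hv', div_le_one hch]
    exact_mod_cast hGc
  -- collisions
  have h1 := hC r e Y hYne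
  have h2 := hI r R Y G hGU (by rw [hYc]; omega)
  have h3 : PS R Y (fun v => r ≤ (univ.image v).card) =
      1 - PS R Y (fun v => (univ.image v).card < r) := by
    rw [← PS_not hYne]
    unfold PS
    refine ES_congr (fun v _ => ?_)
    by_cases h : r ≤ (univ.image v).card
    · rw [if_pos h, if_pos (by omega)]
    · rw [if_neg h, if_neg (by omega)]
  set col := PS R Y (fun v => (univ.image v).card < r) with hcol
  have hcol0 : 0 ≤ col := PS_nonneg _
  have h4 : v' - col ≤ PS R Y (fun v => Up G (univ.image v)) := by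
    refine le_trans ?_ h2
    rw [h3]
    nlinarith
  -- the event
  set H := Y.filter (fun v => 1 - tau < w v) with hHdef
  set g : ℕ → ℝ := fun v => if w v ≤ 1 - tau then w v else 0 with hg
  have hg0 : ∀ v, 0 ≤ g v := by
    intro v
    simp only [hg]
    split_ifs
    · exact hw v
    · exact le_refl _
  have h5 : PS R Y (fun v => Up G (univ.image v)) ≤
      PS R Y (fun v => Crowd k J v ∨ ((∃ i, v i ∈ H) ∨ 1 ≤ ∑ i, g (v i))) := by
    refine PS_mono (fun v hv hup => ?_)
    by_cases hcr : Crowd k J v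
    · exact Or.inl hcr
    · right
      by_cases hhe : ∃ i, v i ∈ H
      · exact Or.inl hhe
      · right
        push Not at hhe
        have h6 := hH k D J R m G w v hk hJ hw (fun C hC' => hFw C (hGF C hC')) hup
          (fun i => by
            have := hv i
            rw [hY, Finset.mem_Ico] at this
            omega) hcr
        refine le_trans h6 (le_of_eq ?_)
        unfold sw
        refine Finset.sum_congr rfl (fun i _ => ?_)
        have h7 := hhe i
        rw [hHdef, Finset.mem_filter] at h7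
        have h8 : w (v i) ≤ 1 - tau := by
          by_contra h9
          push Not at h9
          exact h7 ⟨hv i, h9⟩
        simp only [hg]
        rw [if_pos h8]
  have h6 : PS R Y (fun v => Crowd k J v ∨ ((∃ i, v i ∈ H) ∨ 1 ≤ ∑ i, g (v i))) ≤
      PS R Y (fun v => Crowd k J v) + (PS R Y (fun v => ∃ i, v i ∈ H) +
        PS R Y (fun v => 1 ≤ ∑ i, g (v i))) := by
    refine le_trans (PS_or_le _ _) ?_
    have := PS_or_le (R := R) (Y := Y) (fun v => ∃ i, v i ∈ H) (fun v => 1 ≤ ∑ i, g (v i))
    linarith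
  have h7 : PS R Y (fun v => Crowd k J v) ≤ yc c ^ (J + 1) / (1 - yc c) :=
    hT R k n k J c (by omega) hk hc0 hc1 hRc
  have h8 : PS R Y (fun v => ∃ i, v i ∈ H) ≤ R * ((Y ∩ H).card / Y.card : ℝ) :=
    PS_some_mem_le hYne H
  have h9 : PS R Y (fun v => 1 ≤ ∑ i, g (v i)) ≤ R * ((∑ y ∈ Y, g y) / Y.card) := by
    have h10 := PS_markov (R := R) (Y := Y) (f := fun v => ∑ i, g (v i))
      (fun v _ => Finset.sum_nonneg (fun i _ => hg0 _)) one_pos
    rw [div_one] at h10
    refine le_trans h10 (le_of_eq ?_)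
    have h11 := ES_sw (R := R) hYne g
    unfold sw at h11
    exact h11
  have h10 : ((Y ∩ H).card : ℝ) = (#{v ∈ Y | 1 - tau < w v} : ℝ) := by
    congr 2
    rw [hHdef]
    ext v
    simp only [Finset.mem_inter, Finset.mem_filter]
    tauto
  have h11 : ∑ y ∈ Y, g y = ∑ v ∈ Y with w v ≤ 1 - tau, w v := by
    rw [Finset.sum_filter]
  have h12 : v' = ((Fo k n F).card : ℝ) / ((n - k).choose r : ℝ) := by
    rw [hv', hYc]
  rw [← h12]
  rw [h10, hYr] at h8
  rw [h11, hYr] at h9
  rw [hYr] at h1
  have h13 : (R : ℝ) * ((#{v ∈ Y | 1 - tau < w v} : ℝ) / ((n : ℝ) - k)) =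
      (R : ℝ) / ((n : ℝ) - k) * #{v ∈ Y | 1 - tau < w v} := by ring
  have h14 : (R : ℝ) * ((∑ v ∈ Y with w v ≤ 1 - tau, w v) / ((n : ℝ) - k)) =
      (R : ℝ) / ((n : ℝ) - k) * ∑ v ∈ Y with w v ≤ 1 - tau, w v := by ring
  linarith

end Pool.Agent.EMC
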