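import Pool.Agent.EMC.All.St
import Pool.Agent.EMC.Main2

/-!
The Erdős matching conjecture for all `r`, all `k ≥ k_0(ε)` and all `n ≥ (1+ε)(r+1)k`.
-/

open Finset

namespace Pool.Agent.EMC

theorem emc_all (hm : St_MainNat) {ep : ℝ} (h0 : 0 < ep) :
    ∃ k0 : ℕ, ∀ r k n : ℕ, k0 ≤ k → 1 ≤ r → (1 + ep) * (((r : ℝ) + 1) * k) ≤ n →
      Nat.choose (r * k - 1) r ≤ Nat.choose n r - Nat.choose (n - k + 1) r ∧
      (∀ F : Finset (Finset (Fin n)),
          (∀ e ∈ F, e.card = r) →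
          (¬ ∃ M : Finset (Finset (Fin n)), M ⊆ F ∧ M.card = k ∧
              ∀ a ∈ M, ∀ b ∈ M, a ≠ b → Disjoint a b) →
          F.card ≤ Nat.choose n r - Nat.choose (n - k + 1) r) ∧
      (∃ F : Finset (Finset (Fin n)),
          (∀ e ∈ F, e.card = r) ∧
          (¬ ∃ M : Finset (Finset (Fin n)), M ⊆ F ∧ M.card = k ∧
              ∀ a ∈ M, ∀ b ∈ M, a ≠ b → Disjoint a b) ∧
          F.card = Nat.choose n r - Nat.choose (n - k + 1) r) := by
  obtain ⟨k0, hk01, hC⟩ := hm ep h0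
  refine ⟨k0, fun r k n hk hr hn => ?_⟩
  have hup := hC k r n hk hr hn
  have hk1 : 1 ≤ k := hk01.trans hk
  have hkrn : k * r ≤ n := by
    have h1 : (k : ℝ) * r ≤ n := by
      have hkr : (0 : ℝ) ≤ (k : ℝ) := by positivity
      have hrr : (0 : ℝ) ≤ (r : ℝ) := by positivity
      have h2 : 0 ≤ ep * (((r : ℝ) + 1) * k) := by positivity
      nlinarith
    exact_mod_cast h1
  have hkn : k ≤ n := le_trans (Nat.le_mul_of_pos_right k (by omega)) hkrn
  have e1 : n - (k - 1) = n - k + 1 := by omega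
  rw [e1] at hup
  refine ⟨?_, ?_, ?_⟩
  · have h1 : r * k - 1 ≤ n := by rw [mul_comm]; omega
    obtain ⟨F, hF, hM, hc⟩ := exists_clique (k := k) hk1 hr h1
    have := hup F hF hM
    omega
  · intro F hF hM
    obtain ⟨F', hF', hM', hc⟩ := to_nat hr F hF hM
    have := hup F' hF' hM'
    omega
  · obtain ⟨F, hF, hM, hc⟩ := exists_star (k := k) (n := n) (r := r) hk1 (by omega)
    obtain ⟨F', h1, h2, h3⟩ := of_nat F hF hM
    rw [e1] at hc
    exact ⟨F', h1, h2, by omega⟩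

/-- Both ranges together. -/
theorem emc_both (hm : St_MainNat) {ep : ℝ} (h0 : 0 < ep) :
    ∃ k0 r0 : ℕ, ∀ r k n : ℕ, 1 ≤ r → 1 ≤ k →
      (k0 ≤ k ∧ (1 + ep) * (((r : ℝ) + 1) * k) ≤ n) ∨ (r0 ≤ r ∧ (4 / 3 + ep) * ((k : ℝ) * r) ≤ n) →
      (∀ F : Finset (Finset (Fin n)),
          (∀ e ∈ F, e.card = r) →
          (¬ ∃ M : Finset (Finset (Fin n)), M ⊆ F ∧ M.card = k ∧
              ∀ a ∈ M, ∀ b ∈ M, a ≠ b → Disjoint a b) →
          F.card ≤ max (Nat.choose (r * k - 1) r)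
                       (Nat.choose n r - Nat.choose (n - k + 1) r)) ∧
      (∃ F : Finset (Finset (Fin n)),
          (∀ e ∈ F, e.card = r) ∧
          (¬ ∃ M : Finset (Finset (Fin n)), M ⊆ F ∧ M.card = k ∧
              ∀ a ∈ M, ∀ b ∈ M, a ≠ b → Disjoint a b) ∧
          F.card = max (Nat.choose (r * k - 1) r)
                       (Nat.choose n r - Nat.choose (n - k + 1) r)) ∧
      Nat.choose (r * k - 1) r ≤ Nat.choose n r - Nat.choose (n - k + 1) r := by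
  obtain ⟨k0, hk0⟩ := emc_all hm h0
  obtain ⟨r0, hr0⟩ := emc_main2 h0
  refine ⟨k0, r0, fun r k n hr hk h => ?_⟩
  rcases h with ⟨h1, h2⟩ | ⟨h1, h2⟩
  · obtain ⟨a, b, c⟩ := hk0 r k n h1 hr h2
    rw [max_eq_right a]
    exact ⟨b, c, a⟩
  · obtain ⟨a, b, c⟩ := hr0 r k n hk h1 h2
    rw [max_eq_right a]
    exact ⟨b, c, a⟩

end Pool.Agent.EMC
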