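import Pool.Agent.EMC.All.St
import Pool.Agent.EMC.Shift
import Pool.Agent.EMC.Frankl

/-!
Section 6: the theorem for families of finite sets of naturals.
-/

open Finset

namespace Pool.Agent.EMC

/-- The case of sets with one point. -/
private lemma mainNat_one {k n : ℕ} (hk : 1 ≤ k) (hn : k ≤ n) {F : Finset (Finset ℕ)}
    (hF : Unif 1 (Ico 0 n) F) (hM : NoMatch k F) :
    F.card + (n - (k - 1)).choose 1 ≤ n.choose 1 := by
  rw [Nat.choose_one_right, Nat.choose_one_right]
  have hc : F.card < k := by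
    by_contra hc
    push Not at hc
    apply hM
    obtain ⟨G, hG, hGc⟩ := Finset.exists_subset_card_eq hc
    obtain ⟨e⟩ : Nonempty (Fin k ≃ G) := ⟨(Finset.equivFinOfCardEq hGc).symm⟩
    refine ⟨fun i => (e i : Finset ℕ), fun i => hG (e i).2, fun i j hij => ?_⟩
    obtain ⟨a, ha⟩ := Finset.card_eq_one.1 (hF _ (hG (e i).2)).2
    obtain ⟨b, hb⟩ := Finset.card_eq_one.1 (hF _ (hG (e j).2)).2
    have hab : (e i : Finset ℕ) ≠ (e j : Finset ℕ) := by
      intro h
      exact hij (e.injective (Subtype.ext h))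
    show Disjoint (e i : Finset ℕ) (e j : Finset ℕ)
    rw [ha, hb] at hab ⊢
    rw [Finset.disjoint_singleton]
    intro h
    exact hab (by rw [h])
  omega

theorem thm_MainNat (hN : St_Near) (hL : St_Local) : St_MainNat := by
  intro ep hep
  obtain ⟨e, he0, he1, hee⟩ : ∃ e : ℝ, 0 < e ∧ e ≤ 1 ∧ e ≤ ep :=
    ⟨min ep 1, lt_min hep one_pos, min_le_right _ _, min_le_left _ _⟩
  obtain ⟨gam, hgam, k1, h1⟩ := hL e he0 he1
  obtain ⟨k2, h2⟩ := hN e gam he0 he1 hgam
  refine ⟨max (max k1 k2) 2, le_trans (by norm_num) (le_max_right _ _), ?_⟩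
  intro k r n hk hr hn F hF hM
  have hk1 : k1 ≤ k := le_trans (le_trans (le_max_left _ _) (le_max_left _ _)) hk
  have hk2 : k2 ≤ k := le_trans (le_trans (le_max_right _ _) (le_max_left _ _)) hk
  have hk3 : 2 ≤ k := le_trans (le_max_right _ _) hk
  have hrk : (0 : ℝ) ≤ ((r : ℝ) + 1) * k := by positivity
  have hn' : (1 + e) * (((r : ℝ) + 1) * k) ≤ n :=
    le_trans (mul_le_mul_of_nonneg_right (by linarith) hrk) hn
  have hkn : (r + 1) * k ≤ n := by
    have h3 : (((r + 1) * k : ℕ) : ℝ) ≤ (n : ℝ) := by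
      push_cast
      calc ((r : ℝ) + 1) * k = 1 * (((r : ℝ) + 1) * k) := by ring
        _ ≤ (1 + e) * (((r : ℝ) + 1) * k) := mul_le_mul_of_nonneg_right (by linarith) hrk
        _ ≤ n := hn'
    exact_mod_cast h3
  rcases Nat.eq_or_lt_of_le hr with hr1 | hr2
  · subst hr1
    have hkn' : k ≤ n := le_trans (by nlinarith) hkn
    exact mainNat_one (by omega) hkn' hF hM
  · obtain ⟨F', hF', hc, hS', hM'⟩ := exists_shifted hF hM
    rw [← hc]
    rcases le_total (2 * (k * r)) n with hbig | hsmall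
    · have h3 := frankl (s := k - 1) (n := n) (r := r) hr2 (by
        have h4 : (2 * (k - 1) + 1) * r ≤ 2 * (k * r) := by
          calc (2 * (k - 1) + 1) * r ≤ (2 * k) * r := Nat.mul_le_mul_right _ (by omega)
            _ = 2 * (k * r) := by ring
        omega) hF' hS' (by rwa [Nat.sub_add_cancel (by omega)])
      exact h3
    · by_contra hcon
      push Not at hcon
      have h3 := h2 k r n hk2 hr hn' F' hF' hS' hM' hcon
      exact absurd (h1 k r n hk1 hr2 hn' hsmall F' hF' hS' hM' h3) (not_le.2 hcon)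

end Pool.Agent.EMC
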