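import Pool.Agent.EMC.All.St

/-!
Near star: choice of the parameters.
-/

open Finset

namespace Pool.Agent.EMC

lemma near_yc {ep : ℝ} (h : 0 < ep) :
    0 < yc ((1 + ep / 2) / (1 + ep)) ∧ yc ((1 + ep / 2) / (1 + ep)) < 1 := by
  have hc0 : 0 < (1 + ep / 2) / (1 + ep) := by positivity
  have hc1 : (1 + ep / 2) / (1 + ep) < 1 := by
    rw [div_lt_one (by linarith)]
    linarith
  set c := (1 + ep / 2) / (1 + ep)
  unfold yc
  refine ⟨mul_pos hc0 (Real.exp_pos _), ?_⟩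
  have h1 : c - 1 + 1 < Real.exp (c - 1) := Real.add_one_lt_exp (by
    intro h2
    linarith)
  have h2 : c < Real.exp (c - 1) := by linarith
  calc c * Real.exp (1 - c) < Real.exp (c - 1) * Real.exp (1 - c) :=
        mul_lt_mul_of_pos_right h2 (Real.exp_pos _)
    _ = 1 := by
        rw [← Real.exp_add]
        simp

lemma near_tl {ep : ℝ} (h : 0 < ep) {b : ℝ} (hb : 0 < b) : ∃ J : ℕ, tl ep J ≤ b := by
  obtain ⟨h0, h1⟩ := near_yc h
  have h2 : 0 < b * (1 - yc ((1 + ep / 2) / (1 + ep))) := mul_pos hb (by linarith)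
  obtain ⟨N, hN⟩ := exists_pow_lt_of_lt_one h2 h1
  refine ⟨N, ?_⟩
  unfold tl
  rw [div_le_iff₀ (by linarith)]
  have h3 : yc ((1 + ep / 2) / (1 + ep)) ^ (N + 1) ≤ yc ((1 + ep / 2) / (1 + ep)) ^ N := by
    rw [pow_succ]
    exact mul_le_of_le_one_right (by positivity) h1.le
  linarith

theorem thm_Near (h : St_NearRaw) : St_Near := by
  intro ep gam hep hep1 hgam
  set g : ℝ := min gam 1 with hg
  have hg0 : 0 < g := lt_min hgam one_pos
  have hg1 : g ≤ 1 := min_le_right _ _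
  have hgg : g ≤ gam := min_le_left _ _
  set tau : ℝ := g / 24 with htau
  set mu : ℝ := g / 48 with hmu
  set B : ℝ := ep ^ 2 * mu / 16 with hB
  have hmu0 : 0 < mu := by positivity
  have hB0 : 0 < B := by positivity
  have hep2 : ep ^ 2 ≤ 1 := pow_le_one₀ hep.le hep1
  have hBmu : B ≤ mu / 16 := by
    rw [hB]
    have : ep ^ 2 * mu ≤ 1 * mu := mul_le_mul_of_nonneg_right hep2 hmu0.le
    linarith
  have hBep : B ≤ ep / 16 := by
    rw [hB]
    have h1 : mu ≤ 1 := by rw [hmu]; linarith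
    have h2 : ep ^ 2 * mu ≤ ep * 1 := by
      have : ep ^ 2 ≤ ep := by nlinarith
      exact mul_le_mul this h1 hmu0.le hep.le
    linarith
  set eta : ℝ := min (ep / 8) (B / 10) with heta
  have heta0 : 0 < eta := lt_min (by positivity) (by positivity)
  have heta1 : eta ≤ ep / 8 := min_le_left _ _
  have heta2 : eta ≤ B / 10 := min_le_right _ _
  set dl : ℝ := B / 20 with hdl
  have hdl0 : 0 < dl := by positivity
  have hdl1 : dl ≤ 1 := by rw [hdl]; linarith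
  obtain ⟨J, hJ⟩ := near_tl hep (b := B / 5) (by positivity)
  set L : ℕ := ⌈((J : ℝ) + 1) / dl⌉₊ with hL
  have hLdl : (J : ℝ) + 1 ≤ ((L : ℝ) + 1) * dl := by
    have h1 : ((J : ℝ) + 1) / dl ≤ L := Nat.le_ceil _
    rw [div_le_iff₀ hdl0] at h1
    nlinarith
  refine ⟨⌈10 / (eta * B)⌉₊ + ⌈20 / B⌉₊ + ⌈5 * ((L : ℝ) + 2) / B⌉₊ + 1, ?_⟩
  intro k r n hk hr hn F hU hS hM hF
  have hk1 : 1 ≤ k := by omega
  have hk0 : (0 : ℝ) < k := by exact_mod_cast hk1
  have hkR : ((⌈10 / (eta * B)⌉₊ + ⌈20 / B⌉₊ + ⌈5 * ((L : ℝ) + 2) / B⌉₊ + 1 : ℕ) : ℝ) ≤ k := by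
    exact_mod_cast hk
  push_cast at hkR
  have c1 : 10 / (eta * B) ≤ (⌈10 / (eta * B)⌉₊ : ℝ) := Nat.le_ceil _
  have c2 : 20 / B ≤ (⌈20 / B⌉₊ : ℝ) := Nat.le_ceil _
  have c3 : 5 * ((L : ℝ) + 2) / B ≤ (⌈5 * ((L : ℝ) + 2) / B⌉₊ : ℝ) := Nat.le_ceil _
  have d1 : (0 : ℝ) ≤ (⌈10 / (eta * B)⌉₊ : ℝ) := Nat.cast_nonneg _
  have d2 : (0 : ℝ) ≤ (⌈20 / B⌉₊ : ℝ) := Nat.cast_nonneg _
  have d3 : (0 : ℝ) ≤ (⌈5 * ((L : ℝ) + 2) / B⌉₊ : ℝ) := Nat.cast_nonneg _
  -- the three small quantities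
  have e1 : 2 / (eta * k) ≤ B / 5 := by
    have h1 : 10 / (eta * B) ≤ k := by linarith
    rw [div_le_iff₀ (by positivity)] at h1
    rw [div_le_iff₀ (by positivity)]
    nlinarith
  have e2 : 2 / (k : ℝ) ≤ B / 10 := by
    have h1 : 20 / B ≤ k := by linarith
    rw [div_le_iff₀ hB0] at h1
    rw [div_le_iff₀ hk0]
    nlinarith
  have e3 : ((L : ℝ) + 2) / k ≤ B / 5 := by
    have h1 : 5 * ((L : ℝ) + 2) / B ≤ k := by linarith
    rw [div_le_iff₀ hB0] at h1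
    rw [div_le_iff₀ hk0]
    nlinarith
  have e3' : ((L : ℝ) + 1) / k ≤ B / 5 := by
    have : ((L : ℝ) + 1) / k ≤ ((L : ℝ) + 2) / k :=
      div_le_div_of_nonneg_right (by linarith) hk0.le
    linarith
  set D : ℕ := ⌈dl * k⌉₊ with hD
  have hD1 : 1 ≤ D := Nat.one_le_iff_ne_zero.2 (by
    rw [hD, Ne, Nat.ceil_eq_zero, not_le]
    positivity)
  have hDk : D ≤ k := by
    rw [hD, Nat.ceil_le]
    nlinarith
  have hDge : dl * k ≤ D := Nat.le_ceil _
  have hDle : (D : ℝ) ≤ dl * k + 1 := (Nat.ceil_lt_add_one (by positivity)).le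
  have e4 : 2 * (D : ℝ) / k ≤ B / 5 := by
    have h1 : 2 * (D : ℝ) / k ≤ (2 * (dl * k + 1)) / k :=
      div_le_div_of_nonneg_right (by linarith) hk0.le
    have h2 : (2 * (dl * k + 1)) / k = 2 * dl + 2 / k := by
      field_simp
    rw [h2] at h1
    rw [hdl] at h1
    linarith
  have hJL : (J + 1) * k ≤ (L + 1) * D := by
    have h1 : ((J : ℝ) + 1) * k ≤ ((L : ℝ) + 1) * D := by
      calc ((J : ℝ) + 1) * k ≤ (((L : ℝ) + 1) * dl) * k :=
            mul_le_mul_of_nonneg_right hLdl hk0.le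
        _ = ((L : ℝ) + 1) * (dl * k) := by ring
        _ ≤ ((L : ℝ) + 1) * D := mul_le_mul_of_nonneg_left hDge (by positivity)
    exact_mod_cast h1
  have hr0 : (0 : ℝ) ≤ r := Nat.cast_nonneg r
  have hsum : 2 / (eta * k) + 2 * (D : ℝ) / k + tl ep J + ((L : ℝ) + 2) / k + 2 * eta ≤ B := by
    linarith
  have hmain : 16 / ep ^ 2 * (2 / (eta * k) + 2 * (D : ℝ) / k + tl ep J + ((L : ℝ) + 2) / k +
      2 * eta) ≤ mu := by
    calc 16 / ep ^ 2 * (2 / (eta * k) + 2 * (D : ℝ) / k + tl ep J + ((L : ℝ) + 2) / k +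
        2 * eta) ≤ 16 / ep ^ 2 * B := mul_le_mul_of_nonneg_left hsum (by positivity)
      _ = mu := by
        rw [hB]
        field_simp
  have key := h k r n D L J ⌊eta * r⌋₊ ep eta tau mu F hk1 hr hep hep1 hn hD1 hDk hJL heta0 heta1
    (Nat.floor_le (by positivity)) (Nat.lt_floor_add_one _) (by linarith) (by positivity)
    (by rw [htau]; linarith) (by rw [htau, hmu]; linarith) hmain hU hS hM hF
  have hkr : r + k ≤ n := by
    have h1 : ((r : ℝ) + k) ≤ n := by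
      have h2 : (1 : ℝ) ≤ k := by exact_mod_cast hk1
      have h3 : (r : ℝ) + k ≤ ((r : ℝ) + 1) * k := by nlinarith
      have h4 : ((r : ℝ) + 1) * k ≤ (1 + ep) * (((r : ℝ) + 1) * k) := by
        have : 0 ≤ ((r : ℝ) + 1) * k := by positivity
        nlinarith
      linarith
    exact_mod_cast h1
  have hC : (0 : ℝ) < ((n - k).choose r : ℝ) := by
    exact_mod_cast Nat.choose_pos (by omega)
  have hfin : ((Fo k n F).card : ℝ) / ((n - k).choose r : ℝ) ≤ gam := by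
    refine key.trans ?_
    have h5 : 4 * ((L : ℝ) + 1) / k = 4 * (((L : ℝ) + 1) / k) := by ring
    rw [h5]
    have h6 : 4 * tau + 4 * mu = g / 4 := by
      rw [htau, hmu]
      ring
    have h7 : B ≤ g / 768 := by
      have : mu / 16 = g / 768 := by rw [hmu]; ring
      linarith
    linarith
  rwa [div_le_iff₀ hC] at hfin

end Pool.Agent.EMC
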