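import Pool.Agent.EMC.All.St

open Finset

namespace Pool.Agent.EMC

/-- the tail term is not negative -/
theorem nearA_tl_nonneg {ep : ℝ} (h0 : 0 < ep) (J : ℕ) : 0 ≤ tl ep J := by
  unfold tl
  set c : ℝ := (1 + ep / 2) / (1 + ep) with hc
  have hep : (0 : ℝ) < 1 + ep := by linarith
  have hc0 : 0 < c := by
    rw [hc]
    positivity
  have hc1 : c < 1 := by
    rw [hc, div_lt_one hep]
    linarith
  have hy0 : 0 ≤ yc c := by
    unfold yc
    positivity
  have hy1 : yc c < 1 := by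
    unfold yc
    have h1 : c - 1 + 1 < Real.exp (c - 1) := Real.add_one_lt_exp (by linarith)
    have h2 : Real.exp (c - 1) * Real.exp (1 - c) = 1 := by
      rw [← Real.exp_add]
      simp
    have h3 : 0 < Real.exp (1 - c) := Real.exp_pos _
    nlinarith
  have h4 : 0 < 1 - yc c := by linarith
  positivity

theorem thm_NearA (h1 : St_41) (h2 : St_Ratio) (h3 : St_STAB) : St_NearA := by
  classical
  intro k r n D L J e ep eta mu F w hk hr hep hep1 hn hD hDk hJ heta heta1 he1 he2 hL hmu hF hcard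
    hw hsum hreg
  have hkR : (1 : ℝ) ≤ k := by exact_mod_cast hk
  have hrR : (1 : ℝ) ≤ r := by exact_mod_cast hr
  have hDR : (1 : ℝ) ≤ D := by exact_mod_cast hD
  have hk0 : (0 : ℝ) < k := by linarith
  have hr0 : (0 : ℝ) < r := by linarith
  have he0 : (0 : ℝ) ≤ e := Nat.cast_nonneg _
  have hL0 : (0 : ℝ) ≤ L := Nat.cast_nonneg _
  have hep0 : (0 : ℝ) < 1 + ep := by linarith
  have hrk : (0 : ℝ) < r * k := by positivity
  have hLk : (L : ℝ) + 1 ≤ ep / 8 * k := by
    rwa [div_le_iff₀ hk0] at hL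
  -- comparison of n with r k
  have hepk : ep * k ≤ 1 * k := mul_le_mul_of_nonneg_right hep1 hk0.le
  have hepr : ep * r ≤ 1 * r := mul_le_mul_of_nonneg_right hep1 hr0.le
  have hkr : 1 * (k : ℝ) ≤ r * k := mul_le_mul_of_nonneg_right hrR hk0.le
  have hrk1 : (r : ℝ) * 1 ≤ r * k := mul_le_mul_of_nonneg_left hkR hr0.le
  have hn1 : (r : ℝ) * k + k ≤ n := by
    have h4 : 0 ≤ ep * (((r : ℝ) + 1) * k) := by positivity
    linarith
  have hnrk : (r : ℝ) * k ≤ n := by linarith
  have hn0 : (0 : ℝ) < n := by linarith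
  have hkn : k + L + 1 ≤ n := by
    have h4 : (k : ℝ) + L + 1 ≤ n := by linarith
    exact_mod_cast h4
  have hrn : r ≤ n := by
    have h4 : (r : ℝ) ≤ n := by linarith
    exact_mod_cast h4
  have hn1' : 1 ≤ n := by omega
  set c : ℝ := (1 + ep / 2) / (1 + ep) with hc
  have hc0 : 0 < c := by
    rw [hc]
    positivity
  have hc1 : c < 1 := by
    rw [hc, div_lt_one hep0]
    linarith
  have hR : ((r + e : ℕ) : ℝ) = r + e := by push_cast; ring
  have hR1 : (r : ℝ) + e ≤ (1 + ep / 8) * r := by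
    have h4 : eta * r ≤ ep / 8 * r := mul_le_mul_of_nonneg_right heta1 hr0.le
    linarith
  have hRk : ((r + e : ℕ) : ℝ) * k ≤ c * n := by
    rw [hR]
    have h4 : (1 + ep / 2) * (((r : ℝ) + 1) * k) ≤ c * n := by
      have h5 : (1 + ep / 2) * (((r : ℝ) + 1) * k) = c * ((1 + ep) * (((r : ℝ) + 1) * k)) := by
        rw [hc]
        field_simp
      rw [h5]
      exact mul_le_mul_of_nonneg_left hn hc0.le
    have h5 : ((r : ℝ) + e) * k ≤ (1 + ep / 8) * r * k := mul_le_mul_of_nonneg_right hR1 hk0.le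
    have h6 : 0 ≤ ep * (r * k) := by positivity
    have h7 : 0 ≤ ep * k := by positivity
    linarith
  -- the mean
  set Y : Finset ℕ := Ico 0 n with hY
  have hYc : Y.card = n := by simp [hY]
  have hYne : Y.Nonempty := by
    rw [← Finset.card_pos, hYc]
    omega
  have hYr : Y = range n := by rw [hY, Finset.range_eq_Ico]
  set S : ℝ := ∑ v ∈ Y, w v with hS
  have hS0 : 0 ≤ S := Finset.sum_nonneg fun v _ => hw v
  have hS1 : S ≤ (k : ℝ) + L + 1 := by
    rw [hS, hYr]
    exact hsum n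
  set x : ℝ := S / n with hx
  have hx0 : 0 ≤ x := by rw [hx]; positivity
  have hx1 : x ≤ ((k : ℝ) + L + 1) / n := by
    rw [hx]
    gcongr
  have hRx : (((r + e : ℕ) : ℝ) + 1) * x ≤ 1 - ep / 4 := by
    rw [hR]
    have h4 : ((k : ℝ) + L + 1) ≤ (1 + ep / 8) * k := by linarith
    have h5 : x ≤ (1 + ep / 8) / ((1 + ep) * ((r : ℝ) + 1)) := by
      refine hx1.trans ?_
      rw [div_le_div_iff₀ hn0 (by positivity)]
      calc ((k : ℝ) + L + 1) * ((1 + ep) * ((r : ℝ) + 1))
          ≤ (1 + ep / 8) * k * ((1 + ep) * ((r : ℝ) + 1)) :=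
            mul_le_mul_of_nonneg_right h4 (by positivity)
        _ = (1 + ep / 8) * ((1 + ep) * (((r : ℝ) + 1) * k)) := by ring
        _ ≤ (1 + ep / 8) * n := mul_le_mul_of_nonneg_left hn (by positivity)
    have h6 : (r : ℝ) + e + 1 ≤ (1 + ep / 8) * (r + 1) := by linarith
    calc ((r : ℝ) + e + 1) * x ≤ (1 + ep / 8) * (r + 1) *
          ((1 + ep / 8) / ((1 + ep) * ((r : ℝ) + 1))) :=
          mul_le_mul h6 h5 hx0 (by positivity)
      _ = (1 + ep / 8) ^ 2 / (1 + ep) := by field_simp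
      _ ≤ 1 - ep / 4 := by
        rw [div_le_iff₀ hep0]
        have h7 : ep * ep ≤ ep * 1 := mul_le_mul_of_nonneg_left hep1 hep.le
        linarith
  -- the error
  set E : ℝ := 2 / (eta * k) + 2 * D / k + tl ep J + ((L : ℝ) + 2) / k + 2 * eta with hE
  have htl := nearA_tl_nonneg hep J
  have hE0 : 0 ≤ E := by
    rw [hE]
    positivity
  have hq := h1 k r n D ((L + 1) * D) J e c F w hk hr hrn hc0 hc1 hRk hJ hF hw hreg hcard
  have hrat := h2 k r n L e x hk hrn hkn hn1' hx0 hx1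
  have htl' : yc c ^ (J + 1) / (1 - yc c) = tl ep J := rfl
  rw [htl'] at hq
  have hb1 : (r : ℝ) * (L + 2) / n ≤ ((L : ℝ) + 2) / k := by
    rw [div_le_div_iff₀ hn0 hk0]
    have h4 : (r : ℝ) * k * (L + 2) ≤ n * (L + 2) :=
      mul_le_mul_of_nonneg_right hnrk (by positivity)
    linarith
  have hb2 : (e : ℝ) * (k + L + 1) / n ≤ 2 * eta := by
    rw [div_le_iff₀ hn0]
    have h4 : ((k : ℝ) + L + 1) ≤ 2 * k := by linarith
    calc (e : ℝ) * (k + L + 1) ≤ (eta * r) * (2 * k) :=
          mul_le_mul he1 h4 (by positivity) (by positivity)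
      _ = 2 * eta * (r * k) := by ring
      _ ≤ 2 * eta * n := mul_le_mul_of_nonneg_left hnrk (by positivity)
  have hR2 : (r : ℝ) + e ≤ 2 * r := by linarith
  have hb3 : ((r + e : ℕ) : ℝ) ^ 2 / (2 * n * (e + 1)) ≤ 2 / (eta * k) := by
    rw [hR, div_le_div_iff₀ (by positivity) (by positivity)]
    have h4 : ((r : ℝ) + e) ^ 2 ≤ (2 * r) ^ 2 := by
      apply pow_le_pow_left₀ (by positivity) hR2
    calc ((r : ℝ) + e) ^ 2 * (eta * k) ≤ (2 * r) ^ 2 * (eta * k) :=
          mul_le_mul_of_nonneg_right h4 (by positivity)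
      _ = 2 * (2 * (r * k) * (eta * r)) := by ring
      _ ≤ 2 * (2 * n * (e + 1)) := by
        have h5 : (r : ℝ) * k * (eta * r) ≤ n * (e + 1) :=
          mul_le_mul hnrk he2.le (by positivity) (by positivity)
        linarith
  have hb4 : ((r + e : ℕ) : ℝ) * D / n ≤ 2 * D / k := by
    rw [hR, div_le_div_iff₀ hn0 hk0]
    calc ((r : ℝ) + e) * D * k ≤ 2 * r * D * k := by gcongr
      _ = 2 * D * (r * k) := by ring
      _ ≤ 2 * D * n := mul_le_mul_of_nonneg_left hnrk (by positivity)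
  have hpow : ep / 4 ≤ (1 - x) ^ (r + e) := by
    have h4 := one_add_mul_le_pow (a := -x) (by
      have h5 : x ≤ 1 := by
        have h6 : x ≤ (((r + e : ℕ) : ℝ) + 1) * x := by
          have h7 : (0 : ℝ) ≤ ((r + e : ℕ) : ℝ) * x := by positivity
          linarith
        linarith
      linarith) (r + e)
    rw [← sub_eq_add_neg] at h4
    linarith
  set zeta : ℝ := 4 * E / ep with hzeta
  have hzeta0 : 0 ≤ zeta := by rw [hzeta]; positivity
  have hqS : qS (r + e) Y w ≤ (1 - x) ^ (r + e) * (1 + zeta) := by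
    have h4 : E ≤ (1 - x) ^ (r + e) * zeta := by
      have h5 : ep / 4 * zeta = E := by
        rw [hzeta]
        field_simp
      rw [← h5]
      exact mul_le_mul_of_nonneg_right hpow hzeta0
    have h6 : qS (r + e) Y w ≤ (1 - x) ^ (r + e) + E := by
      rw [hE]
      linarith
    linarith
  obtain ⟨hq0, hM⟩ := h3 (r + e) Y w x zeta (by omega) hYne (fun v _ => hw v) (by
    rw [hYc, hx, ← hS]
    field_simp) (by linarith) hzeta0 hqS
  refine ⟨hq0, ?_⟩
  have hM0 : 0 ≤ MS (r + e) Y w := by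
    unfold MS
    apply ES_nonneg
    intro v _
    split_ifs
    · exact Finset.sum_nonneg fun i _ => hw (v i)
    · exact le_refl _
  have h4 : MS (r + e) Y w * (ep / 4) ≤ zeta * qS (r + e) Y w := by
    refine le_trans ?_ hM
    apply mul_le_mul_of_nonneg_left _ hM0
    linarith
  have h5 : MS (r + e) Y w ≤ 16 / ep ^ 2 * E * qS (r + e) Y w := by
    have h6 : 16 / ep ^ 2 * E * qS (r + e) Y w = 4 / ep * (zeta * qS (r + e) Y w) := by
      rw [hzeta]
      field_simp
      ring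
    rw [h6]
    calc MS (r + e) Y w = 4 / ep * (MS (r + e) Y w * (ep / 4)) := by field_simp
      _ ≤ 4 / ep * (zeta * qS (r + e) Y w) := mul_le_mul_of_nonneg_left h4 (by positivity)
  exact h5.trans (mul_le_mul_of_nonneg_right hmu hq0.le)

end Pool.Agent.EMC
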