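import Pool.Agent.EMC.All.St

/-!
Section 4 of `EMC_all_r.md`: numerical comparison of the two densities.
-/

open Finset

namespace Pool.Agent.EMC

private theorem ratio_choose {N n : ℕ} (h : N ≤ n) : ∀ r : ℕ,
    N.choose r * n ^ r ≤ n.choose r * N ^ r
  | 0 => by simp
  | r + 1 => by
    have ih := ratio_choose h r
    have h1 : (N - r) * n ≤ N * (n - r) := by
      rcases le_or_gt r N with h2 | h2
      · obtain ⟨a, rfl⟩ := Nat.exists_eq_add_of_le h2
        obtain ⟨b, rfl⟩ := Nat.exists_eq_add_of_le h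
        have e1 : r + a - r = a := by omega
        have e2 : r + a + b - r = a + b := by omega
        rw [e1, e2]
        nlinarith
      · have : N - r = 0 := by omega
        rw [this]
        simp
    have h2 : (r + 1) * (N.choose (r + 1) * n ^ (r + 1)) ≤
        (r + 1) * (n.choose (r + 1) * N ^ (r + 1)) := by
      calc (r + 1) * (N.choose (r + 1) * n ^ (r + 1))
          = (N.choose (r + 1) * (r + 1)) * n ^ (r + 1) := by ring
        _ = (N.choose r * (N - r)) * n ^ (r + 1) := by rw [Nat.choose_succ_right_eq]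
        _ = (N.choose r * n ^ r) * ((N - r) * n) := by ring
        _ ≤ (n.choose r * N ^ r) * (N * (n - r)) := Nat.mul_le_mul ih h1
        _ = (n.choose r * (n - r)) * N ^ (r + 1) := by ring
        _ = (n.choose (r + 1) * (r + 1)) * N ^ (r + 1) := by rw [Nat.choose_succ_right_eq]
        _ = (r + 1) * (n.choose (r + 1) * N ^ (r + 1)) := by ring
    exact Nat.le_of_mul_le_mul_left h2 (Nat.succ_pos r)

private theorem ratio_pow {a b : ℝ} (hb : 0 ≤ b) (hab : b ≤ a) (ha : a ≤ 1) : ∀ r : ℕ,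
    a ^ r - b ^ r ≤ r * (a - b)
  | 0 => by simp
  | r + 1 => by
    have ih := ratio_pow hb hab ha r
    have h1 : b ^ r ≤ 1 := pow_le_one₀ hb (hab.trans ha)
    have h2 : 0 ≤ a ^ r - b ^ r := sub_nonneg.mpr (pow_le_pow_left₀ hb hab r)
    have h3 : a * (a ^ r - b ^ r) ≤ a ^ r - b ^ r := by
      nlinarith
    have h4 : b ^ r * (a - b) ≤ a - b := by
      nlinarith [sub_nonneg.mpr hab]
    have h5 : a ^ (r + 1) - b ^ (r + 1) = a * (a ^ r - b ^ r) + b ^ r * (a - b) := by ring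
    rw [h5]
    push_cast
    linarith

theorem thm_Ratio : St_Ratio := by
  intro k r n L e x hk hrn hkn hn hx0 hx
  have hn0 : (0 : ℝ) < n := by exact_mod_cast hn
  have hN : n - (k - 1) ≤ n := Nat.sub_le _ _
  have hNr : ((n - (k - 1) : ℕ) : ℝ) = (n : ℝ) - ((k : ℝ) - 1) := by
    rw [Nat.cast_sub (by omega), Nat.cast_sub hk]
    simp
  set a : ℝ := ((n - (k - 1) : ℕ) : ℝ) / n with ha
  set b : ℝ := 1 - ((k : ℝ) + L + 1) / n with hb
  have hkn' : ((k : ℝ) + L + 1) ≤ n := by exact_mod_cast hkn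
  have hk1 : (1 : ℝ) ≤ k := by exact_mod_cast hk
  have hL0 : (0 : ℝ) ≤ L := Nat.cast_nonneg L
  have hb0 : 0 ≤ b := by
    rw [hb, sub_nonneg, div_le_one hn0]
    exact hkn'
  have hbx : b ≤ 1 - x := by
    rw [hb]
    linarith
  have hab' : a - b = ((L : ℝ) + 2) / n := by
    rw [ha, hb, hNr]
    field_simp
    ring
  have hab : b ≤ a := by
    have : 0 ≤ ((L : ℝ) + 2) / n := by positivity
    linarith
  have ha1 : a ≤ 1 := by
    rw [ha, div_le_one hn0]
    exact_mod_cast hN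
  have h1 : ((n - (k - 1)).choose r : ℝ) / (n.choose r : ℝ) ≤ a ^ r := by
    have hc : (0 : ℝ) < (n.choose r : ℝ) := by exact_mod_cast Nat.choose_pos hrn
    rw [ha, div_pow, div_le_div_iff₀ hc (pow_pos hn0 r)]
    have := ratio_choose hN r
    have h2 : (((n - (k - 1)).choose r * n ^ r : ℕ) : ℝ) ≤
        ((n.choose r * (n - (k - 1)) ^ r : ℕ) : ℝ) := by exact_mod_cast this
    rw [Nat.cast_mul, Nat.cast_mul, Nat.cast_pow, Nat.cast_pow] at h2
    linarith
  have h2 := ratio_pow hb0 hab ha1 r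
  have h3 := ratio_pow hb0 (hab.trans ha1) le_rfl e
  have h4 : b ^ r - b ^ (r + e) ≤ 1 - b ^ e := by
    rw [pow_add]
    have h5 : b ^ r ≤ 1 := pow_le_one₀ hb0 (hab.trans ha1)
    have h6 : b ^ e ≤ 1 := pow_le_one₀ hb0 (hab.trans ha1)
    nlinarith
  have h7 : b ^ (r + e) ≤ (1 - x) ^ (r + e) := pow_le_pow_left₀ hb0 hbx _
  have h8 : 1 - b = ((k : ℝ) + L + 1) / n := by rw [hb]; ring
  rw [one_pow, h8] at h3
  rw [hab'] at h2
  have h9 : (r : ℝ) * (L + 2) / n = r * (((L : ℝ) + 2) / n) := by ring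
  have h10 : (e : ℝ) * (k + L + 1) / n = e * (((k : ℝ) + L + 1) / n) := by ring
  rw [h9, h10]
  linarith

end Pool.Agent.EMC
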