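import Pool.Agent.EMC.All.St

set_option autoImplicit false

open Finset

namespace Pool.Agent.EMC

/-- the coordinates of a continuous linear form -/
private theorem sep_coord {L : ℕ} (f : (Fin L → ℝ) →L[ℝ] ℝ) (z : Fin L → ℝ) :
    f z = ∑ l, f (Pi.single l 1) * z l := by
  have h := LinearMap.pi_apply_eq_sum_univ (f : (Fin L → ℝ) →ₗ[ℝ] ℝ) z
  have h2 : f z = ∑ i, z i • f (fun j => if i = j then 1 else 0) := h
  rw [h2]
  refine Finset.sum_congr rfl fun l _ => ?_
  have e : (fun j => if l = j then (1 : ℝ) else 0) = Pi.single l 1 := by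
    funext j
    by_cases hj : l = j
    · subst hj
      simp
    · rw [if_neg hj, Pi.single_eq_of_ne (Ne.symm hj)]
  rw [e, smul_eq_mul, mul_comm]

theorem thm_Sep : St_Sep := by
  intro L V b hV hb
  rcases V.eq_empty_or_nonempty with hne | hne
  · right
    subst hne
    refine ⟨fun _ => 0, fun _ => le_rfl, ?_, ?_⟩
    · simp
    · intro z hz
      simp at hz
  by_cases h : ∃ w ∈ convexHull ℝ (V : Set (Fin L → ℝ)), ∀ l, w l ≤ b l
  · exact Or.inl h
  right
  have hdisj : Disjoint (Set.Iic b) (convexHull ℝ (V : Set (Fin L → ℝ))) := by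
    rw [Set.disjoint_left]
    intro w hw hw2
    exact h ⟨w, hw2, fun l => hw l⟩
  obtain ⟨f, u, v, h1, huv, h2⟩ := geometric_hahn_banach_closed_compact (convex_Iic b) isClosed_Iic
    (convex_convexHull ℝ (V : Set (Fin L → ℝ))) (V.finite_toSet.isCompact_convexHull (𝕜 := ℝ)) hdisj
  set y : Fin L → ℝ := fun l => f (Pi.single l 1) with hy
  have hf : ∀ z, f z = ∑ l, y l * z l := fun z => sep_coord f z
  have hbu : f b < u := h1 b (Set.mem_Iic.mpr le_rfl)
  have hy0 : ∀ l, 0 ≤ y l := by
    intro l
    by_contra hneg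
    push Not at hneg
    set t : ℝ := (u - f b) / (-y l) with ht
    have ht0 : 0 ≤ t := div_nonneg (by linarith) (by linarith)
    have hmem : b - t • Pi.single l (1 : ℝ) ∈ Set.Iic b := by
      intro i
      rw [Pi.sub_apply, Pi.smul_apply, smul_eq_mul]
      have h3 : 0 ≤ (Pi.single l (1 : ℝ) : Fin L → ℝ) i := by
        by_cases hi : i = l
        · subst hi
          simp
        · rw [Pi.single_eq_of_ne hi]
      nlinarith [mul_nonneg ht0 h3]
    have h3 := h1 _ hmem
    rw [map_sub, map_smul, smul_eq_mul] at h3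
    have h4 : t * f (Pi.single l 1) = -(u - f b) := by
      have hyl : f (Pi.single l 1) = y l := rfl
      rw [hyl, ht]
      have h5 : -y l ≠ 0 := by linarith
      have h6 := div_mul_cancel₀ (u - f b) h5
      linarith
    rw [h4] at h3
    linarith
  have hfb : 0 ≤ f b := by
    rw [hf]
    exact Finset.sum_nonneg fun l _ => mul_nonneg (hy0 l) (hb l)
  have hv0 : 0 < v := by linarith
  refine ⟨fun l => y l / v, fun l => div_nonneg (hy0 l) hv0.le, ?_, ?_⟩
  · have e : ∑ l, y l / v * b l = f b / v := by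
      rw [hf, Finset.sum_div]
      refine Finset.sum_congr rfl fun l _ => ?_
      ring
    rw [e, div_lt_one hv0]
    linarith
  · intro z hz
    have e : ∑ l, y l / v * z l = f z / v := by
      rw [hf, Finset.sum_div]
      refine Finset.sum_congr rfl fun l _ => ?_
      ring
    rw [e, one_le_div hv0]
    exact (h2 z (subset_convexHull ℝ _ hz)).le

end Pool.Agent.EMC
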