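import Pool.Agent.EMC.All.St

/-!
(T1): the fractional cover, from the deadline criterion, separation and rounding.
-/

open Finset

namespace Pool.Agent.EMC

theorem t1_index {D L m : ℕ} (hD : 1 ≤ D) (h1 : D < m) (h2 : m ≤ (L + 1) * D) :
    ∃ l : ℕ, l < L ∧ (l + 1) * D < m ∧ m ≤ (l + 2) * D := by
  set t := (m - 1) / D with ht
  have h3 : t * D ≤ m - 1 := Nat.div_mul_le_self (m - 1) D
  have h4 : m - 1 < (t + 1) * D := by
    rw [mul_comm]
    exact Nat.lt_mul_div_succ (m - 1) (by omega)
  have h5 : 1 ≤ t := by
    rw [ht, Nat.one_le_div_iff (by omega)]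
    omega
  have h6 : t ≤ L := by
    by_contra hc
    push Not at hc
    have h7 : (L + 1) * D ≤ t * D := Nat.mul_le_mul_right D hc
    omega
  refine ⟨t - 1, by omega, ?_, ?_⟩
  · have : t - 1 + 1 = t := by omega
    rw [this]
    omega
  · have : t - 1 + 2 = t + 1 := by omega
    rw [this]
    omega

theorem thm_T1 (hE : St_Edf) (hS : St_Sep) (hC : St_Cara) : St_T1 := by
  classical
  intro k D L F hk hD hsh hno
  set G := F.filter (fun C => Reg k D ((L + 1) * D) C) with hG
  set z : Finset ℕ → (Fin L → ℝ) := fun C l => ((C ∩ range ((l.1 + 2) * D)).card : ℝ) with hz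
  set b : Fin L → ℝ := fun l => ((l.1 : ℝ) + 1) * D / ((k : ℝ) + L + 1) with hb
  have hK : (0 : ℝ) < (k : ℝ) + L + 1 := by positivity
  have hV : ∀ v ∈ G.image z, ∀ l, 0 ≤ v l := by
    intro v hv l
    obtain ⟨C, _, rfl⟩ := Finset.mem_image.1 hv
    simp only [hz]
    positivity
  rcases hS L (G.image z) b hV (fun l => by simp only [hb]; positivity) with
    ⟨w, hw, hwb⟩ | ⟨y, hy0, hyb, hy1⟩
  · exfalso
    obtain ⟨f, hfV, hfb⟩ := hC k L (G.image z) w (fun l => ((l.1 : ℝ) + 1) * D) hV hw (by
      intro l
      have h1 := hwb l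
      simp only [hb] at h1
      rw [le_div_iff₀ hK] at h1
      linarith)
    have hex : ∀ j, ∃ C, C ∈ G ∧ z C = f j := by
      intro j
      obtain ⟨C, h1, h2⟩ := Finset.mem_image.1 (hfV j)
      exact ⟨C, h1, h2⟩
    choose C hCG hCz using hex
    have hCF : ∀ j, C j ∈ F := fun j => (Finset.mem_filter.1 (hCG j)).1
    have hCR : ∀ j, Reg k D ((L + 1) * D) (C j) := fun j => (Finset.mem_filter.1 (hCG j)).2
    refine hE k F C hsh hCF ?_ hno
    intro m
    by_cases h1 : m ≤ D
    · have h2 : ∀ i, (C i ∩ range m).card = 0 := by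
        intro i
        rw [Finset.card_eq_zero, Finset.eq_empty_iff_forall_notMem]
        intro v hv
        rw [Finset.mem_inter, Finset.mem_range] at hv
        have := (hCR i).1 v hv.1
        omega
      simp [h2]
    · push Not at h1
      by_cases h2 : m ≤ (L + 1) * D
      · obtain ⟨l, hl, h3, h4⟩ := t1_index hD h1 h2
        have h5 : ∑ i, (C i ∩ range m).card ≤ ∑ i, (C i ∩ range ((l + 2) * D)).card := by
          refine Finset.sum_le_sum (fun i _ => Finset.card_le_card ?_)
          exact Finset.inter_subset_inter_left (Finset.range_subset_range.2 h4)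
        have h6 : ((∑ i, (C i ∩ range ((l + 2) * D)).card : ℕ) : ℝ) ≤ ((l : ℝ) + 1) * D := by
          have h7 := hfb ⟨l, hl⟩
          push_cast
          refine le_trans (le_of_eq ?_) h7
          refine Finset.sum_congr rfl (fun i _ => ?_)
          rw [← hCz i]
        have h7 : ∑ i, (C i ∩ range ((l + 2) * D)).card ≤ (l + 1) * D := by
          exact_mod_cast h6
        omega
      · push Not at h2
        have h3 : k * ∑ i, (C i ∩ range m).card ≤ k * m := by
          rw [Finset.mul_sum]
          calc ∑ i, k * (C i ∩ range m).card ≤ ∑ _i : Fin k, m :=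
                Finset.sum_le_sum (fun i _ => (hCR i).2 m h2.le)
            _ = k * m := by simp
        exact Nat.le_of_mul_le_mul_left h3 (by omega)
  · refine ⟨fun v => if v < D then 0 else ∑ l : Fin L, if v < (l.1 + 2) * D then y l else 0,
      ?_, ?_, ?_, ?_⟩
    · intro v
      dsimp only
      split_ifs with h
      · exact le_refl _
      · refine Finset.sum_nonneg (fun l _ => ?_)
        split_ifs
        · exact hy0 l
        · exact le_refl _
    · intro u v hu huv
      dsimp only
      rw [if_neg (by omega), if_neg (by omega)]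
      refine Finset.sum_le_sum (fun l _ => ?_)
      by_cases h : v < (l.1 + 2) * D
      · rw [if_pos h, if_pos (by omega)]
      · rw [if_neg h]
        split_ifs
        · exact hy0 l
        · exact le_refl _
    · intro N
      have h1 : ∀ v ∈ range N, (if v < D then (0 : ℝ) else
          ∑ l : Fin L, if v < (l.1 + 2) * D then y l else 0) =
          ∑ l : Fin L, if (D ≤ v ∧ v < (l.1 + 2) * D) then y l else 0 := by
        intro v _
        by_cases h : v < D
        · rw [if_pos h]
          symm
          refine Finset.sum_eq_zero (fun l _ => ?_)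
          rw [if_neg (by omega)]
        · rw [if_neg h]
          refine Finset.sum_congr rfl (fun l _ => ?_)
          by_cases h2 : v < (l.1 + 2) * D
          · rw [if_pos h2, if_pos ⟨by omega, h2⟩]
          · rw [if_neg h2, if_neg (by tauto)]
      rw [Finset.sum_congr rfl h1, Finset.sum_comm]
      have h2 : ∀ l : Fin L, ∑ v ∈ range N, (if (D ≤ v ∧ v < (l.1 + 2) * D) then y l else 0) ≤
          y l * (((l.1 : ℝ) + 1) * D) := by
        intro l
        rw [← Finset.sum_filter, Finset.sum_const, nsmul_eq_mul, mul_comm]
        refine mul_le_mul_of_nonneg_left ?_ (hy0 l)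
        have h3 : ((range N).filter (fun v => D ≤ v ∧ v < (l.1 + 2) * D)).card ≤
            (Ico D ((l.1 + 2) * D)).card := by
          refine Finset.card_le_card (fun v hv => ?_)
          rw [Finset.mem_filter] at hv
          rw [Finset.mem_Ico]
          exact hv.2
        rw [Nat.card_Ico] at h3
        have h4 : (l.1 + 2) * D - D = (l.1 + 1) * D := by
          have : (l.1 + 2) * D = (l.1 + 1) * D + D := by ring
          omega
        rw [h4] at h3
        exact_mod_cast h3
      refine le_trans (Finset.sum_le_sum (fun l _ => h2 l)) ?_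
      have h3 : ∑ l : Fin L, y l * (((l.1 : ℝ) + 1) * D) = ((k : ℝ) + L + 1) * ∑ l, y l * b l := by
        rw [Finset.mul_sum]
        refine Finset.sum_congr rfl (fun l _ => ?_)
        simp only [hb]
        field_simp
      rw [h3]
      nlinarith
    · intro A hA hR
      have hAG : A ∈ G := by
        rw [hG, Finset.mem_filter]
        exact ⟨hA, hR⟩
      have h1 := hy1 (z A) (Finset.mem_image_of_mem z hAG)
      refine le_trans h1 (le_of_eq ?_)
      have h2 : ∀ v ∈ A, (if v < D then (0 : ℝ) else
          ∑ l : Fin L, if v < (l.1 + 2) * D then y l else 0) =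
          ∑ l : Fin L, if v < (l.1 + 2) * D then y l else 0 := by
        intro v hv
        rw [if_neg (by have := hR.1 v hv; omega)]
      rw [Finset.sum_congr rfl h2, Finset.sum_comm]
      refine Finset.sum_congr rfl (fun l _ => ?_)
      rw [← Finset.sum_filter, Finset.sum_const, nsmul_eq_mul, mul_comm]
      simp only [hz]
      congr 2
      congr 1
      ext v
      simp [Finset.mem_filter, Finset.mem_inter]

end Pool.Agent.EMC
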