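import Pool.Agent.EMC.All.Glue
import Pool.Agent.EMC.All.Edf
import Pool.Agent.EMC.All.Sep
import Pool.Agent.EMC.All.Cara
import Pool.Agent.EMC.All.T1
import Pool.Agent.EMC.All.Col
import Pool.Agent.EMC.All.Img
import Pool.Agent.EMC.All.CrowdP
import Pool.Agent.EMC.All.Hit
import Pool.Agent.EMC.All.M41
import Pool.Agent.EMC.All.Ratio
import Pool.Agent.EMC.All.M43
import Pool.Agent.EMC.All.M44
import Pool.Agent.EMC.All.M45
import Pool.Agent.EMC.All.NearA
import Pool.Agent.EMC.All.NearRaw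
import Pool.Agent.EMC.All.Near
import Pool.Agent.EMC.All.L02
import Pool.Agent.EMC.All.MainNat
import Pool.Agent.EMC.All.Main

/-!
Assembly: the Erdős matching conjecture for all `r`, `k ≥ k_0(ε)`, `n ≥ (1+ε)(r+1)k`.
-/

open Finset

namespace Pool.Agent.EMC

theorem thm_Local : St_Local := by
  intro ep h0 h1
  refine ⟨(ep / 2) ^ 3 / 2048, by positivity, ⌈1000 / (ep / 2) ^ 3⌉₊, ?_⟩
  intro k r n hk hr hn hn2 F hF hS hM hv
  have hk' : 1000 / (ep / 2) ^ 3 ≤ (k : ℝ) := (Nat.le_ceil _).trans (by exact_mod_cast hk)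
  refine local_exact_all h0 h1 hr hk' ?_ (by rw [mul_assoc]; exact hn2) hF hS hM ?_
  · rw [mul_assoc]
    exact hn
  · exact hv

theorem thm_Near_all : St_Near :=
  thm_Near (thm_NearRaw (thm_T1 thm_Edf thm_Sep thm_Cara)
    (thm_NearA (thm_41 thm_Hit thm_COL thm_IMG thm_Crowd) thm_Ratio thm_STAB)
    thm_43 thm_44 (thm_45 thm_Hit thm_COL thm_IMG thm_Crowd))

/-- The Erdős matching bound for all `r`, `k ≥ k_0(ε)`, `n ≥ (1+ε)(r+1)k`. -/
theorem main_all : St_MainNat := thm_MainNat thm_Near_all thm_Local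

end Pool.Agent.EMC
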