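import Pool.Agent.EMC.All.ESBasic

/-!
The statements of the modules of sections 1, 2, 3, 4, 6 of `EMC_all_r.md`.
-/

open Finset

namespace Pool.Agent.EMC

/-- The base of the tail estimate. -/
noncomputable def yc (c : ℝ) : ℝ := c * Real.exp (1 - c)

open Classical in
/-- The members of `F` contained in `{k, …, n-1}`. -/
noncomputable def Fo (k n : ℕ) (F : Finset (Finset ℕ)) : Finset (Finset ℕ) :=
  F.filter (fun A => A ⊆ Ico k n)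

/-- `C` lies on the points `≥ D` and is sparse from the point `m` on. -/
def Reg (k D m : ℕ) (C : Finset ℕ) : Prop :=
  (∀ v ∈ C, D ≤ v) ∧ ∀ t, m ≤ t → k * (C ∩ range t).card ≤ t

/-! ### Section 1: duality -/

/-- Earliest deadline first: a shifted family containing sets `C_i` (repetitions allowed) with
`∑ |C_i ∩ [0,m)| ≤ m` for all `m` has `k` pairwise disjoint members. -/
def St_Edf : Prop := ∀ (k : ℕ) (F : Finset (Finset ℕ)) (C : Fin k → Finset ℕ),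
  ShiftedFrom 0 F → (∀ i, C i ∈ F) → (∀ m : ℕ, ∑ i, (C i ∩ range m).card ≤ m) → ¬ NoMatch k F

/-- Separation of a polytope from an orthant. -/
def St_Sep : Prop := ∀ (L : ℕ) (V : Finset (Fin L → ℝ)) (b : Fin L → ℝ),
  (∀ z ∈ V, ∀ l, 0 ≤ z l) → (∀ l, 0 ≤ b l) →
  (∃ w ∈ convexHull ℝ (V : Set (Fin L → ℝ)), ∀ l, w l ≤ b l) ∨
  (∃ y : Fin L → ℝ, (∀ l, 0 ≤ y l) ∧ ∑ l, y l * b l < 1 ∧ ∀ z ∈ V, 1 ≤ ∑ l, y l * z l)

/-- Rounding of a convex combination (Carathéodory). -/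
def St_Cara : Prop := ∀ (k L : ℕ) (V : Finset (Fin L → ℝ)) (w b : Fin L → ℝ),
  (∀ z ∈ V, ∀ l, 0 ≤ z l) → w ∈ convexHull ℝ (V : Set (Fin L → ℝ)) →
  (∀ l, ((k : ℝ) + L + 1) * w l ≤ b l) →
  ∃ f : Fin k → (Fin L → ℝ), (∀ j, f j ∈ V) ∧ ∀ l, ∑ j, f j l ≤ b l

/-- (T1): a fractional cover. -/
def St_T1 : Prop := ∀ (k D L : ℕ) (F : Finset (Finset ℕ)), 1 ≤ k → 1 ≤ D →
  ShiftedFrom 0 F → NoMatch k F →
  ∃ w : ℕ → ℝ, (∀ v, 0 ≤ w v) ∧ (∀ u v, D ≤ u → u ≤ v → w v ≤ w u) ∧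
    (∀ N, ∑ v ∈ range N, w v ≤ (k : ℝ) + L + 1) ∧
    ∀ C ∈ F, Reg k D ((L + 1) * D) C → 1 ≤ ∑ v ∈ C, w v

/-! ### Section 2: identically distributed variables (proved in `Sam.lean`) -/

/-- (STAB). -/
def St_STAB : Prop := ∀ (R : ℕ) (Y : Finset ℕ) (w : ℕ → ℝ) (x zeta : ℝ), 1 ≤ R →
  Y.Nonempty → (∀ v ∈ Y, 0 ≤ w v) → ∑ v ∈ Y, w v = x * Y.card → ((R : ℝ) + 1) * x < 1 →
  0 ≤ zeta → qS R Y w ≤ (1 - x) ^ R * (1 + zeta) →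
  0 < qS R Y w ∧ MS R Y w * (1 - ((R : ℝ) + 1) * x) ≤ zeta * qS R Y w

/-! ### Section 3: subsets of random points -/

/-- (COL): few collisions. -/
def St_COL : Prop := ∀ (r e : ℕ) (Y : Finset ℕ), Y.Nonempty →
  PS (r + e) Y (fun v => (univ.image v).card < r) ≤
    ((r + e : ℕ) : ℝ) ^ 2 / (2 * Y.card * (e + 1))

/-- (IMG). -/
def St_IMG : Prop := ∀ (r R : ℕ) (Y : Finset ℕ) (F : Finset (Finset ℕ)), Unif r Y F →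
  r ≤ Y.card →
  PS R Y (fun v => r ≤ (univ.image v).card) * ((F.card : ℝ) / (Y.card.choose r : ℝ)) ≤
    PS R Y (fun v => Up F (univ.image v))

/-- (TAIL). -/
def St_Crowd : Prop := ∀ (R a n k J : ℕ) (c : ℝ), a < n → 1 ≤ k → 0 < c → c < 1 →
  (R : ℝ) * k ≤ c * ((n : ℝ) - a) →
  PS R (Ico a n) (fun v => Crowd k J v) ≤ yc c ^ (J + 1) / (1 - yc c)

/-! ### Section 4: near star -/

/-- A tuple which is not crowded and contains a member of `F` avoiding the first `D` points has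
weight at least `1`. -/
def St_Hit : Prop := ∀ (k D J R m : ℕ) (F : Finset (Finset ℕ)) (w : ℕ → ℝ)
  (v : Fin R → ℕ), 1 ≤ k → (J + 1) * k ≤ m → (∀ u, 0 ≤ w u) →
  (∀ C ∈ F, Reg k D m C → 1 ≤ ∑ u ∈ C, w u) → Up F (univ.image v) → (∀ i, D ≤ v i) →
  ¬ Crowd k J v → 1 ≤ sw w v

/-- (4.1). -/
def St_41 : Prop := ∀ (k r n D m J e : ℕ) (c : ℝ) (F : Finset (Finset ℕ)) (w : ℕ → ℝ), 1 ≤ k →
  1 ≤ r → r ≤ n → 0 < c → c < 1 → ((r + e : ℕ) : ℝ) * k ≤ c * n → (J + 1) * k ≤ m →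
  Unif r (Ico 0 n) F → (∀ v, 0 ≤ w v) → (∀ C ∈ F, Reg k D m C → 1 ≤ ∑ v ∈ C, w v) →
  n.choose r < F.card + (n - (k - 1)).choose r →
  qS (r + e) (Ico 0 n) w ≤
    ((n - (k - 1)).choose r : ℝ) / (n.choose r : ℝ) +
      ((r + e : ℕ) : ℝ) ^ 2 / (2 * n * (e + 1)) + ((r + e : ℕ) : ℝ) * D / n +
      yc c ^ (J + 1) / (1 - yc c)

/-- Numerical comparison of the two densities. -/
def St_Ratio : Prop := ∀ (k r n L e : ℕ) (x : ℝ), 1 ≤ k → r ≤ n → k + L + 1 ≤ n → 1 ≤ n → 0 ≤ x →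
  x ≤ ((k : ℝ) + L + 1) / n →
  ((n - (k - 1)).choose r : ℝ) / (n.choose r : ℝ) ≤
    (1 - x) ^ (r + e) + (r : ℝ) * (L + 2) / n + (e : ℝ) * (k + L + 1) / n

/-- (4.3): the light points have small total weight. -/
def St_43 : Prop := ∀ (R : ℕ) (Y : Finset ℕ) (w : ℕ → ℝ) (mu tau : ℝ), 1 ≤ R →
  Y.Nonempty → (∀ v, 0 ≤ w v) → 0 < qS R Y w → 0 < tau → tau < 1 → 2 * mu ≤ tau →
  MS R Y w ≤ mu * qS R Y w →
  (R : ℝ) / Y.card * ∑ v ∈ Y with w v ≤ 1 - tau, w v ≤ 2 * mu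

/-- (4.4): the number of heavy points beyond `k`. -/
def St_44 : Prop := ∀ (k n D : ℕ) (B tau : ℝ) (w : ℕ → ℝ), D ≤ k → 0 ≤ tau → tau < 1 →
  (∀ v, 0 ≤ w v) → (∀ u v, D ≤ u → u ≤ v → w v ≤ w u) → (∀ N, ∑ v ∈ range N, w v ≤ B) →
  (k : ℝ) ≤ D + B / (1 - tau) →
  (#{v ∈ Ico k n | 1 - tau < w v} : ℝ) + k ≤ D + B / (1 - tau)

/-- (4.5). -/
def St_45 : Prop := ∀ (k r n D m J e : ℕ) (c tau : ℝ) (F : Finset (Finset ℕ)) (w : ℕ → ℝ),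
  1 ≤ k → 1 ≤ r → k + r ≤ n → D ≤ k → 0 < c → c < 1 →
  ((r + e : ℕ) : ℝ) * k ≤ c * ((n : ℝ) - k) →
  (J + 1) * k ≤ m → Unif r (Ico 0 n) F → (∀ v, 0 ≤ w v) →
  (∀ C ∈ F, Reg k D m C → 1 ≤ ∑ v ∈ C, w v) →
  ((Fo k n F).card : ℝ) / ((n - k).choose r : ℝ) ≤
    ((r + e : ℕ) : ℝ) ^ 2 / (2 * ((n : ℝ) - k) * (e + 1)) + yc c ^ (J + 1) / (1 - yc c) +
      ((r + e : ℕ) : ℝ) / ((n : ℝ) - k) * #{v ∈ Ico k n | 1 - tau < w v} +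
      ((r + e : ℕ) : ℝ) / ((n : ℝ) - k) * ∑ v ∈ Ico k n with w v ≤ 1 - tau, w v

/-- The tail term. -/
noncomputable def tl (ep : ℝ) (J : ℕ) : ℝ :=
  yc ((1 + ep / 2) / (1 + ep)) ^ (J + 1) / (1 - yc ((1 + ep / 2) / (1 + ep)))

/-- Near star, first half: the fractional cover has small light weight. -/
def St_NearA : Prop := ∀ (k r n D L J e : ℕ) (ep eta mu : ℝ) (F : Finset (Finset ℕ))
  (w : ℕ → ℝ),
  1 ≤ k → 1 ≤ r → 0 < ep → ep ≤ 1 → (1 + ep) * (((r : ℝ) + 1) * k) ≤ n →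
  1 ≤ D → D ≤ k → (J + 1) * k ≤ (L + 1) * D →
  0 < eta → eta ≤ ep / 8 → (e : ℝ) ≤ eta * r → eta * r < (e : ℝ) + 1 →
  ((L : ℝ) + 1) / k ≤ ep / 8 →
  16 / ep ^ 2 * (2 / (eta * k) + 2 * D / k + tl ep J + ((L : ℝ) + 2) / k + 2 * eta) ≤ mu →
  Unif r (Ico 0 n) F → n.choose r < F.card + (n - (k - 1)).choose r →
  (∀ v, 0 ≤ w v) → (∀ N, ∑ v ∈ range N, w v ≤ (k : ℝ) + L + 1) →
  (∀ C ∈ F, Reg k D ((L + 1) * D) C → 1 ≤ ∑ v ∈ C, w v) →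
  0 < qS (r + e) (Ico 0 n) w ∧ MS (r + e) (Ico 0 n) w ≤ mu * qS (r + e) (Ico 0 n) w

/-- Near star, with all the parameters. -/
def St_NearRaw : Prop := ∀ (k r n D L J e : ℕ) (ep eta tau mu : ℝ) (F : Finset (Finset ℕ)),
  1 ≤ k → 1 ≤ r → 0 < ep → ep ≤ 1 → (1 + ep) * (((r : ℝ) + 1) * k) ≤ n →
  1 ≤ D → D ≤ k → (J + 1) * k ≤ (L + 1) * D →
  0 < eta → eta ≤ ep / 8 → (e : ℝ) ≤ eta * r → eta * r < (e : ℝ) + 1 →
  ((L : ℝ) + 1) / k ≤ ep / 8 → 0 < tau → tau ≤ 1 / 2 → 2 * mu ≤ tau →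
  16 / ep ^ 2 * (2 / (eta * k) + 2 * D / k + tl ep J + ((L : ℝ) + 2) / k + 2 * eta) ≤ mu →
  Unif r (Ico 0 n) F → ShiftedFrom 0 F → NoMatch k F →
  n.choose r < F.card + (n - (k - 1)).choose r →
  ((Fo k n F).card : ℝ) / ((n - k).choose r : ℝ) ≤
    2 / (eta * k) + tl ep J + 2 * D / k + 4 * tau + 4 * ((L : ℝ) + 1) / k + 4 * mu

/-- Near star. -/
def St_Near : Prop := ∀ ep gam : ℝ, 0 < ep → ep ≤ 1 → 0 < gam → ∃ k0 : ℕ, ∀ k r n : ℕ,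
  k0 ≤ k → 1 ≤ r → (1 + ep) * (((r : ℝ) + 1) * k) ≤ n → ∀ F : Finset (Finset ℕ),
  Unif r (Ico 0 n) F → ShiftedFrom 0 F → NoMatch k F →
  n.choose r < F.card + (n - (k - 1)).choose r →
  ((Fo k n F).card : ℝ) ≤ gam * ((n - k).choose r : ℝ)

/-! ### Section 5: local exactness (architect of the modules: helper97) -/

/-- Local exactness. -/
def St_Local : Prop := ∀ ep : ℝ, 0 < ep → ep ≤ 1 → ∃ gam : ℝ, 0 < gam ∧ ∃ k0 : ℕ,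
  ∀ k r n : ℕ, k0 ≤ k → 2 ≤ r → (1 + ep) * (((r : ℝ) + 1) * k) ≤ n → n ≤ 2 * (k * r) →
  ∀ F : Finset (Finset ℕ), Unif r (Ico 0 n) F → ShiftedFrom 0 F → NoMatch k F →
  ((Fo k n F).card : ℝ) ≤ gam * ((n - k).choose r : ℝ) →
  F.card + (n - (k - 1)).choose r ≤ n.choose r

/-! ### Section 6: the theorem -/

/-- The theorem for families of finite sets of naturals. -/
def St_MainNat : Prop := ∀ ep : ℝ, 0 < ep → ∃ k0 : ℕ, 1 ≤ k0 ∧ ∀ k r n : ℕ, k0 ≤ k → 1 ≤ r →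
  (1 + ep) * (((r : ℝ) + 1) * k) ≤ n → ∀ F : Finset (Finset ℕ), Unif r (Ico 0 n) F →
  NoMatch k F → F.card + (n - (k - 1)).choose r ≤ n.choose r

end Pool.Agent.EMC
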