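import Pool.Agent.EMC.All.Sam
import Pool.Agent.EMC.All.St

/-!
Glue: the stability statement in the form used in section 4.
-/

open Finset

namespace Pool.Agent.EMC

theorem thm_STAB : St_STAB := by
  intro R Y w x zeta hR hY hw hx hx1 h0 hq
  exact ⟨(sam hR hY hw hx hx1).1, by simpa using stab hR hY hw hx hx1 h0 hq⟩

end Pool.Agent.EMC
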