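import Pool.Agent.EMC.All.Defs

open Finset

namespace Pool.Agent.EMC

/-- Ordered disjoint pairs of `w`-subsets, in both orders. -/
theorem k01_mem_iff {w : ℕ} {Z B T : Finset ℕ} :
    B ∈ Z.powersetCard w ∧ T ∈ (Z \ B).powersetCard w ↔
      B ∈ (Z \ T).powersetCard w ∧ T ∈ Z.powersetCard w := by
  simp only [Finset.mem_powersetCard, Finset.subset_sdiff]
  constructor
  · rintro ⟨⟨h1, h2⟩, ⟨h3, h4⟩, h5⟩
    exact ⟨⟨⟨h1, h4.symm⟩, h2⟩, h3, h5⟩
  · rintro ⟨⟨⟨h1, h4⟩, h2⟩, h3, h5⟩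
    exact ⟨⟨h1, h2⟩, ⟨h3, h4.symm⟩, h5⟩

/-- The Kneser operator is symmetric. -/
theorem kn_symm {w : ℕ} {Z : Finset ℕ} (f g : Finset ℕ → ℝ) :
    ∑ B ∈ Z.powersetCard w, f B * Kn w Z g B = ∑ B ∈ Z.powersetCard w, Kn w Z f B * g B := by
  have h1 : ∑ B ∈ Z.powersetCard w, f B * Kn w Z g B =
      ∑ B ∈ Z.powersetCard w, ∑ T ∈ (Z \ B).powersetCard w,
        f B * g T / ((Z.card - w).choose w : ℝ) := by
    refine Finset.sum_congr rfl fun B _ => ?_
    rw [Kn, ← mul_div_assoc, Finset.mul_sum, Finset.sum_div]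
  have h2 : ∑ B ∈ Z.powersetCard w, Kn w Z f B * g B =
      ∑ B ∈ Z.powersetCard w, ∑ T ∈ (Z \ B).powersetCard w,
        f T * g B / ((Z.card - w).choose w : ℝ) := by
    refine Finset.sum_congr rfl fun B _ => ?_
    rw [Kn, div_mul_eq_mul_div, Finset.sum_mul, Finset.sum_div]
  rw [h1, h2]
  exact Finset.sum_comm' fun B T => k01_mem_iff

/-- The Kneser operator preserves constants. -/
theorem kn_const {w : ℕ} {Z : Finset ℕ} (h : 2 * w ≤ Z.card) (c : ℝ) {B : Finset ℕ}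
    (hB : B ∈ Z.powersetCard w) : Kn w Z (fun _ => c) B = c := by
  have hB' := Finset.mem_powersetCard.mp hB
  have hc : (Z \ B).card = Z.card - w := by
    rw [Finset.card_sdiff_of_subset hB'.1, hB'.2]
  have hpos : (0 : ℝ) < ((Z.card - w).choose w : ℝ) := by
    have : 0 < (Z.card - w).choose w := Nat.choose_pos (by omega)
    exact_mod_cast this
  rw [Kn, Finset.sum_const, Finset.card_powersetCard, hc, nsmul_eq_mul]
  exact mul_div_cancel_left₀ c hpos.ne'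

/-- The Kneser operator preserves the sum. -/
theorem kn_sum {w : ℕ} {Z : Finset ℕ} (h : 2 * w ≤ Z.card) (f : Finset ℕ → ℝ) :
    ∑ B ∈ Z.powersetCard w, Kn w Z f B = ∑ B ∈ Z.powersetCard w, f B := by
  have h1 : ∑ B ∈ Z.powersetCard w, Kn w Z f B =
      ∑ B ∈ Z.powersetCard w, Kn w Z f B * (fun _ : Finset ℕ => (1 : ℝ)) B :=
    Finset.sum_congr rfl fun B _ => (mul_one _).symm
  rw [h1, ← kn_symm f (fun _ => (1 : ℝ))]
  refine Finset.sum_congr rfl fun B hB => ?_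
  rw [kn_const h 1 hB, mul_one]

end Pool.Agent.EMC
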