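import Pool.Agent.EMC.All.Defs

open Finset

namespace Pool.Agent.EMC

theorem k02_sum {w : ℕ} {V : Finset ℕ} {y : ℕ} (hy : y ∉ V) (f : Finset ℕ → ℝ) :
    ∑ T ∈ (insert y V).powersetCard (w + 1), f T =
      ∑ T ∈ V.powersetCard (w + 1), f T + ∑ S ∈ V.powersetCard w, f (insert y S) := by
  rw [Finset.powersetCard_succ_insert hy, Finset.sum_union]
  · congr 1
    rw [Finset.sum_image]
    intro S hS S' hS' h
    have h1 : y ∉ S := fun h2 => hy ((Finset.mem_powersetCard.1 (Finset.mem_coe.1 hS)).1 h2)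
    have h2 : y ∉ S' := fun h2 => hy ((Finset.mem_powersetCard.1 (Finset.mem_coe.1 hS')).1 h2)
    have h3 : (insert y S).erase y = (insert y S').erase y := congrArg (fun T => T.erase y) h
    rw [Finset.erase_insert h1, Finset.erase_insert h2] at h3
    exact h3
  · rw [Finset.disjoint_left]
    intro T hT hT'
    obtain ⟨S, _, rfl⟩ := Finset.mem_image.1 hT'
    exact hy ((Finset.mem_powersetCard.1 hT).1 (Finset.mem_insert_self y S))

theorem k02_num {v u a b c : ℝ} (hv : 0 < v + 1) (h : (v + 1) * a = b * (u + 1)) :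
    a * c = (u + 1) / (v + 1) * c * b := by
  rw [div_mul_eq_mul_div, div_mul_eq_mul_div, eq_div_iff hv.ne']
  linear_combination c * h

/-- The Kneser operator contracts the oscillation by the factor `w / (|Z| - w)`. -/
theorem kn_osc {w : ℕ} {Z : Finset ℕ} (hw : 1 ≤ w) (h : 2 * w ≤ Z.card) {f : Finset ℕ → ℝ}
    {c : ℝ} (hc : 0 ≤ c)
    (hf : ∀ B ∈ Z.powersetCard w, ∀ x ∈ B, ∀ y ∈ Z, y ∉ B →
      |f B - f (insert y (B.erase x))| ≤ c) :
    ∀ B ∈ Z.powersetCard w, ∀ x ∈ B, ∀ y ∈ Z, y ∉ B →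
      |Kn w Z f B - Kn w Z f (insert y (B.erase x))| ≤ (w : ℝ) / ((Z.card : ℝ) - w) * c := by
  intro B hB x hx y hyZ hyB
  obtain ⟨u, rfl⟩ : ∃ u, w = u + 1 := ⟨w - 1, by omega⟩
  obtain ⟨hBZ, hBc⟩ := Finset.mem_powersetCard.1 hB
  have hxZ : x ∈ Z := hBZ hx
  have hxy : x ≠ y := fun h1 => hyB (h1 ▸ hx)
  set V := (Z \ B).erase y with hV
  have hyU : y ∈ Z \ B := Finset.mem_sdiff.2 ⟨hyZ, hyB⟩
  have hU : Z \ B = insert y V := (Finset.insert_erase hyU).symm
  have hxU : x ∉ Z \ B := fun h1 => (Finset.mem_sdiff.1 h1).2 hx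
  have hxV : x ∉ V := fun h1 => hxU (Finset.mem_of_mem_erase h1)
  have hyV : y ∉ V := Finset.notMem_erase y _
  have hU' : Z \ (insert y (B.erase x)) = insert x V := by
    ext z
    rw [Finset.mem_sdiff, Finset.mem_insert, Finset.mem_erase, Finset.mem_insert, hV,
      Finset.mem_erase, Finset.mem_sdiff]
    constructor
    · rintro ⟨h1, h2⟩
      by_cases hzx : z = x
      · exact Or.inl hzx
      · right
        refine ⟨fun h3 => h2 (Or.inl h3), h1, fun h3 => h2 (Or.inr ⟨hzx, h3⟩)⟩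
    · rintro (rfl | ⟨h1, h2, h3⟩)
      · refine ⟨hxZ, ?_⟩
        rintro (h1 | ⟨h1, _⟩)
        · exact hxy h1
        · exact h1 rfl
      · refine ⟨h2, ?_⟩
        rintro (h4 | ⟨_, h4⟩)
        · exact h1 h4
        · exact h3 h4
  have hVZ : V ⊆ Z := fun z hz => (Finset.mem_sdiff.1 (Finset.mem_of_mem_erase hz)).1
  have hVc : V.card + 1 = Z.card - (u + 1) := by
    have h1 : (Z \ B).card = Z.card - (u + 1) := by
      rw [Finset.card_sdiff_of_subset hBZ, hBc]
    rw [hU, Finset.card_insert_of_notMem hyV] at h1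
    exact h1
  have hterm : ∀ S ∈ V.powersetCard u, |f (insert y S) - f (insert x S)| ≤ c := by
    intro S hS
    obtain ⟨h1, h2⟩ := Finset.mem_powersetCard.1 hS
    have hyS : y ∉ S := fun h3 => hyV (h1 h3)
    have hxS : x ∉ S := fun h3 => hxV (h1 h3)
    have h4 := hf (insert y S) (Finset.mem_powersetCard.2
      ⟨Finset.insert_subset hyZ (h1.trans hVZ), by rw [Finset.card_insert_of_notMem hyS, h2]⟩)
      y (Finset.mem_insert_self y S) x hxZ (by
        rw [Finset.mem_insert]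
        rintro (h5 | h5)
        · exact hxy h5
        · exact hxS h5)
    rw [Finset.erase_insert hyS] at h4
    exact h4
  have hdiff : |∑ T ∈ (Z \ B).powersetCard (u + 1), f T -
      ∑ T ∈ (Z \ (insert y (B.erase x))).powersetCard (u + 1), f T| ≤
      (V.card.choose u : ℝ) * c := by
    rw [hU, hU', k02_sum hyV, k02_sum hxV, add_sub_add_left_eq_sub, ← Finset.sum_sub_distrib]
    refine (Finset.abs_sum_le_sum_abs _ _).trans ?_
    refine (Finset.sum_le_sum hterm).trans ?_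
    rw [Finset.sum_const, Finset.card_powersetCard, nsmul_eq_mul]
  have hN : (Z.card - (u + 1)) = V.card + 1 := hVc.symm
  have hle : u + 1 ≤ V.card + 1 := by omega
  have hch : (0 : ℝ) < ((V.card + 1).choose (u + 1) : ℝ) := by
    exact_mod_cast Nat.choose_pos hle
  have hZ : ((Z.card : ℝ) - ((u + 1 : ℕ) : ℝ)) = (V.card : ℝ) + 1 := by
    have h1 : Z.card = V.card + 1 + (u + 1) := by omega
    rw [h1]
    push_cast
    ring
  have hid : ((V.card : ℝ) + 1) * (V.card.choose u : ℝ) =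
      ((V.card + 1).choose (u + 1) : ℝ) * ((u : ℝ) + 1) := by
    have h1 := Nat.add_one_mul_choose_eq V.card u
    exact_mod_cast h1
  unfold Kn
  rw [hN, ← sub_div, abs_div, abs_of_pos hch, div_le_iff₀ hch, hZ]
  refine hdiff.trans (le_of_eq ?_)
  have hV0 : (0 : ℝ) < (V.card : ℝ) + 1 := by
    have h1 : (0 : ℝ) ≤ (V.card : ℝ) := Nat.cast_nonneg _
    linarith
  rw [Nat.cast_add, Nat.cast_one]
  exact k02_num hV0 hid

end Pool.Agent.EMC
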