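import Pool.Agent.EMC.All.Defs

open Finset

namespace Pool.Agent.EMC

theorem k03_dist {w : ℕ} {Z : Finset ℕ} {f : Finset ℕ → ℝ} {c : ℝ}
    (hf : ∀ B ∈ Z.powersetCard w, ∀ x ∈ B, ∀ y ∈ Z, y ∉ B →
      |f B - f (insert y (B.erase x))| ≤ c) (n : ℕ) :
    ∀ B ∈ Z.powersetCard w, ∀ B' ∈ Z.powersetCard w, (B \ B').card = n →
      |f B - f B'| ≤ n * c := by
  induction n with
  | zero =>
    intro B hB B' hB' h
    have h1 : B ⊆ B' := by
      rw [Finset.card_eq_zero, Finset.sdiff_eq_empty_iff_subset] at h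
      exact h
    have h2 : B = B' := Finset.eq_of_subset_of_card_le h1 (by
      rw [(Finset.mem_powersetCard.1 hB).2, (Finset.mem_powersetCard.1 hB').2])
    rw [h2]
    simp
  | succ n ih =>
    intro B hB B' hB' h
    obtain ⟨hBZ, hBc⟩ := Finset.mem_powersetCard.1 hB
    obtain ⟨hBZ', hBc'⟩ := Finset.mem_powersetCard.1 hB'
    have hx : (B \ B').Nonempty := by
      rw [← Finset.card_pos, h]
      omega
    obtain ⟨x, hx⟩ := hx
    have hy : (B' \ B).Nonempty := by
      rw [← Finset.card_pos, Finset.card_sdiff_comm (hBc'.trans hBc.symm), h]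
      omega
    obtain ⟨y, hy⟩ := hy
    rw [Finset.mem_sdiff] at hx hy
    have hcard : (insert y (B.erase x)).card = w := by
      rw [Finset.card_insert_of_notMem (fun hh => hy.2 (Finset.mem_of_mem_erase hh)),
        Finset.card_erase_of_mem hx.1, hBc]
      have : 0 < B.card := Finset.card_pos.2 ⟨x, hx.1⟩
      omega
    have hB1 : insert y (B.erase x) ∈ Z.powersetCard w := by
      refine Finset.mem_powersetCard.2 ⟨?_, hcard⟩
      intro z hz
      rcases Finset.mem_insert.1 hz with rfl | hz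
      · exact hBZ' hy.1
      · exact hBZ (Finset.mem_of_mem_erase hz)
    have hsd : insert y (B.erase x) \ B' = (B \ B').erase x := by
      ext z
      simp only [Finset.mem_sdiff, Finset.mem_insert, Finset.mem_erase]
      constructor
      · rintro ⟨rfl | ⟨h1, h2⟩, h3⟩
        · exact absurd hy.1 h3
        · exact ⟨h1, h2, h3⟩
      · rintro ⟨h1, h2, h3⟩
        exact ⟨Or.inr ⟨h1, h2⟩, h3⟩
    have h1 := ih _ hB1 B' hB' (by
      rw [hsd, Finset.card_erase_of_mem (Finset.mem_sdiff.2 hx), h]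
      omega)
    have h2 := hf B hB x hx.1 y (hBZ' hy.1) hy.2
    calc |f B - f B'| = |(f B - f (insert y (B.erase x))) + (f (insert y (B.erase x)) - f B')| := by
          congr 1
          ring
      _ ≤ c + n * c := (abs_add_le _ _).trans (add_le_add h2 h1)
      _ = ((n + 1 : ℕ) : ℝ) * c := by
          push_cast
          ring

/-- A function of sum zero with small oscillation is small. -/
theorem osc_bound {w : ℕ} {Z : Finset ℕ} {f : Finset ℕ → ℝ} {c : ℝ} (hc : 0 ≤ c)
    (hf : ∀ B ∈ Z.powersetCard w, ∀ x ∈ B, ∀ y ∈ Z, y ∉ B →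
      |f B - f (insert y (B.erase x))| ≤ c)
    (h0 : ∑ B ∈ Z.powersetCard w, f B = 0) :
    ∀ B ∈ Z.powersetCard w, |f B| ≤ w * c := by
  intro B hB
  have hd : ∀ B' ∈ Z.powersetCard w, |f B - f B'| ≤ w * c := by
    intro B' hB'
    refine (k03_dist hf _ B hB B' hB' rfl).trans (mul_le_mul_of_nonneg_right ?_ hc)
    have : (B \ B').card ≤ B.card := Finset.card_le_card Finset.sdiff_subset
    rw [(Finset.mem_powersetCard.1 hB).2] at this
    exact_mod_cast this
  have hN : (0 : ℝ) < (Z.powersetCard w).card := by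
    exact_mod_cast Finset.card_pos.2 ⟨B, hB⟩
  have h1 : ((Z.powersetCard w).card : ℝ) * f B = ∑ B' ∈ Z.powersetCard w, (f B - f B') := by
    rw [Finset.sum_sub_distrib, h0, Finset.sum_const, nsmul_eq_mul, sub_zero]
  have h2 : ((Z.powersetCard w).card : ℝ) * |f B| ≤
      ((Z.powersetCard w).card : ℝ) * (w * c) := by
    calc ((Z.powersetCard w).card : ℝ) * |f B| = |((Z.powersetCard w).card : ℝ) * f B| := by
          rw [abs_mul, abs_of_pos hN]
      _ ≤ ∑ B' ∈ Z.powersetCard w, |f B - f B'| := by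
          rw [h1]
          exact Finset.abs_sum_le_sum_abs _ _
      _ ≤ ∑ _B' ∈ Z.powersetCard w, (w * c : ℝ) := Finset.sum_le_sum hd
      _ = ((Z.powersetCard w).card : ℝ) * (w * c) := by
          rw [Finset.sum_const, nsmul_eq_mul]
  exact le_of_mul_le_mul_left h2 hN

end Pool.Agent.EMC
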