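import Mathlib

namespace Pool.Agent.EMC

/-- A log-convex sequence bounded by a geometric one decreases at least geometrically at the
first step. -/
theorem logconvex_decay (b : ℕ → ℝ) (hb : ∀ j, 0 ≤ b j)
    (hlc : ∀ j, b (j + 1) ^ 2 ≤ b j * b (j + 2)) {C μ : ℝ} (hμ : 0 ≤ μ)
    (hC : ∀ j, b j ≤ C * μ ^ j) : b 1 ≤ μ * b 0 := by
  rcases (hb 0).eq_or_lt with h0 | h0
  · have h1 := hlc 0
    rw [← h0, zero_mul, zero_add] at h1
    have h2 : b 1 = 0 := by nlinarith [hb 1]
    rw [h2, ← h0, mul_zero]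
  · by_contra h
    push Not at h
    have h1 : 0 < b 1 := lt_of_le_of_lt (mul_nonneg hμ h0.le) h
    have hP : ∀ j, 0 < b j ∧ b 1 * b j ≤ b 0 * b (j + 1) := by
      intro j
      induction j with
      | zero => exact ⟨h0, by rw [zero_add, mul_comm]⟩
      | succ j ih =>
        obtain ⟨hj, hle⟩ := ih
        have hj1 : 0 < b (j + 1) := by
          by_contra hn
          have h2 : b (j + 1) = 0 := le_antisymm (not_lt.1 hn) (hb _)
          rw [h2, mul_zero] at hle
          exact absurd (mul_pos h1 hj) (not_lt.2 hle)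
        refine ⟨hj1, ?_⟩
        have h3 : b j * (b 1 * b (j + 1)) ≤ b j * (b 0 * b (j + 1 + 1)) := by
          calc b j * (b 1 * b (j + 1)) = (b 1 * b j) * b (j + 1) := by ring
            _ ≤ (b 0 * b (j + 1)) * b (j + 1) := mul_le_mul_of_nonneg_right hle hj1.le
            _ = b 0 * b (j + 1) ^ 2 := by ring
            _ ≤ b 0 * (b j * b (j + 2)) := mul_le_mul_of_nonneg_left (hlc j) h0.le
            _ = b j * (b 0 * b (j + 1 + 1)) := by ring
        exact le_of_mul_le_mul_left h3 hj
    have hG : ∀ j, (b 1 / b 0) ^ j * b 0 ≤ b j := by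
      intro j
      induction j with
      | zero => simp
      | succ j ih =>
        have h2 : b 1 / b 0 * b j ≤ b (j + 1) := by
          rw [div_mul_eq_mul_div, div_le_iff₀ h0, mul_comm (b (j + 1))]
          exact (hP j).2
        calc (b 1 / b 0) ^ (j + 1) * b 0 = b 1 / b 0 * ((b 1 / b 0) ^ j * b 0) := by ring
          _ ≤ b 1 / b 0 * b j := mul_le_mul_of_nonneg_left ih (div_nonneg h1.le h0.le)
          _ ≤ b (j + 1) := h2
    rcases hμ.eq_or_lt with hm | hm
    · have := hC 1
      rw [← hm, pow_one, mul_zero] at this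
      exact absurd h1 (not_lt.2 this)
    · have hr : 1 < b 1 / b 0 / μ := by
        rw [lt_div_iff₀ hm, lt_div_iff₀ h0, one_mul]
        exact h
      obtain ⟨n, hn⟩ := pow_unbounded_of_one_lt (C / b 0) hr
      have h4 : (b 1 / b 0) ^ n * b 0 ≤ C * μ ^ n := (hG n).trans (hC n)
      have h5 : (b 1 / b 0 / μ) ^ n ≤ C / b 0 := by
        rw [div_pow, div_le_div_iff₀ (pow_pos hm n) h0]
        exact h4
      exact absurd hn (not_lt.2 h5)

end Pool.Agent.EMC
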