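import Pool.Agent.EMC.All.K01
import Pool.Agent.EMC.All.K02
import Pool.Agent.EMC.All.K03
import Pool.Agent.EMC.All.K04

open Finset

namespace Pool.Agent.EMC

/-- Swapping a point stays among the `w`-subsets. -/
theorem k05_swap_mem {w : ℕ} {Z B : Finset ℕ} (hB : B ∈ Z.powersetCard w) {x y : ℕ} (hx : x ∈ B)
    (hy : y ∈ Z) (hyB : y ∉ B) : insert y (B.erase x) ∈ Z.powersetCard w := by
  rw [Finset.mem_powersetCard] at hB ⊢
  refine ⟨?_, ?_⟩
  · intro z hz
    rcases Finset.mem_insert.1 hz with rfl | hz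
    · exact hy
    · exact hB.1 (Finset.mem_of_mem_erase hz)
  · have h1 : y ∉ B.erase x := fun h => hyB (Finset.mem_of_mem_erase h)
    rw [Finset.card_insert_of_notMem h1, Finset.card_erase_of_mem hx]
    have h2 : 0 < B.card := Finset.card_pos.2 ⟨x, hx⟩
    omega

/-- The norm of the Kneser operator on the functions of sum zero. -/
theorem kn_norm {w : ℕ} {Z : Finset ℕ} (hw : 1 ≤ w) (h : 2 * w ≤ Z.card) {f : Finset ℕ → ℝ}
    (h0 : ∑ B ∈ Z.powersetCard w, f B = 0) :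
    ∑ B ∈ Z.powersetCard w, Kn w Z f B ^ 2 ≤
      ((w : ℝ) / ((Z.card : ℝ) - w)) ^ 2 * ∑ B ∈ Z.powersetCard w, f B ^ 2 := by
  classical
  set lam : ℝ := (w : ℝ) / ((Z.card : ℝ) - w) with hlam
  have hZw : (0 : ℝ) < (Z.card : ℝ) - w := by
    have h1 : (2 * w : ℝ) ≤ (Z.card : ℝ) := by exact_mod_cast h
    have h2 : (1 : ℝ) ≤ (w : ℝ) := by exact_mod_cast hw
    linarith
  have hlam0 : 0 ≤ lam := div_nonneg (Nat.cast_nonneg w) hZw.le
  set P := Z.powersetCard w with hP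
  set c : ℝ := 2 * ∑ B ∈ P, |f B| with hc
  have hc0 : 0 ≤ c := mul_nonneg (by norm_num) (Finset.sum_nonneg fun B _ => abs_nonneg _)
  set g : ℕ → Finset ℕ → ℝ := fun j => (Kn w Z)^[j] f with hg
  have hg0 : g 0 = f := rfl
  have hgs : ∀ j, g (j + 1) = Kn w Z (g j) := by
    intro j
    simp only [hg, Function.iterate_succ_apply']
  have hosc : ∀ j, ∀ B ∈ P, ∀ x ∈ B, ∀ y ∈ Z, y ∉ B →
      |g j B - g j (insert y (B.erase x))| ≤ lam ^ j * c := by
    intro j
    induction j with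
    | zero =>
      intro B hB x hx y hy hyB
      have h1 : |f B| ≤ ∑ B ∈ P, |f B| :=
        Finset.single_le_sum (f := fun B => |f B|) (fun B _ => abs_nonneg _) hB
      have h2 : |f (insert y (B.erase x))| ≤ ∑ B ∈ P, |f B| :=
        Finset.single_le_sum (f := fun B => |f B|) (fun B _ => abs_nonneg _)
          (k05_swap_mem hB hx hy hyB)
      have h3 := abs_sub (f B) (f (insert y (B.erase x)))
      rw [hg0, pow_zero, one_mul, hc]
      linarith
    | succ j ih =>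
      intro B hB x hx y hy hyB
      have h1 := kn_osc hw h (mul_nonneg (pow_nonneg hlam0 j) hc0) ih B hB x hx y hy hyB
      rw [hgs, pow_succ]
      rw [← hlam] at h1
      linarith
  have hsum : ∀ j, ∑ B ∈ P, g j B = 0 := by
    intro j
    induction j with
    | zero => exact h0
    | succ j ih => rw [hgs, kn_sum h]; exact ih
  have hbd : ∀ j, ∀ B ∈ P, |g j B| ≤ w * (lam ^ j * c) := fun j =>
    osc_bound (mul_nonneg (pow_nonneg hlam0 j) hc0) (hosc j) (hsum j)
  have key := logconvex_decay (fun j => ∑ B ∈ P, g j B ^ 2)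
    (fun j => Finset.sum_nonneg fun B _ => sq_nonneg _) ?_ (C := (P.card : ℝ) * (w * c) ^ 2)
    (μ := lam ^ 2) (sq_nonneg _) ?_
  · simpa [hgs, hg0] using key
  · intro j
    have h1 : ∑ B ∈ P, g (j + 1) B ^ 2 = ∑ B ∈ P, g j B * g (j + 2) B := by
      rw [hgs (j + 1), hP, kn_symm (g j) (g (j + 1)), ← hgs j]
      exact Finset.sum_congr rfl fun B _ => by ring
    rw [h1]
    exact Finset.sum_mul_sq_le_sq_mul_sq P (g j) (g (j + 2))
  · intro j
    have h1 : ∀ B ∈ P, g j B ^ 2 ≤ (w * (lam ^ j * c)) ^ 2 := by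
      intro B hB
      rw [← sq_abs (g j B)]
      exact pow_le_pow_left₀ (abs_nonneg _) (hbd j B hB) 2
    calc ∑ B ∈ P, g j B ^ 2 ≤ ∑ _B ∈ P, ((w : ℝ) * (lam ^ j * c)) ^ 2 := Finset.sum_le_sum h1
      _ = (P.card : ℝ) * (w * c) ^ 2 * (lam ^ 2) ^ j := by
        rw [Finset.sum_const, nsmul_eq_mul]
        ring

end Pool.Agent.EMC
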