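import Pool.Agent.EMC.All.St

open Finset

namespace Pool.Agent.EMC

theorem thm_NearRaw (h0 : St_T1) (h1 : St_NearA) (h2 : St_43) (h3 : St_44) (h4 : St_45) :
    St_NearRaw := by
  classical
  intro k r n D L J e ep eta tau mu F hk hr hep hep1 hn hD hDk hJ heta heta1 he1 he2 hL htau htau1
    hmt hmu hF hsh hnm hcard
  obtain ⟨w, hw, hmono, hsum, hcov⟩ := h0 k D L F hk hD hsh hnm
  obtain ⟨hq, hM⟩ := h1 k r n D L J e ep eta mu F w hk hr hep hep1 hn hD hDk hJ heta heta1 he1 he2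
    hL hmu hF hcard hw hsum hcov
  have hkR : (1 : ℝ) ≤ k := by exact_mod_cast hk
  have hrR : (1 : ℝ) ≤ r := by exact_mod_cast hr
  have hk0 : (0 : ℝ) < k := by linarith
  have hr0 : (0 : ℝ) < r := by linarith
  have he0 : (0 : ℝ) ≤ e := Nat.cast_nonneg _
  have hL0 : (0 : ℝ) ≤ L := Nat.cast_nonneg _
  have hD0 : (0 : ℝ) ≤ D := Nat.cast_nonneg _
  have hep0 : (0 : ℝ) < 1 + ep := by linarith
  have hrk : (0 : ℝ) < r * k := by positivity
  have hepr : ep * r ≤ 1 * r := mul_le_mul_of_nonneg_right hep1 hr0.le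
  have hkr : 1 * (k : ℝ) ≤ r * k := mul_le_mul_of_nonneg_right hrR hk0.le
  have hrk1 : (r : ℝ) * 1 ≤ r * k := mul_le_mul_of_nonneg_left hkR hr0.le
  have hn1 : (1 + ep) * ((r : ℝ) * k) ≤ n - k := by
    have h5 : 0 ≤ ep * (k : ℝ) := by positivity
    linarith
  have hnk : (r : ℝ) * k ≤ n - k := by
    have h5 : 0 ≤ ep * ((r : ℝ) * k) := by positivity
    linarith
  have hnk0 : (0 : ℝ) < n - k := by linarith
  have hn0 : (0 : ℝ) < n := by linarith
  have hkrn : k + r ≤ n := by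
    have h5 : (k : ℝ) + r ≤ n := by linarith
    exact_mod_cast h5
  set c : ℝ := (1 + ep / 2) / (1 + ep) with hc
  have hc0 : 0 < c := by
    rw [hc]
    positivity
  have hc1 : c < 1 := by
    rw [hc, div_lt_one hep0]
    linarith
  have hR : ((r + e : ℕ) : ℝ) = r + e := by push_cast; ring
  have hR1 : (r : ℝ) + e ≤ (1 + ep / 8) * r := by
    have h5 : eta * r ≤ ep / 8 * r := mul_le_mul_of_nonneg_right heta1 hr0.le
    linarith
  have hR2 : (r : ℝ) + e ≤ 2 * r := by linarith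
  have hRk : ((r + e : ℕ) : ℝ) * k ≤ c * ((n : ℝ) - k) := by
    rw [hR]
    have h5 : (1 + ep / 2) * ((r : ℝ) * k) ≤ c * (n - k) := by
      have h6 : (1 + ep / 2) * ((r : ℝ) * k) = c * ((1 + ep) * ((r : ℝ) * k)) := by
        rw [hc]
        field_simp
      rw [h6]
      exact mul_le_mul_of_nonneg_left hn1 hc0.le
    have h6 : ((r : ℝ) + e) * k ≤ (1 + ep / 8) * r * k := mul_le_mul_of_nonneg_right hR1 hk0.le
    have h7 : 0 ≤ ep * ((r : ℝ) * k) := by positivity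
    linarith
  have htau1' : tau < 1 := by linarith
  have hR3 : 1 ≤ r + e := by omega
  -- light points
  have hYc : (Ico 0 n).card = n := by simp
  have hYne : (Ico 0 n).Nonempty := by
    rw [← Finset.card_pos, hYc]
    omega
  have hlight := h2 (r + e) (Ico 0 n) w mu tau hR3 hYne hw hq htau htau1' hmt hM
  rw [hYc] at hlight
  set S : ℝ := ∑ v ∈ Ico 0 n with w v ≤ 1 - tau, w v with hS
  set S' : ℝ := ∑ v ∈ Ico k n with w v ≤ 1 - tau, w v with hS'
  have hSS : S' ≤ S := by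
    rw [hS, hS']
    apply Finset.sum_le_sum_of_subset_of_nonneg
    · intro v hv
      rw [Finset.mem_filter, Finset.mem_Ico] at hv ⊢
      exact ⟨⟨Nat.zero_le _, hv.1.2⟩, hv.2⟩
    · intro v _ _
      exact hw v
  have hS0 : 0 ≤ S := Finset.sum_nonneg fun v _ => hw v
  -- heavy points
  have hinv : 1 / (1 - tau) ≤ 1 + 2 * tau := by
    rw [div_le_iff₀ (by linarith)]
    have h5 : tau * tau ≤ tau * (1 / 2) := mul_le_mul_of_nonneg_left htau1 htau.le
    linarith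
  have hinv1 : 1 ≤ 1 / (1 - tau) := by
    rw [le_div_iff₀ (by linarith)]
    linarith
  have hB0 : 0 ≤ (k : ℝ) + L + 1 := by positivity
  have hheavy := h3 k n D ((k : ℝ) + L + 1) tau w hDk htau.le htau1' hw hmono hsum (by
    rw [div_eq_mul_one_div]
    have h5 : ((k : ℝ) + L + 1) * 1 ≤ ((k : ℝ) + L + 1) * (1 / (1 - tau)) :=
      mul_le_mul_of_nonneg_left hinv1 hB0
    linarith)
  have hh : (#{v ∈ Ico k n | 1 - tau < w v} : ℝ) ≤ D + 2 * tau * k + 2 * (L + 1) := by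
    have h5 : ((k : ℝ) + L + 1) / (1 - tau) ≤ ((k : ℝ) + L + 1) * (1 + 2 * tau) := by
      rw [div_eq_mul_one_div]
      exact mul_le_mul_of_nonneg_left hinv hB0
    have h6 : tau * ((L : ℝ) + 1) ≤ 1 / 2 * ((L : ℝ) + 1) :=
      mul_le_mul_of_nonneg_right htau1 (by positivity)
    linarith
  set H : ℝ := (#{v ∈ Ico k n | 1 - tau < w v} : ℝ) with hH
  have hH0 : 0 ≤ H := Nat.cast_nonneg _
  have hmain := h4 k r n D ((L + 1) * D) J e c tau F w hk hr hkrn hDk hc0 hc1 hRk hJ hF hw hcov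
  rw [← hH, ← hS', hR] at hmain
  have htl' : yc c ^ (J + 1) / (1 - yc c) = tl ep J := rfl
  rw [htl'] at hmain
  rw [hR] at hlight
  have hb1 : ((r : ℝ) + e) ^ 2 / (2 * ((n : ℝ) - k) * (e + 1)) ≤ 2 / (eta * k) := by
    rw [div_le_div_iff₀ (by positivity) (by positivity)]
    have h5 : ((r : ℝ) + e) ^ 2 ≤ (2 * r) ^ 2 := by
      apply pow_le_pow_left₀ (by positivity) hR2
    calc ((r : ℝ) + e) ^ 2 * (eta * k) ≤ (2 * r) ^ 2 * (eta * k) :=
          mul_le_mul_of_nonneg_right h5 (by positivity)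
      _ = 2 * (2 * (r * k) * (eta * r)) := by ring
      _ ≤ 2 * (2 * ((n : ℝ) - k) * (e + 1)) := by
        have h6 : (r : ℝ) * k * (eta * r) ≤ (n - k) * (e + 1) :=
          mul_le_mul hnk he2.le (by positivity) hnk0.le
        linarith
  have hb2 : ((r : ℝ) + e) / ((n : ℝ) - k) ≤ 2 / k := by
    rw [div_le_div_iff₀ hnk0 hk0]
    calc ((r : ℝ) + e) * k ≤ 2 * r * k := mul_le_mul_of_nonneg_right hR2 hk0.le
      _ = 2 * (r * k) := by ring
      _ ≤ 2 * ((n : ℝ) - k) := by linarith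
  have hb3 : ((r : ℝ) + e) / ((n : ℝ) - k) * H ≤ 2 * D / k + 4 * tau + 4 * ((L : ℝ) + 1) / k := by
    calc ((r : ℝ) + e) / ((n : ℝ) - k) * H ≤ 2 / k * (D + 2 * tau * k + 2 * (L + 1)) :=
          mul_le_mul hb2 hh hH0 (by positivity)
      _ = 2 * D / k + 4 * tau + 4 * ((L : ℝ) + 1) / k := by
        field_simp
        ring
  have hb4 : ((r : ℝ) + e) / ((n : ℝ) - k) * S' ≤ 4 * mu := by
    have h5 : ((r : ℝ) + e) / ((n : ℝ) - k) ≤ 2 * (((r : ℝ) + e) / n) := by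
      rw [← mul_div_assoc, div_le_div_iff₀ hnk0 hn0]
      have h6 : ((r : ℝ) + e) * n ≤ ((r : ℝ) + e) * (2 * (n - k)) :=
        mul_le_mul_of_nonneg_left (by linarith) (by positivity)
      linarith
    have h6 : ((r : ℝ) + e) / ((n : ℝ) - k) * S' ≤ 2 * (((r : ℝ) + e) / n) * S := by
      have h7 : ((r : ℝ) + e) / ((n : ℝ) - k) * S' ≤ ((r : ℝ) + e) / ((n : ℝ) - k) * S :=
        mul_le_mul_of_nonneg_left hSS (by positivity)
      exact h7.trans (mul_le_mul_of_nonneg_right h5 hS0)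
    linarith
  linarith

end Pool.Agent.EMC
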