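import Pool.Agent.EMC.All.Defs

open Finset

namespace Pool.Agent.EMC

/-- Members of `Om`. -/
theorem mem_om {w t : ℕ} {Z : Finset ℕ} {β : Fin t → Finset ℕ} :
    β ∈ Om w t Z ↔ (∀ i, β i ⊆ Z ∧ (β i).card = w) ∧ ∀ i j, i ≠ j → Disjoint (β i) (β j) := by
  classical
  unfold Om
  rw [Finset.mem_filter, Fintype.mem_piFinset]
  simp only [Finset.mem_powersetCard]

/-- Splitting off the first block. -/
theorem om_sum_succ (w t : ℕ) (Z : Finset ℕ) (Φ : (Fin (t + 1) → Finset ℕ) → ℝ) :
    ∑ β ∈ Om w (t + 1) Z, Φ β =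
      ∑ B ∈ Z.powersetCard w, ∑ β ∈ Om w t (Z \ B), Φ (Fin.cons B β) := by
  classical
  rw [Finset.sum_sigma']
  symm
  refine Finset.sum_bij'
    (i := fun (x : Σ _ : Finset ℕ, (Fin t → Finset ℕ)) _ =>
      (Fin.cons x.1 x.2 : Fin (t + 1) → Finset ℕ))
    (j := fun (b : Fin (t + 1) → Finset ℕ) _ => (⟨b 0, Fin.tail b⟩ :
      Σ _ : Finset ℕ, (Fin t → Finset ℕ))) ?_ ?_ ?_ ?_ ?_
  · rintro ⟨B, β⟩ hx
    rw [Finset.mem_sigma, Finset.mem_powersetCard, mem_om] at hx
    obtain ⟨⟨hB1, hB2⟩, h1, h2⟩ := hx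
    have hdj : ∀ i, Disjoint B (β i) := fun i =>
      Finset.disjoint_left.2 fun x hx hx' => (Finset.mem_sdiff.1 ((h1 i).1 hx')).2 hx
    rw [mem_om]
    refine ⟨?_, ?_⟩
    · intro i
      refine Fin.cases ?_ (fun i => ?_) i
      · exact ⟨hB1, hB2⟩
      · exact ⟨(h1 i).1.trans Finset.sdiff_subset, (h1 i).2⟩
    · intro i
      refine Fin.cases ?_ (fun i => ?_) i
      · intro j
        refine Fin.cases ?_ (fun j => ?_) j
        · intro h
          exact absurd rfl h
        · intro _
          exact hdj j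
      · intro j
        refine Fin.cases ?_ (fun j => ?_) j
        · intro _
          exact (hdj i).symm
        · intro h
          exact h2 i j (fun hij => h (by rw [hij]))
  · intro b hb
    rw [mem_om] at hb
    obtain ⟨h1, h2⟩ := hb
    rw [Finset.mem_sigma, Finset.mem_powersetCard, mem_om]
    refine ⟨h1 0, ?_, ?_⟩
    · intro i
      refine ⟨?_, (h1 i.succ).2⟩
      intro x hx
      rw [Finset.mem_sdiff]
      refine ⟨(h1 i.succ).1 hx, fun hx0 => ?_⟩
      exact Finset.disjoint_left.1 (h2 0 i.succ (Fin.succ_ne_zero i).symm) hx0 hx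
    · intro i j hij
      exact h2 i.succ j.succ (fun h => hij (Fin.succ_injective _ h))
  · rintro ⟨B, β⟩ _
    rfl
  · intro b _
    exact Fin.cons_self_tail b
  · rintro ⟨B, β⟩ _
    rfl

/-- The number of tuples, first block split off. -/
theorem om_card_succ (w t : ℕ) (Z : Finset ℕ) :
    (Om w (t + 1) Z).card = ∑ B ∈ Z.powersetCard w, (Om w t (Z \ B)).card := by
  have h := om_sum_succ w t Z (fun _ => (1 : ℝ))
  simp only [Finset.sum_const, nsmul_eq_mul, mul_one] at h
  exact_mod_cast h

/-- The number of tuples depends only on the number of points. -/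
theorem om_card_congr (w t : ℕ) {Z Z' : Finset ℕ} (h : Z.card = Z'.card) :
    (Om w t Z).card = (Om w t Z').card := by
  induction t generalizing Z Z' with
  | zero =>
    have h0 : ∀ Y : Finset ℕ, (Om w 0 Y).card = 1 := by
      intro Y
      rw [Finset.card_eq_one]
      refine ⟨fun i => i.elim0, ?_⟩
      ext β
      rw [mem_om, Finset.mem_singleton]
      constructor
      · intro _
        funext i
        exact i.elim0
      · intro _
        exact ⟨fun i => i.elim0, fun i => i.elim0⟩
    rw [h0, h0]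
  | succ t ih =>
    rw [om_card_succ, om_card_succ]
    obtain ⟨N, hN⟩ : ∃ N, ∀ Y : Finset ℕ, Y.card = Z.card - w → (Om w t Y).card = N := by
      by_cases hex : ∃ Y : Finset ℕ, Y.card = Z.card - w
      · obtain ⟨Y, hY⟩ := hex
        exact ⟨(Om w t Y).card, fun Y' hY' => ih (hY'.trans hY.symm)⟩
      · exact ⟨0, fun Y hY => absurd ⟨Y, hY⟩ hex⟩
    have h1 : ∀ B ∈ Z.powersetCard w, (Om w t (Z \ B)).card = N := by
      intro B hB
      rw [Finset.mem_powersetCard] at hB
      apply hN
      rw [Finset.card_sdiff_of_subset hB.1, hB.2]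
    have h2 : ∀ B ∈ Z'.powersetCard w, (Om w t (Z' \ B)).card = N := by
      intro B hB
      rw [Finset.mem_powersetCard] at hB
      apply hN
      rw [Finset.card_sdiff_of_subset hB.1, hB.2, h]
    rw [Finset.sum_congr rfl h1, Finset.sum_congr rfl h2, Finset.sum_const, Finset.sum_const,
      Finset.card_powersetCard, Finset.card_powersetCard, h]

/-- There are tuples. -/
theorem om_card_pos {w t : ℕ} {Z : Finset ℕ} (h : t * w ≤ Z.card) : 0 < (Om w t Z).card := by
  induction t generalizing Z with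
  | zero =>
    rw [Finset.card_pos]
    exact ⟨fun i => i.elim0, mem_om.2 ⟨fun i => i.elim0, fun i => i.elim0⟩⟩
  | succ t ih =>
    have hw : (t + 1) * w = t * w + w := by ring
    obtain ⟨B, hB, hBc⟩ := Finset.exists_subset_card_eq (s := Z) (n := w) (by omega)
    have h1 : 0 < (Om w t (Z \ B)).card := by
      apply ih
      rw [Finset.card_sdiff_of_subset hB, hBc]
      omega
    rw [om_card_succ]
    exact Finset.sum_pos' (fun _ _ => Nat.zero_le _)
      ⟨B, Finset.mem_powersetCard.2 ⟨hB, hBc⟩, h1⟩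

end Pool.Agent.EMC
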