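import Pool.Agent.EMC.All.O01

open Finset

namespace Pool.Agent.EMC

/-- Conditioning on the first block. -/
theorem EO_succ {w t : ℕ} {Z : Finset ℕ} (h : (t + 1) * w ≤ Z.card)
    (Φ : (Fin (t + 1) → Finset ℕ) → ℝ) :
    EO w (t + 1) Z Φ =
      (∑ B ∈ Z.powersetCard w, EO w t (Z \ B) (fun β => Φ (Fin.cons B β))) /
        (Z.card.choose w : ℝ) := by
  have hw : w ≤ Z.card := by nlinarith [Nat.zero_le (t * w)]
  have hc : ∀ B ∈ Z.powersetCard w, (Om w t (Z \ B)).card =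
      (Om w t (Finset.range (Z.card - w))).card := by
    intro B hB
    rw [Finset.mem_powersetCard] at hB
    apply om_card_congr
    rw [Finset.card_range, Finset.card_sdiff_of_subset hB.1, hB.2]
  have h1 : ((Om w (t + 1) Z).card : ℝ) =
      (Z.card.choose w : ℝ) * ((Om w t (Finset.range (Z.card - w))).card : ℝ) := by
    rw [om_card_succ, Finset.sum_congr rfl hc, Finset.sum_const, Finset.card_powersetCard,
      smul_eq_mul]
    push_cast
    ring
  have h2 : ∀ B ∈ Z.powersetCard w, EO w t (Z \ B) (fun β => Φ (Fin.cons B β)) =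
      (∑ β ∈ Om w t (Z \ B), Φ (Fin.cons B β)) /
        ((Om w t (Finset.range (Z.card - w))).card : ℝ) := by
    intro B hB
    unfold EO
    rw [hc B hB]
  rw [Finset.sum_congr rfl h2, ← Finset.sum_div, div_div]
  unfold EO
  rw [om_sum_succ, h1, mul_comm]

/-- The order of the blocks does not matter. -/
theorem EO_perm {w t : ℕ} {Z : Finset ℕ} (π : Equiv.Perm (Fin t))
    (Φ : (Fin t → Finset ℕ) → ℝ) :
    EO w t Z (fun β => Φ (fun i => β (π i))) = EO w t Z Φ := by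
  unfold EO
  congr 1
  refine Finset.sum_nbij' (fun β => fun i => β (π i)) (fun β => fun i => β (π.symm i))
    ?_ ?_ ?_ ?_ ?_
  · intro β hβ
    rw [mem_om] at hβ ⊢
    exact ⟨fun i => hβ.1 (π i), fun i j hij => hβ.2 _ _ (fun h => hij (π.injective h))⟩
  · intro β hβ
    rw [mem_om] at hβ ⊢
    exact ⟨fun i => hβ.1 (π.symm i), fun i j hij => hβ.2 _ _ (fun h => hij (π.symm.injective h))⟩
  · intro β _
    funext i
    simp
  · intro β _
    funext i
    simp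
  · intro β _
    rfl

theorem EO_mono {w t : ℕ} {Z : Finset ℕ} {Φ Ψ : (Fin t → Finset ℕ) → ℝ}
    (h : ∀ β ∈ Om w t Z, Φ β ≤ Ψ β) : EO w t Z Φ ≤ EO w t Z Ψ := by
  unfold EO
  exact div_le_div_of_nonneg_right (Finset.sum_le_sum h) (Nat.cast_nonneg _)

theorem EO_congr {w t : ℕ} {Z : Finset ℕ} {Φ Ψ : (Fin t → Finset ℕ) → ℝ}
    (h : ∀ β ∈ Om w t Z, Φ β = Ψ β) : EO w t Z Φ = EO w t Z Ψ := by
  unfold EO
  rw [Finset.sum_congr rfl h]

theorem EO_nonneg {w t : ℕ} {Z : Finset ℕ} {Φ : (Fin t → Finset ℕ) → ℝ}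
    (h : ∀ β ∈ Om w t Z, 0 ≤ Φ β) : 0 ≤ EO w t Z Φ := by
  unfold EO
  exact div_nonneg (Finset.sum_nonneg h) (Nat.cast_nonneg _)

theorem EO_add {w t : ℕ} {Z : Finset ℕ} (Φ Ψ : (Fin t → Finset ℕ) → ℝ) :
    EO w t Z (fun β => Φ β + Ψ β) = EO w t Z Φ + EO w t Z Ψ := by
  unfold EO
  rw [Finset.sum_add_distrib, add_div]

theorem EO_mul {w t : ℕ} {Z : Finset ℕ} (c : ℝ) (Φ : (Fin t → Finset ℕ) → ℝ) :
    EO w t Z (fun β => c * Φ β) = c * EO w t Z Φ := by
  unfold EO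
  rw [← Finset.mul_sum, mul_div_assoc]

theorem EO_sum {w t : ℕ} {Z : Finset ℕ} {ι : Type} (s : Finset ι)
    (Φ : ι → (Fin t → Finset ℕ) → ℝ) :
    EO w t Z (fun β => ∑ i ∈ s, Φ i β) = ∑ i ∈ s, EO w t Z (Φ i) := by
  unfold EO
  rw [Finset.sum_comm, Finset.sum_div]

theorem EO_const {w t : ℕ} {Z : Finset ℕ} (h : t * w ≤ Z.card) (c : ℝ) :
    EO w t Z (fun _ => c) = c := by
  unfold EO
  have h1 : ((Om w t Z).card : ℝ) ≠ 0 := by
    have := om_card_pos h
    positivity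
  rw [Finset.sum_const, nsmul_eq_mul]
  field_simp

end Pool.Agent.EMC
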