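import Pool.Agent.EMC.All.O02
import Pool.Agent.EMC.All.O03

open Finset

namespace Pool.Agent.EMC

theorem cnt_le {t : ℕ} (A : Finset (Finset ℕ)) (β : Fin t → Finset ℕ) : cnt A β ≤ t := by
  unfold cnt
  refine (Finset.card_le_univ _).trans ?_
  rw [Fintype.card_fin]

open Classical in
theorem cnt_cons {t : ℕ} (A : Finset (Finset ℕ)) (B : Finset ℕ) (β : Fin t → Finset ℕ) :
    cnt A (Fin.cons B β : Fin (t + 1) → Finset ℕ) = (if B ∈ A then 1 else 0) + cnt A β := by
  unfold cnt
  rw [Finset.card_filter, Finset.card_filter, Fin.sum_univ_succ]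
  simp only [Fin.cons_zero, Fin.cons_succ]

open Classical in
lemma o04_ind {w : ℕ} (Z : Finset ℕ) (A : Finset (Finset ℕ)) :
    (∑ B ∈ Z.powersetCard w, (if B ∈ A then (1 : ℝ) else 0)) / (Z.card.choose w : ℝ) =
      dn w Z A := by
  unfold dn
  rw [Finset.sum_boole]

/-- The expected number of blocks in `A`. -/
theorem EO_cnt {w t : ℕ} {Z : Finset ℕ} (h : t * w ≤ Z.card) (A : Finset (Finset ℕ)) :
    EO w t Z (fun β => (cnt A β : ℝ)) = t * dn w Z A := by
  classical
  induction t generalizing Z with
  | zero =>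
    have h1 : EO w 0 Z (fun β => (cnt A β : ℝ)) = EO w 0 Z (fun _ => (0 : ℝ)) := by
      apply EO_congr
      intro β _
      have := cnt_le A β
      have h2 : cnt A β = 0 := by omega
      rw [h2]; simp
    rw [h1, EO_const (by simpa using h)]
    simp
  | succ t ih =>
    rw [EO_succ h]
    have h1 : (t + 1) * w = t * w + w := by ring
    have hstep : ∀ B ∈ Z.powersetCard w,
        EO w t (Z \ B) (fun β => (cnt A (Fin.cons B β : Fin (t + 1) → Finset ℕ) : ℝ)) =
          (if B ∈ A then (1 : ℝ) else 0) + t * dn w (Z \ B) A := by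
      intro B hB
      rw [Finset.mem_powersetCard] at hB
      have hc : (Z \ B).card = Z.card - w := by
        rw [Finset.card_sdiff_of_subset hB.1, hB.2]
      have hle : t * w ≤ (Z \ B).card := by rw [hc]; omega
      rw [← ih hle]
      have h2 : EO w t (Z \ B) (fun β => (cnt A (Fin.cons B β : Fin (t + 1) → Finset ℕ) : ℝ)) =
          EO w t (Z \ B) (fun β => (if B ∈ A then (1 : ℝ) else 0) + (cnt A β : ℝ)) := by
        apply EO_congr
        intro β _
        rw [cnt_cons]
        push_cast
        rfl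
      rw [h2, EO_add (fun _ => (if B ∈ A then (1 : ℝ) else 0)) (fun β => (cnt A β : ℝ)),
        EO_const hle]
    rw [Finset.sum_congr rfl hstep, Finset.sum_add_distrib, add_div, o04_ind,
      ← Finset.mul_sum, mul_div_assoc]
    rcases Nat.eq_zero_or_pos t with rfl | ht
    · simp
    · have h2w : 2 * w ≤ Z.card := by
        have : 1 * w ≤ t * w := Nat.mul_le_mul_right _ ht
        omega
      rw [dn_avg h2w]
      push_cast
      ring

end Pool.Agent.EMC
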