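import Mathlib

/-! The inequality for independent identically distributed nonnegative variables (counting form),
with its stability. -/

open Finset

namespace Pool.Agent.EMC.SamCore

section
variable {Y : Type*} [Fintype Y]

/-- The vectors with sum less than `1`. -/
noncomputable def Lo (w : Y → ℝ) (R : ℕ) : Finset (Fin R → Y) :=
  Finset.univ.filter (fun v : Fin R → Y => ∑ i, w (v i) < 1)

noncomputable def phi (w : Y → ℝ) (s : ℝ) : ℝ := ∑ y, Real.exp (-(s * w y))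

noncomputable def NN (w : Y → ℝ) (R : ℕ) (s : ℝ) : ℝ :=
  ∑ v ∈ Lo w R, Real.exp (-(s * ∑ i, w (v i)))

lemma pt_ineq (A a b s : ℝ) (_hA : 0 ≤ A) (ha : 0 ≤ a) (hb : 0 ≤ b) (hs : 0 ≤ s) :
    (b - a) * ((if A + a < 1 then (1 : ℝ) else 0) - (if A + b < 1 then (1 : ℝ) else 0)) *
      Real.exp (-(s * (A + a + b))) ≤
    (b - a) * ((if A + a < 1 then (1 : ℝ) else 0) - (if A + b < 1 then (1 : ℝ) else 0)) *
      Real.exp (-s) := by
  by_cases h1 : A + a < 1 <;> by_cases h2 : A + b < 1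
  · simp [h1, h2]
  · simp only [h1, h2, if_true, if_false, sub_zero, mul_one]
    have : a ≤ b := by linarith
    apply mul_le_mul_of_nonneg_left _ (by linarith)
    apply Real.exp_le_exp.mpr
    nlinarith
  · simp only [h1, h2, if_true, if_false, zero_sub]
    have : b ≤ a := by linarith
    have h3 : 0 ≤ (b - a) * (-1) := by nlinarith
    apply mul_le_mul_of_nonneg_left _ h3
    apply Real.exp_le_exp.mpr
    nlinarith
  · simp [h1, h2]

/-- The double sum of the key inequality, for a weight `g` of the total. -/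
noncomputable def TT (w : Y → ℝ) (ρ : ℕ) (g : ℝ → ℝ) : ℝ :=
  ∑ u : Fin ρ → Y, ∑ a : Y, ∑ b : Y,
    (if (∑ i, w (u i)) + w a < 1 then (1 : ℝ) else 0) * (w b - w a) *
      g ((∑ i, w (u i)) + w a + w b)

lemma TT_symm (w : Y → ℝ) (ρ : ℕ) (g : ℝ → ℝ) :
    2 * TT w ρ g = ∑ u : Fin ρ → Y, ∑ a : Y, ∑ b : Y,
      (w b - w a) * ((if (∑ i, w (u i)) + w a < 1 then (1 : ℝ) else 0) -
        (if (∑ i, w (u i)) + w b < 1 then (1 : ℝ) else 0)) *
        g ((∑ i, w (u i)) + w a + w b) := by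
  unfold TT
  have h : ∀ u : Fin ρ → Y,
      2 * ∑ a : Y, ∑ b : Y, (if (∑ i, w (u i)) + w a < 1 then (1 : ℝ) else 0) * (w b - w a) *
        g ((∑ i, w (u i)) + w a + w b) =
      ∑ a : Y, ∑ b : Y, (w b - w a) * ((if (∑ i, w (u i)) + w a < 1 then (1 : ℝ) else 0) -
        (if (∑ i, w (u i)) + w b < 1 then (1 : ℝ) else 0)) *
        g ((∑ i, w (u i)) + w a + w b) := by
    intro u
    have e1 : ∑ a : Y, ∑ b : Y, (if (∑ i, w (u i)) + w a < 1 then (1 : ℝ) else 0) * (w b - w a) *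
        g ((∑ i, w (u i)) + w a + w b) =
        ∑ a : Y, ∑ b : Y, (if (∑ i, w (u i)) + w b < 1 then (1 : ℝ) else 0) * (w a - w b) *
        g ((∑ i, w (u i)) + w b + w a) := Finset.sum_comm
    rw [two_mul]
    nth_rewrite 2 [e1]
    rw [← Finset.sum_add_distrib]
    refine Finset.sum_congr rfl fun a _ => ?_
    rw [← Finset.sum_add_distrib]
    refine Finset.sum_congr rfl fun b _ => ?_
    have e2 : (∑ i, w (u i)) + w b + w a = (∑ i, w (u i)) + w a + w b := by ring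
    rw [e2]
    ring
  rw [Finset.mul_sum]
  exact Finset.sum_congr rfl fun u _ => h u

lemma TT_key (w : Y → ℝ) (hw : ∀ y, 0 ≤ w y) (ρ : ℕ) (s : ℝ) (hs : 0 ≤ s) :
    TT w ρ (fun t => Real.exp (-(s * t))) ≤ Real.exp (-s) * TT w ρ (fun _ => 1) := by
  have h : 2 * TT w ρ (fun t => Real.exp (-(s * t))) ≤
      Real.exp (-s) * (2 * TT w ρ (fun _ => 1)) := by
    rw [TT_symm, TT_symm, Finset.mul_sum]
    refine Finset.sum_le_sum fun u _ => ?_
    rw [Finset.mul_sum]
    refine Finset.sum_le_sum fun a _ => ?_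
    rw [Finset.mul_sum]
    refine Finset.sum_le_sum fun b _ => ?_
    have hA : 0 ≤ ∑ i, w (u i) := Finset.sum_nonneg fun i _ => hw _
    have := pt_ineq (∑ i, w (u i)) (w a) (w b) s hA (hw a) (hw b) hs
    calc _ ≤ _ := this
      _ = _ := by ring
  linarith

lemma TT_nonneg (w : Y → ℝ) (ρ : ℕ) : 0 ≤ TT w ρ (fun _ => 1) := by
  have h : 0 ≤ 2 * TT w ρ (fun _ => 1) := by
    rw [TT_symm]
    refine Finset.sum_nonneg fun u _ => Finset.sum_nonneg fun a _ => Finset.sum_nonneg fun b _ => ?_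
    by_cases h1 : (∑ i, w (u i)) + w a < 1 <;> by_cases h2 : (∑ i, w (u i)) + w b < 1
    · simp [h1, h2]
    · simp only [h1, h2, if_true, if_false, sub_zero, mul_one]
      linarith
    · simp only [h1, h2, if_true, if_false, zero_sub, mul_one]
      nlinarith
    · simp [h1, h2]
  linarith

/-- Sums over vectors of length `ρ + 1`, split off the first coordinate. -/
lemma sum_cons (w : Y → ℝ) (ρ : ℕ) (f : Y → ℝ → ℝ) :
    ∑ v ∈ Lo w (ρ + 1), f (v 0) (∑ i, w (v i)) =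
      ∑ u : Fin ρ → Y, ∑ a : Y,
        (if (∑ i, w (u i)) + w a < 1 then (1 : ℝ) else 0) * f a ((∑ i, w (u i)) + w a) := by
  unfold Lo
  rw [Finset.sum_filter]
  rw [← (Fin.consEquiv (fun _ : Fin (ρ + 1) => Y)).sum_comp]
  rw [Fintype.sum_prod_type, Finset.sum_comm]
  refine Finset.sum_congr rfl fun u _ => Finset.sum_congr rfl fun a _ => ?_
  have e : ∑ i, w ((Fin.consEquiv (fun _ : Fin (ρ + 1) => Y)) (a, u) i) =
      (∑ i, w (u i)) + w a := by
    rw [Fin.sum_univ_succ]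
    simp [Fin.consEquiv, add_comm]
  have e0 : (Fin.consEquiv (fun _ : Fin (ρ + 1) => Y)) (a, u) 0 = a := by
    simp [Fin.consEquiv]
  rw [e, e0]
  split_ifs <;> simp

/-- All coordinates contribute the same. -/
lemma sum_coord (w : Y → ℝ) (R : ℕ) (i j : Fin R) (f : ℝ → ℝ) :
    ∑ v ∈ Lo w R, w (v i) * f (∑ l, w (v l)) = ∑ v ∈ Lo w R, w (v j) * f (∑ l, w (v l)) := by
  unfold Lo
  rw [Finset.sum_filter, Finset.sum_filter]
  rw [← (Equiv.arrowCongr (Equiv.swap i j) (Equiv.refl Y)).sum_comp]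
  refine Finset.sum_congr rfl fun v _ => ?_
  have e : ∑ l, w ((Equiv.arrowCongr (Equiv.swap i j) (Equiv.refl Y)) v l) = ∑ l, w (v l) := by
    rw [← Equiv.sum_comp (Equiv.swap i j)]
    refine Finset.sum_congr rfl fun l _ => ?_
    simp [Equiv.arrowCongr]
  rw [e]
  simp [Equiv.arrowCongr]

lemma sum_total (w : Y → ℝ) (ρ : ℕ) (f : ℝ → ℝ) :
    ∑ v ∈ Lo w (ρ + 1), (∑ l, w (v l)) * f (∑ l, w (v l)) =
      (ρ + 1 : ℝ) * ∑ v ∈ Lo w (ρ + 1), w (v 0) * f (∑ l, w (v l)) := by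
  have h : ∀ v : Fin (ρ + 1) → Y, (∑ l, w (v l)) * f (∑ l, w (v l)) =
      ∑ l, w (v l) * f (∑ l, w (v l)) := by
    intro v; rw [Finset.sum_mul]
  simp_rw [h]
  rw [Finset.sum_comm]
  rw [Finset.sum_congr rfl (fun i _ => sum_coord w (ρ + 1) i 0 f)]
  simp

lemma TT_eq (w : Y → ℝ) (ρ : ℕ) (s : ℝ) :
    (ρ + 1 : ℝ) * TT w ρ (fun t => Real.exp (-(s * t))) =
      (ρ + 1 : ℝ) * NN w (ρ + 1) s * (∑ y, w y * Real.exp (-(s * w y))) -
        (∑ v ∈ Lo w (ρ + 1), (∑ l, w (v l)) * Real.exp (-(s * ∑ l, w (v l)))) * phi w s := by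
  rw [sum_total w ρ (fun t => Real.exp (-(s * t)))]
  rw [sum_cons w ρ (fun a t => w a * Real.exp (-(s * t)))]
  unfold NN
  rw [sum_cons w ρ (fun _ t => Real.exp (-(s * t)))]
  unfold TT phi
  rw [mul_assoc, mul_assoc, ← mul_sub]
  congr 1
  rw [Finset.sum_mul, Finset.sum_mul, ← Finset.sum_sub_distrib]
  refine Finset.sum_congr rfl fun u _ => ?_
  rw [Finset.sum_mul, Finset.sum_mul, ← Finset.sum_sub_distrib]
  refine Finset.sum_congr rfl fun a _ => ?_
  rw [Finset.mul_sum, Finset.mul_sum, ← Finset.sum_sub_distrib]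
  refine Finset.sum_congr rfl fun b _ => ?_
  have : Real.exp (-(s * ((∑ i, w (u i)) + w a + w b))) =
      Real.exp (-(s * ((∑ i, w (u i)) + w a))) * Real.exp (-(s * w b)) := by
    rw [← Real.exp_add]; congr 1; ring
  simp only [this]
  ring

lemma NN_hasDeriv (w : Y → ℝ) (R : ℕ) (s : ℝ) :
    HasDerivAt (NN w R) (-∑ v ∈ Lo w R, (∑ l, w (v l)) * Real.exp (-(s * ∑ l, w (v l)))) s := by
  unfold NN
  have h : ∀ v ∈ Lo w R, HasDerivAt (fun s : ℝ => Real.exp (-(s * ∑ i, w (v i))))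
      (-((∑ l, w (v l)) * Real.exp (-(s * ∑ l, w (v l))))) s := by
    intro v _
    have h1 : HasDerivAt (fun s : ℝ => -(s * ∑ i, w (v i))) (-(∑ i, w (v i))) s := by
      simpa using ((hasDerivAt_id s).mul_const (∑ i, w (v i))).fun_neg
    have h2 := h1.exp
    refine h2.congr_deriv ?_
    ring
  have := HasDerivAt.fun_sum h
  rw [← Finset.sum_neg_distrib]
  exact this

lemma phi_hasDeriv (w : Y → ℝ) (s : ℝ) :
    HasDerivAt (phi w) (-∑ y, w y * Real.exp (-(s * w y))) s := by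
  unfold phi
  have h : ∀ y ∈ (Finset.univ : Finset Y), HasDerivAt (fun s : ℝ => Real.exp (-(s * w y)))
      (-(w y * Real.exp (-(s * w y)))) s := by
    intro v _
    have h1 : HasDerivAt (fun s : ℝ => -(s * w v)) (-(w v)) s := by
      simpa using ((hasDerivAt_id s).mul_const (w v)).fun_neg
    have h2 := h1.exp
    refine h2.congr_deriv ?_
    ring
  have := HasDerivAt.fun_sum h
  rw [← Finset.sum_neg_distrib]
  exact this

lemma NN_lower (w : Y → ℝ) (R : ℕ) (s mu : ℝ)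
    (hmu : ∑ v ∈ Lo w R, ∑ i, w (v i) = mu * (Lo w R).card) :
    ((Lo w R).card : ℝ) * Real.exp (-(s * mu)) ≤ NN w R s := by
  unfold NN
  have h : ∀ v ∈ Lo w R, Real.exp (-(s * mu)) * (1 - s * ((∑ i, w (v i)) - mu)) ≤
      Real.exp (-(s * ∑ i, w (v i))) := by
    intro v _
    have e : Real.exp (-(s * ∑ i, w (v i))) =
        Real.exp (-(s * mu)) * Real.exp (-(s * ((∑ i, w (v i)) - mu))) := by
      rw [← Real.exp_add]; congr 1; ring
    rw [e]
    apply mul_le_mul_of_nonneg_left _ (Real.exp_pos _).le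
    have := Real.add_one_le_exp (-(s * ((∑ i, w (v i)) - mu)))
    linarith
  calc ((Lo w R).card : ℝ) * Real.exp (-(s * mu))
      = ∑ v ∈ Lo w R, Real.exp (-(s * mu)) * (1 - s * ((∑ i, w (v i)) - mu)) := by
        rw [← Finset.mul_sum, Finset.sum_sub_distrib, ← Finset.mul_sum, Finset.sum_sub_distrib,
          hmu]
        simp
        ring
    _ ≤ _ := Finset.sum_le_sum h

/-- `phi ^ R = NN + (the rest)`, and the rest is at most `card ^ R * exp (-s)`. -/
lemma phi_pow (w : Y → ℝ) (R : ℕ) (s : ℝ) (hs : 0 ≤ s) :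
    NN w R s ≤ phi w s ^ R ∧ phi w s ^ R ≤ NN w R s + (Fintype.card Y : ℝ) ^ R * Real.exp (-s) := by
  have e : phi w s ^ R = ∑ v : Fin R → Y, Real.exp (-(s * ∑ i, w (v i))) := by
    unfold phi
    have h := Finset.prod_univ_sum (fun _ : Fin R => (Finset.univ : Finset Y))
      (fun _ y => Real.exp (-(s * w y)))
    rw [Finset.prod_const, Finset.card_univ, Fintype.card_fin] at h
    rw [h, Fintype.piFinset_univ]
    refine Finset.sum_congr rfl fun v _ => ?_
    rw [← Real.exp_sum]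
    congr 1
    rw [Finset.mul_sum, Finset.sum_neg_distrib]
  have e2 := Finset.sum_filter_add_sum_filter_not (Finset.univ : Finset (Fin R → Y))
    (fun v => ∑ i, w (v i) < 1) (fun v => Real.exp (-(s * ∑ i, w (v i))))
  rw [← e] at e2
  have e3 : NN w R s = ∑ v ∈ Finset.univ.filter (fun v : Fin R → Y => ∑ i, w (v i) < 1),
      Real.exp (-(s * ∑ i, w (v i))) := rfl
  rw [← e3] at e2
  constructor
  · have : 0 ≤ ∑ v ∈ Finset.univ.filter (fun v : Fin R → Y => ¬ ∑ i, w (v i) < 1),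
      Real.exp (-(s * ∑ i, w (v i))) := Finset.sum_nonneg fun _ _ => (Real.exp_pos _).le
    linarith
  · have : ∑ v ∈ Finset.univ.filter (fun v : Fin R → Y => ¬ ∑ i, w (v i) < 1),
      Real.exp (-(s * ∑ i, w (v i))) ≤ (Fintype.card Y : ℝ) ^ R * Real.exp (-s) := by
      calc _ ≤ ∑ v ∈ Finset.univ.filter (fun v : Fin R → Y => ¬ ∑ i, w (v i) < 1),
            Real.exp (-s) := by
            refine Finset.sum_le_sum fun v hv => ?_
            rw [Finset.mem_filter] at hv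
            apply Real.exp_le_exp.mpr
            nlinarith [not_lt.mp hv.2]
        _ ≤ ∑ v : Fin R → Y, Real.exp (-s) :=
            Finset.sum_le_sum_of_subset_of_nonneg (Finset.filter_subset _ _)
              (fun _ _ _ => (Real.exp_pos _).le)
        _ = _ := by simp
    linarith

/-- The differential inequality behind `sam`. -/
lemma ode (k : ℕ) (R n Q κ mu : ℝ) (hRk : R = (k : ℝ)) (hRpos : 0 < R) (hn : 0 < n) (hQ : 0 < Q)
    (hκ : 0 ≤ κ) (φ N A B : ℝ → ℝ) (hφ : ∀ s, HasDerivAt φ (-A s) s)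
    (hN : ∀ s, HasDerivAt N (-B s) s) (hNpos : ∀ s, 0 < N s)
    (hk : ∀ s, 0 ≤ s → R * N s * A s - B s * φ s ≤ κ * Real.exp (-s))
    (hlow : ∀ s, Q * Real.exp (-(s * mu)) ≤ N s)
    (hpow : ∀ s, 0 ≤ s → φ s ^ k ≤ N s + n ^ k * Real.exp (-s))
    (hφ0 : φ 0 = n) (hN0 : N 0 = Q) (hmu1 : mu < 1)
    (hα : 0 < 1 - mu * (R + 1) / R) :
    n - κ / (R * (1 - mu * (R + 1) / R)) / Q ≤ Q ^ (1 / R) := by
  obtain ⟨α, hαdef⟩ : ∃ α, α = 1 - mu * (R + 1) / R := ⟨_, rfl⟩
  rw [← hαdef] at hα ⊢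
  obtain ⟨e, he⟩ : ∃ e, e = -(1 / R) := ⟨_, rfl⟩
  have hRinv : 0 < 1 / R := one_div_pos.mpr hRpos
  have heneg : e < 0 := by rw [he]; linarith
  obtain ⟨C, hC⟩ : ∃ C, C = κ / (R * α) * Q ^ (e - 1) := ⟨_, rfl⟩
  have hCnn : 0 ≤ C := by
    rw [hC]
    exact mul_nonneg (div_nonneg hκ (mul_pos hRpos hα).le) (Real.rpow_nonneg hQ.le _)
  have hRα : 0 < R * α := mul_pos hRpos hα
  obtain ⟨h, hh⟩ : ∃ h : ℝ → ℝ, h = fun s => φ s * N s ^ e - C * Real.exp (-(α * s)) := ⟨_, rfl⟩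
  have hder : ∀ s, HasDerivAt h
      ((-A s) * N s ^ e + φ s * (-B s * e * N s ^ (e - 1)) - C * (Real.exp (-(α * s)) * (-α))) s := by
    intro s
    have h3 := (hN s).rpow_const (p := e) (Or.inl (hNpos s).ne')
    have h4 : HasDerivAt (fun s : ℝ => Real.exp (-(α * s))) (Real.exp (-(α * s)) * (-α)) s := by
      have h5 : HasDerivAt (fun s : ℝ => -(α * s)) (-α) s := by
        simpa using ((hasDerivAt_id s).const_mul α).fun_neg
      exact h5.exp
    rw [hh]
    exact ((hφ s).mul h3).sub (h4.const_mul C)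
  have hdiff : Differentiable ℝ h := fun s => (hder s).differentiableAt
  have hmono : MonotoneOn h (Set.Ici 0) := by
    apply monotoneOn_of_deriv_nonneg (convex_Ici 0) hdiff.continuous.continuousOn
      hdiff.differentiableOn
    intro s hs
    rw [interior_Ici] at hs
    have hs0 : 0 ≤ s := le_of_lt hs
    rw [(hder s).deriv]
    have hNp : 0 < N s := hNpos s
    have hk1 := hk s hs0
    have e1 : N s ^ e = N s * N s ^ (e - 1) := by
      rw [Real.rpow_sub_one hNp.ne', mul_div_cancel₀ _ hNp.ne']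
    have e2 : -A s * N s ^ e + φ s * (-B s * e * N s ^ (e - 1)) =
        -(1 / R) * (R * N s * A s - B s * φ s) * N s ^ (e - 1) := by
      rw [e1, he]
      have : (1 / R) * R = 1 := one_div_mul_cancel hRpos.ne'
      linear_combination (N s * A s * N s ^ (-(1 / R) - 1)) * this
    have hNe : 0 ≤ N s ^ (e - 1) := Real.rpow_nonneg hNp.le _
    have h6 : N s ^ (e - 1) ≤ Q ^ (e - 1) * Real.exp (s * (mu * (R + 1) / R)) := by
      have h7 := hlow s
      have h8 : N s ^ (e - 1) ≤ (Q * Real.exp (-(s * mu))) ^ (e - 1) :=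
        Real.rpow_le_rpow_of_nonpos (mul_pos hQ (Real.exp_pos _)) h7 (by linarith)
      have h9 : (Q * Real.exp (-(s * mu))) ^ (e - 1) =
          Q ^ (e - 1) * Real.exp (s * (mu * (R + 1) / R)) := by
        rw [Real.mul_rpow hQ.le (Real.exp_pos _).le, ← Real.exp_mul]
        congr 2
        rw [he]
        field_simp
        ring
      rw [h9] at h8
      exact h8
    have h10 : (1 / R) * (R * N s * A s - B s * φ s) * N s ^ (e - 1) ≤
        (1 / R) * (κ * Real.exp (-s)) * N s ^ (e - 1) := by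
      apply mul_le_mul_of_nonneg_right _ hNe
      exact mul_le_mul_of_nonneg_left hk1 hRinv.le
    have h11 : (1 / R) * (κ * Real.exp (-s)) * N s ^ (e - 1) ≤
        (1 / R) * (κ * Real.exp (-s)) * (Q ^ (e - 1) * Real.exp (s * (mu * (R + 1) / R))) := by
      apply mul_le_mul_of_nonneg_left h6
      exact mul_nonneg hRinv.le (mul_nonneg hκ (Real.exp_pos _).le)
    have h12 : (1 / R) * (κ * Real.exp (-s)) * (Q ^ (e - 1) * Real.exp (s * (mu * (R + 1) / R))) =
        C * (Real.exp (-(α * s)) * α) := by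
      rw [hC]
      have h13 : Real.exp (-s) * Real.exp (s * (mu * (R + 1) / R)) = Real.exp (-(α * s)) := by
        rw [← Real.exp_add]; congr 1; rw [hαdef]; ring
      rw [← h13]
      field_simp
    rw [e2]
    linarith [h10, h11, h12]
  -- the limit
  have hnk : 0 < n ^ k := pow_pos hn k
  have hlim : h 0 ≤ 1 := by
    by_contra hcon
    push Not at hcon
    have hh0 : 0 < h 0 := by linarith
    have hb : ∀ s : ℝ, 0 ≤ s → h 0 ^ k ≤ 1 + n ^ k / Q * Real.exp (-((1 - mu) * s)) := by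
      intro s hs
      have h1 : h 0 ≤ h s := hmono Set.self_mem_Ici hs hs
      have h2 : h s ≤ φ s * N s ^ e := by
        have : 0 ≤ C * Real.exp (-(α * s)) := mul_nonneg hCnn (Real.exp_pos _).le
        rw [hh]
        show φ s * N s ^ e - C * Real.exp (-(α * s)) ≤ _
        linarith
      have h3 : h 0 ^ k ≤ (φ s * N s ^ e) ^ k :=
        pow_le_pow_left₀ hh0.le (h1.trans h2) _
      have h4 : (φ s * N s ^ e) ^ k = φ s ^ k / N s := by
        rw [mul_pow, ← Real.rpow_natCast (N s ^ e), ← Real.rpow_mul (hNpos s).le]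
        have : e * (k : ℝ) = -1 := by
          rw [he, ← hRk, neg_mul, one_div_mul_cancel hRpos.ne']
        rw [this, Real.rpow_neg_one]
        rfl
      rw [h4] at h3
      refine h3.trans ?_
      rw [div_le_iff₀ (hNpos s)]
      have h5 := hpow s hs
      have h7 := hlow s
      have h8 : n ^ k * Real.exp (-s) ≤
          n ^ k / Q * Real.exp (-((1 - mu) * s)) * N s := by
        calc n ^ k * Real.exp (-s)
            = n ^ k / Q * Real.exp (-((1 - mu) * s)) * (Q * Real.exp (-(s * mu))) := by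
              have : Real.exp (-s) = Real.exp (-((1 - mu) * s)) * Real.exp (-(s * mu)) := by
                rw [← Real.exp_add]; congr 1; ring
              rw [this]
              field_simp
          _ ≤ _ := mul_le_mul_of_nonneg_left h7
                (mul_nonneg (div_nonneg hnk.le hQ.le) (Real.exp_pos _).le)
      linarith
    have hlim2 : Filter.Tendsto (fun s : ℝ => 1 + n ^ k / Q * Real.exp (-((1 - mu) * s)))
        Filter.atTop (nhds (1 + n ^ k / Q * 0)) := by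
      apply Filter.Tendsto.const_add
      apply Filter.Tendsto.const_mul
      apply Real.tendsto_exp_atBot.comp
      apply Filter.tendsto_neg_atTop_atBot.comp
      exact Filter.tendsto_id.const_mul_atTop (by linarith : (0 : ℝ) < 1 - mu)
    have h9 : h 0 ^ k ≤ 1 + n ^ k / Q * 0 := by
      apply ge_of_tendsto hlim2
      filter_upwards [Filter.eventually_ge_atTop (0 : ℝ)] with s hs
      exact hb s hs
    have hk0 : k ≠ 0 := by
      intro h0
      rw [h0] at hRk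
      rw [hRk] at hRpos
      simp at hRpos
    have h10 : 1 < h 0 ^ k := one_lt_pow₀ hcon hk0
    linarith
  have hh0 : h 0 = n * Q ^ e - C := by
    rw [hh]
    show φ 0 * N 0 ^ e - C * Real.exp (-(α * 0)) = _
    rw [hφ0, hN0]
    simp
  rw [hh0] at hlim
  have hQe : Q ^ e * Q ^ (1 / R) = 1 := by
    rw [← Real.rpow_add hQ, he]; simp
  have hQe1 : Q ^ (e - 1) * Q ^ (1 / R) = 1 / Q := by
    rw [Real.rpow_sub_one hQ.ne', div_mul_eq_mul_div, hQe]
  have h15 := mul_le_mul_of_nonneg_right hlim (Real.rpow_nonneg hQ.le (1 / R))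
  have h16 : (n * Q ^ e - C) * Q ^ (1 / R) = n - κ / (R * α) / Q := by
    rw [sub_mul, mul_assoc, hQe, hC, mul_assoc, hQe1]
    ring
  rw [h16, one_mul] at h15
  exact h15

/-- The unnormalised form of the inequality. -/
theorem sam_aux [Nonempty Y] (w : Y → ℝ) (hw : ∀ y, 0 ≤ w y) (ρ : ℕ)
    (hx1 : ((ρ : ℝ) + 2) * (∑ y, w y) < Fintype.card Y) :
    0 < (Lo w (ρ + 1)).card ∧
    (∑ v ∈ Lo w (ρ + 1), ∑ i, w (v i)) * (Fintype.card Y : ℝ) ≤
      (ρ + 1 : ℝ) * (Lo w (ρ + 1)).card * ∑ y, w y ∧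
    (ρ + 1 : ℝ) * ((Fintype.card Y : ℝ) - ((Lo w (ρ + 1)).card : ℝ) ^ (1 / ((ρ : ℝ) + 1))) *
      ((Lo w (ρ + 1)).card - (∑ v ∈ Lo w (ρ + 1), ∑ i, w (v i)) * ((ρ : ℝ) + 2) / (ρ + 1)) ≤
      (ρ + 1 : ℝ) * (Lo w (ρ + 1)).card * (∑ y, w y) -
        (∑ v ∈ Lo w (ρ + 1), ∑ i, w (v i)) * (Fintype.card Y : ℝ) := by
  obtain ⟨n, hn⟩ : ∃ n : ℝ, n = (Fintype.card Y : ℝ) := ⟨_, rfl⟩
  obtain ⟨W, hW⟩ : ∃ W : ℝ, W = ∑ y, w y := ⟨_, rfl⟩
  obtain ⟨M0, hM0⟩ : ∃ M0 : ℝ, M0 = ∑ v ∈ Lo w (ρ + 1), ∑ i, w (v i) := ⟨_, rfl⟩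
  obtain ⟨Q, hQ⟩ : ∃ Q : ℝ, Q = ((Lo w (ρ + 1)).card : ℝ) := ⟨_, rfl⟩
  obtain ⟨R, hR⟩ : ∃ R : ℝ, R = (ρ : ℝ) + 1 := ⟨_, rfl⟩
  rw [← hn, ← hW] at hx1
  rw [← hn, ← hW, ← hM0, ← hQ, ← hR]
  have hnpos : 0 < n := by rw [hn]; exact_mod_cast Fintype.card_pos
  have hRpos : 0 < R := by rw [hR]; positivity
  have hWnn : 0 ≤ W := by rw [hW]; exact Finset.sum_nonneg fun y _ => hw y
  have hx2 : (R + 1) * W < n := by
    have : R + 1 = (ρ : ℝ) + 2 := by rw [hR]; ring
    rw [this]; exact hx1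
  -- positivity of `Q`
  have hcard : 0 < (Lo w (ρ + 1)).card := by
    have : ∃ y ∈ (Finset.univ : Finset Y), w y ≤ W / n := by
      apply Finset.exists_le_of_sum_le Finset.univ_nonempty
      rw [Finset.sum_const, Finset.card_univ, nsmul_eq_mul, ← hn, ← hW]
      apply le_of_eq
      field_simp
    obtain ⟨y, -, hy⟩ := this
    apply Finset.card_pos.mpr
    refine ⟨fun _ => y, ?_⟩
    unfold Lo
    rw [Finset.mem_filter]
    refine ⟨Finset.mem_univ _, ?_⟩
    simp only [Finset.sum_const, Finset.card_univ, Fintype.card_fin, nsmul_eq_mul]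
    push_cast
    have h3 : R * (W / n) < 1 := by
      rw [← mul_div_assoc, div_lt_one hnpos]
      nlinarith
    have h4 : R * w y ≤ R * (W / n) := mul_le_mul_of_nonneg_left hy hRpos.le
    rw [← hR]
    linarith
  have hQpos : 0 < Q := by rw [hQ]; exact_mod_cast hcard
  obtain ⟨κ, hκ⟩ : ∃ κ : ℝ, κ = R * Q * W - M0 * n := ⟨_, rfl⟩
  have hκeq : R * TT w ρ (fun _ => 1) = κ := by
    have h := TT_eq w ρ 0
    simp only [zero_mul, neg_zero, Real.exp_zero, mul_one] at h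
    rw [hκ]
    have e1 : NN w (ρ + 1) 0 = Q := by
      unfold NN; simp [hQ]
    have e2 : phi w 0 = n := by unfold phi; simp [hn]
    rw [e1, e2, ← hM0, ← hW, ← hR] at h
    exact h
  have hκnn : 0 ≤ κ := by
    rw [← hκeq]; exact mul_nonneg hRpos.le (TT_nonneg w ρ)
  have hkey : ∀ s : ℝ, 0 ≤ s →
      R * NN w (ρ + 1) s * (∑ y, w y * Real.exp (-(s * w y))) -
        (∑ v ∈ Lo w (ρ + 1), (∑ l, w (v l)) * Real.exp (-(s * ∑ l, w (v l)))) * phi w s ≤
      κ * Real.exp (-s) := by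
    intro s hs
    rw [hR, ← TT_eq w ρ s]
    have h := TT_key w hw ρ s hs
    have h2 := mul_le_mul_of_nonneg_left h hRpos.le
    rw [← hR]
    calc _ ≤ _ := h2
      _ = Real.exp (-s) * (R * TT w ρ (fun _ => 1)) := by ring
      _ = _ := by rw [hκeq]; ring
  refine ⟨hcard, by linarith, ?_⟩
  obtain ⟨mu, hmu⟩ : ∃ mu : ℝ, mu = M0 / Q := ⟨_, rfl⟩
  have hmuQ : M0 = mu * Q := by rw [hmu]; field_simp
  have hM0nn : 0 ≤ M0 := by
    rw [hM0]; exact Finset.sum_nonneg fun v _ => Finset.sum_nonneg fun i _ => hw _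
  have hmunn : 0 ≤ mu := by rw [hmu]; exact div_nonneg hM0nn hQpos.le
  have hmule : mu * n ≤ R * W := by
    have : mu * Q * n ≤ R * Q * W := by rw [← hmuQ]; linarith
    have h3 : Q * (mu * n) ≤ Q * (R * W) := by linarith
    exact le_of_mul_le_mul_left h3 hQpos
  have hα1 : mu * (R + 1) / R < 1 := by
    rw [div_lt_one hRpos]
    have h5 : mu * (R + 1) * n < R * n := by
      calc mu * (R + 1) * n = (R + 1) * (mu * n) := by ring
        _ ≤ (R + 1) * (R * W) := mul_le_mul_of_nonneg_left hmule (by linarith)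
        _ = R * ((R + 1) * W) := by ring
        _ < R * n := mul_lt_mul_of_pos_left hx2 hRpos
    exact lt_of_mul_lt_mul_right h5 hnpos.le
  have hαpos : 0 < 1 - mu * (R + 1) / R := by linarith
  have hmu1 : mu < 1 := by
    rw [div_lt_one hRpos] at hα1
    nlinarith
  have hNpos : ∀ s, 0 < NN w (ρ + 1) s := by
    intro s
    unfold NN
    apply Finset.sum_pos (fun _ _ => Real.exp_pos _)
    exact Finset.card_pos.mp hcard
  have h14 := ode (ρ + 1) R n Q κ mu (by rw [hR]; push_cast; ring) hRpos hnpos hQpos hκnn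
    (phi w) (NN w (ρ + 1)) (fun s => ∑ y, w y * Real.exp (-(s * w y)))
    (fun s => ∑ v ∈ Lo w (ρ + 1), (∑ l, w (v l)) * Real.exp (-(s * ∑ l, w (v l))))
    (phi_hasDeriv w) (NN_hasDeriv w (ρ + 1)) hNpos hkey
    (fun s => by
      have := NN_lower w (ρ + 1) s mu (by rw [← hM0, ← hQ]; exact hmuQ)
      rw [← hQ] at this
      exact this)
    (fun s hs => by
      have := (phi_pow w (ρ + 1) s hs).2
      rw [← hn] at this
      exact this)
    (by unfold phi; simp [hn]) (by unfold NN; simp [hQ]) hmu1 hαpos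
  have h17 : Q - M0 * ((ρ : ℝ) + 2) / R = (1 - mu * (R + 1) / R) * Q := by
    have : (ρ : ℝ) + 2 = R + 1 := by rw [hR]; ring
    rw [this, hmuQ]
    ring
  rw [h17]
  obtain ⟨α, hα⟩ : ∃ α, α = 1 - mu * (R + 1) / R := ⟨_, rfl⟩
  rw [← hα] at hαpos h14 ⊢
  have h18 : n - Q ^ (1 / R) ≤ κ / (R * α) / Q := by linarith
  calc R * (n - Q ^ (1 / R)) * (α * Q) = (n - Q ^ (1 / R)) * (R * α * Q) := by ring
    _ ≤ κ / (R * α) / Q * (R * α * Q) := by
        apply mul_le_mul_of_nonneg_right h18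
        exact (mul_pos (mul_pos hRpos hαpos) hQpos).le
    _ = κ := by field_simp
    _ = _ := hκ

end

end Pool.Agent.EMC.SamCore
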