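import Pool.Agent.EMC.All.Defs
import Pool.Agent.EMC.All.SamCore

/-! The inequality for independent uniform points of a finite set with nonnegative weights. -/

open Finset

namespace Pool.Agent.EMC

lemma sum_piFinset_coe (R : ℕ) (Y : Finset ℕ) (Φ : (Fin R → ℕ) → ℝ) :
    ∑ v ∈ Fintype.piFinset (fun _ : Fin R => Y), Φ v =
      ∑ v : Fin R → Y, Φ (fun i => (v i : ℕ)) := by
  symm
  refine Finset.sum_bij (fun (v : Fin R → Y) _ => fun i => (v i : ℕ)) ?_ ?_ ?_ ?_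
  · intro v _
    rw [Fintype.mem_piFinset]
    exact fun i => (v i).2
  · intro v _ v' _ h
    funext i
    exact Subtype.ext (congrFun h i)
  · intro v hv
    rw [Fintype.mem_piFinset] at hv
    exact ⟨fun i => ⟨v i, hv i⟩, Finset.mem_univ _, rfl⟩
  · intro v _
    rfl

lemma qS_eq (R : ℕ) (Y : Finset ℕ) (w : ℕ → ℝ) :
    qS R Y w = ((SamCore.Lo (fun y : Y => w y) R).card : ℝ) / (Y.card : ℝ) ^ R := by
  unfold qS ES
  rw [sum_piFinset_coe]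
  congr 1
  unfold SamCore.Lo sw
  rw [Finset.card_filter]
  push_cast
  refine Finset.sum_congr rfl fun v _ => ?_
  by_cases h : ∑ i, w (v i) < 1 <;> simp [h]

lemma MS_eq (R : ℕ) (Y : Finset ℕ) (w : ℕ → ℝ) :
    MS R Y w = (∑ v ∈ SamCore.Lo (fun y : Y => w y) R, ∑ i, w (v i)) / (Y.card : ℝ) ^ R := by
  unfold MS ES
  rw [sum_piFinset_coe]
  congr 1
  unfold SamCore.Lo sw
  rw [Finset.sum_filter]

/-- The inequality for identically distributed variables. -/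
theorem sam {R : ℕ} (hR : 1 ≤ R) {Y : Finset ℕ} (hY : Y.Nonempty) {w : ℕ → ℝ}
    (hw : ∀ v ∈ Y, 0 ≤ w v) {x : ℝ} (hx : ∑ v ∈ Y, w v = x * Y.card)
    (hx1 : ((R : ℝ) + 1) * x < 1) :
    0 < qS R Y w ∧ MS R Y w ≤ R * x * qS R Y w ∧
      R * (1 - qS R Y w ^ ((1 : ℝ) / R)) * (qS R Y w - MS R Y w * (R + 1) / R) ≤
        R * x * qS R Y w - MS R Y w := by
  obtain ⟨ρ, rfl⟩ : ∃ ρ, R = ρ + 1 := ⟨R - 1, by omega⟩
  have : Nonempty Y := hY.to_subtype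
  have hn : (0 : ℝ) < Y.card := by exact_mod_cast hY.card_pos
  have hW : ∑ y : Y, w y = x * Y.card := by
    rw [← hx]; exact Finset.sum_coe_sort Y w
  have h := SamCore.sam_aux (fun y : Y => w y) (fun y => hw y y.2) ρ (by
    rw [hW, Fintype.card_coe]
    push_cast at hx1
    nlinarith)
  rw [hW, Fintype.card_coe] at h
  obtain ⟨h1, h2, h3⟩ := h
  rw [qS_eq, MS_eq]
  obtain ⟨n, hnn⟩ : ∃ n : ℝ, n = (Y.card : ℝ) := ⟨_, rfl⟩
  obtain ⟨Q, hQ⟩ : ∃ Q : ℝ, Q = ((SamCore.Lo (fun y : Y => w y) (ρ + 1)).card : ℝ) := ⟨_, rfl⟩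
  obtain ⟨M0, hM0⟩ : ∃ M0 : ℝ, M0 = ∑ v ∈ SamCore.Lo (fun y : Y => w y) (ρ + 1),
    ∑ i, w (v i) := ⟨_, rfl⟩
  rw [← hnn, ← hQ, ← hM0] at h2 h3
  rw [← hnn, ← hQ, ← hM0]
  rw [← hnn] at hn
  have hQpos : 0 < Q := by rw [hQ]; exact_mod_cast h1
  have hnR : 0 < n ^ (ρ + 1) := pow_pos hn _
  push_cast
  refine ⟨div_pos hQpos hnR, ?_, ?_⟩
  · rw [← mul_div_assoc, div_le_div_iff_of_pos_right hnR]
    have : n * M0 ≤ n * (((ρ : ℝ) + 1) * x * Q) := by linarith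
    exact le_of_mul_le_mul_left this hn
  · have e1 : (Q / n ^ (ρ + 1)) ^ ((1 : ℝ) / ((ρ : ℝ) + 1)) = Q ^ ((1 : ℝ) / ((ρ : ℝ) + 1)) / n := by
      rw [Real.div_rpow hQpos.le hnR.le]
      congr 1
      have : ((ρ : ℝ) + 1) = ((ρ + 1 : ℕ) : ℝ) := by push_cast; ring
      rw [this, one_div, Real.pow_rpow_inv_natCast hn.le (by omega)]
    rw [e1]
    have e2 : ((ρ : ℝ) + 1) * (1 - Q ^ ((1 : ℝ) / ((ρ : ℝ) + 1)) / n) *
        (Q / n ^ (ρ + 1) - M0 / n ^ (ρ + 1) * ((ρ : ℝ) + 1 + 1) / ((ρ : ℝ) + 1)) =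
        (((ρ : ℝ) + 1) * (n - Q ^ ((1 : ℝ) / ((ρ : ℝ) + 1))) *
          (Q - M0 * ((ρ : ℝ) + 2) / ((ρ : ℝ) + 1))) / (n * n ^ (ρ + 1)) := by
      have : ((ρ : ℝ) + 1 + 1) = (ρ : ℝ) + 2 := by ring
      rw [this]
      field_simp
    have e3 : ((ρ : ℝ) + 1) * x * (Q / n ^ (ρ + 1)) - M0 / n ^ (ρ + 1) =
        (((ρ : ℝ) + 1) * Q * (x * n) - M0 * n) / (n * n ^ (ρ + 1)) := by
      field_simp
    rw [e2, e3]
    exact div_le_div_of_nonneg_right h3 (mul_pos hn hnR).le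

/-- Stability. -/
theorem stab {R : ℕ} (hR : 1 ≤ R) {Y : Finset ℕ} (hY : Y.Nonempty) {w : ℕ → ℝ}
    (hw : ∀ v ∈ Y, 0 ≤ w v) {x : ℝ} (hx : ∑ v ∈ Y, w v = x * Y.card)
    (hx1 : ((R : ℝ) + 1) * x < 1) {ζ : ℝ} (h0 : 0 ≤ ζ) (hq : qS R Y w ≤ (1 - x) ^ R * (1 + ζ)) :
    MS R Y w * (1 - (R + 1) * x) ≤ ζ * qS R Y w := by
  obtain ⟨h1, h2, h3⟩ := sam hR hY hw hx hx1
  have hn : (0 : ℝ) < Y.card := by exact_mod_cast hY.card_pos
  have hRpos : (0 : ℝ) < R := by exact_mod_cast hR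
  have hR1 : (1 : ℝ) ≤ R := by exact_mod_cast hR
  have hx0 : 0 ≤ x := by
    have : 0 ≤ x * Y.card := by rw [← hx]; exact Finset.sum_nonneg hw
    exact nonneg_of_mul_nonneg_left this hn
  have hxlt : x < 1 := by nlinarith
  obtain ⟨q, hqq⟩ : ∃ q, q = qS R Y w := ⟨_, rfl⟩
  obtain ⟨M, hMM⟩ : ∃ M, M = MS R Y w := ⟨_, rfl⟩
  have hMnn : 0 ≤ M := by
    rw [hMM]
    unfold MS ES
    apply div_nonneg _ (by positivity)
    apply Finset.sum_nonneg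
    intro v hv
    rw [Fintype.mem_piFinset] at hv
    split_ifs
    · exact Finset.sum_nonneg fun i _ => hw _ (hv i)
    · exact le_refl _
  rw [← hqq] at h1 h2 h3 hq ⊢
  rw [← hMM] at h2 h3 ⊢
  have hroot : q ^ ((1 : ℝ) / R) ≤ (1 - x) * (1 + ζ / R) := by
    have e1 : q ^ ((1 : ℝ) / R) ≤ ((1 - x) ^ R * (1 + ζ)) ^ ((1 : ℝ) / R) :=
      Real.rpow_le_rpow h1.le hq (by positivity)
    have e2 : ((1 - x) ^ R * (1 + ζ)) ^ ((1 : ℝ) / R) = (1 - x) * (1 + ζ) ^ ((1 : ℝ) / R) := by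
      rw [Real.mul_rpow (pow_nonneg (by linarith) _) (by linarith)]
      congr 1
      rw [one_div, Real.pow_rpow_inv_natCast (by linarith) (by omega)]
    have e3 : (1 + ζ) ^ ((1 : ℝ) / R) ≤ 1 + (1 / R) * ζ :=
      _root_.rpow_one_add_le_one_add_mul_self (s := ζ) (by linarith)
        (p := (1 : ℝ) / R) (by positivity) (by rw [div_le_one hRpos]; exact hR1)
    rw [e2] at e1
    refine e1.trans (mul_le_mul_of_nonneg_left ?_ (by linarith))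
    calc _ ≤ _ := e3
      _ = _ := by ring
  have hpos : 0 ≤ q - M * (R + 1) / R := by
    have : M * (R + 1) / R ≤ q := by
      rw [div_le_iff₀ hRpos]
      calc M * (R + 1) ≤ (R * x * q) * (R + 1) := mul_le_mul_of_nonneg_right h2 (by linarith)
        _ = (R * q) * ((R + 1) * x) := by ring
        _ ≤ (R * q) * 1 := mul_le_mul_of_nonneg_left hx1.le (by positivity)
        _ = q * R := by ring
    linarith
  have h4 : (R * x - ζ) ≤ R * (1 - q ^ ((1 : ℝ) / R)) := by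
    have h5 : R * q ^ ((1 : ℝ) / R) ≤ R * ((1 - x) * (1 + ζ / R)) :=
      mul_le_mul_of_nonneg_left hroot hRpos.le
    have h6 : R * ((1 - x) * (1 + ζ / R)) = (1 - x) * (R + ζ) := by field_simp
    nlinarith
  have h7 := mul_le_mul_of_nonneg_right h4 hpos
  have h8 : (R * x - ζ) * (q - M * (R + 1) / R) ≤ R * x * q - M := h7.trans h3
  have h9 : (R * x - ζ) * (q - M * (R + 1) / R) =
      R * x * q - x * M * (R + 1) - ζ * q + ζ * (M * (R + 1) / R) := by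
    field_simp
    ring
  have h10 : 0 ≤ ζ * (M * (R + 1) / R) := by positivity
  rw [h9] at h8
  linarith

end Pool.Agent.EMC
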